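import Pool.Agent.ACL.Basic

/-!
# Arc-like spaces: the hereditary form and the absence of weak triods
-/

set_option autoImplicit false

noncomputable section

namespace Pool.Agent.ACL

open Set Filter Topology LibConfluent

theorem chn_proof : Stmt_Chn := by
  intro X _ _ hX ε hε
  obtain ⟨g, hg, -, hd⟩ := hX ε hε
  refine ⟨g, hg, ?_⟩
  set K : Set (X × X) := {q | ε ≤ dist q.1 q.2} with hKdef
  have hK : IsCompact K := (isClosed_le continuous_const continuous_dist).isCompact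
  rcases K.eq_empty_or_nonempty with h | h
  · refine ⟨1, one_pos, fun x y _ => ?_⟩
    by_contra hc
    have : (x, y) ∈ K := not_lt.1 hc
    rw [h] at this
    exact this
  · obtain ⟨q, hq, hmin⟩ := hK.exists_isMinOn h
      (f := fun q : X × X => |g q.1 - g q.2|) (by fun_prop)
    have hpos : 0 < |g q.1 - g q.2| := by
      rw [abs_pos, sub_ne_zero]
      intro heq
      have h1 : dist q.1 q.2 ≤ Metric.diam (g ⁻¹' {g q.1}) :=
        Metric.dist_le_diam_of_mem (Metric.isBounded_of_compactSpace) rfl heq.symm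
      exact absurd (hd (g q.1)) (not_lt.2 (le_trans hq h1))
    refine ⟨_, hpos, fun x y hxy => ?_⟩
    by_contra hc
    exact absurd hxy (not_lt.2 (hmin (show (x, y) ∈ K from not_lt.1 hc)))

namespace Arc1

theorem level {X : Type} [TopologicalSpace X] {g : X → ℝ} (hg : Continuous g) {P : Set X}
    (hP : IsSubcontinuum P) {x y : X} (hx : x ∈ P) (hy : y ∈ P) {t : ℝ} (h1 : g x ≤ t)
    (h2 : t ≤ g y) : ∃ z ∈ P, g z = t := by
  have := hP.2.isPreconnected.intermediate_value hx hy hg.continuousOn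
  obtain ⟨z, hz, h⟩ := this ⟨h1, h2⟩
  exact ⟨z, hz, h⟩

theorem cover {X : Type} [TopologicalSpace X] {g : X → ℝ} (hg : Continuous g) {P Q : Set X}
    (hP : IsSubcontinuum P) (hQ : IsSubcontinuum Q) {o p q y : X} (hoP : o ∈ P) (hoQ : o ∈ Q)
    (hp : p ∈ P) (hq : q ∈ Q) (h1 : g p ≤ g y) (h2 : g y ≤ g q) :
    ∃ z ∈ P ∪ Q, g z = g y := by
  rcases le_total (g y) (g o) with h | h
  · obtain ⟨z, hz, h'⟩ := level hg hP hp hoP h1 h
    exact ⟨z, Or.inl hz, h'⟩
  · obtain ⟨z, hz, h'⟩ := level hg hQ hoQ hq h h2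
    exact ⟨z, Or.inr hz, h'⟩

theorem pos {X : Type} [MetricSpace X] {B C : Set X} (hB : IsSubcontinuum B)
    (hC : IsSubcontinuum C) {a : X} (ha : a ∉ B ∪ C) :
    ∃ ε : ℝ, 0 < ε ∧ ∀ z ∈ B ∪ C, ε ≤ dist a z := by
  have hcl : IsClosed (B ∪ C) := (hB.1.union hC.1).isClosed
  have hne : (B ∪ C).Nonempty := hB.2.nonempty.mono subset_union_left
  exact ⟨Metric.infDist a (B ∪ C), (hcl.notMem_iff_infDist_pos hne).1 ha,
    fun z hz => Metric.infDist_le_dist_of_mem hz⟩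

end Arc1

open Arc1 in
theorem arcTriod_proof : Stmt_ArcTriod := by
  intro X _ _ hX A B C hA hB hC ⟨o, ⟨hoA, hoB⟩, hoC⟩
  by_contra hcon
  simp only [not_or, not_subset] at hcon
  obtain ⟨⟨a, ha, ha'⟩, ⟨b, hb, hb'⟩, ⟨c, hc, hc'⟩⟩ := hcon
  obtain ⟨ε1, hε1, h1⟩ := pos hB hC ha'
  obtain ⟨ε2, hε2, h2⟩ := pos hA hC hb'
  obtain ⟨ε3, hε3, h3⟩ := pos hA hB hc'
  obtain ⟨g, hg, δ, hδ, hgd⟩ := hX (min ε1 (min ε2 ε3)) (lt_min hε1 (lt_min hε2 hε3))
  have key : ∀ x z : X, g z = g x → dist x z < min ε1 (min ε2 ε3) := fun x z h => by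
    apply hgd
    rw [h]
    simpa using hδ
  have nA : ¬ ∃ z ∈ B ∪ C, g z = g a := by
    rintro ⟨z, hz, h⟩
    exact absurd (lt_of_lt_of_le (key a z h) (min_le_left _ _)) (not_lt.2 (h1 z hz))
  have nB : ¬ ∃ z ∈ A ∪ C, g z = g b := by
    rintro ⟨z, hz, h⟩
    exact absurd (lt_of_lt_of_le (key b z h) ((min_le_right _ _).trans (min_le_left _ _)))
      (not_lt.2 (h2 z hz))
  have nC : ¬ ∃ z ∈ A ∪ B, g z = g c := by
    rintro ⟨z, hz, h⟩
    exact absurd (lt_of_lt_of_le (key c z h) ((min_le_right _ _).trans (min_le_right _ _)))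
      (not_lt.2 (h3 z hz))
  obtain ⟨a1, ha1, ma1⟩ := hA.1.exists_isMinOn hA.2.nonempty hg.continuousOn
  obtain ⟨a2, ha2, ma2⟩ := hA.1.exists_isMaxOn hA.2.nonempty hg.continuousOn
  obtain ⟨b1, hb1, mb1⟩ := hB.1.exists_isMinOn hB.2.nonempty hg.continuousOn
  obtain ⟨b2, hb2, mb2⟩ := hB.1.exists_isMaxOn hB.2.nonempty hg.continuousOn
  obtain ⟨c1, hc1, mc1⟩ := hC.1.exists_isMinOn hC.2.nonempty hg.continuousOn
  obtain ⟨c2, hc2, mc2⟩ := hC.1.exists_isMaxOn hC.2.nonempty hg.continuousOn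
  have e1 : g a1 ≤ g a := ma1 ha
  have e2 : g a ≤ g a2 := ma2 ha
  have e3 : g b1 ≤ g b := mb1 hb
  have e4 : g b ≤ g b2 := mb2 hb
  have e5 : g c1 ≤ g c := mc1 hc
  have e6 : g c ≤ g c2 := mc2 hc
  -- the ways to be covered
  have kA : ∀ (P Q : Set X), IsSubcontinuum P → IsSubcontinuum Q → o ∈ P → o ∈ Q →
      P ⊆ B ∪ C → Q ⊆ B ∪ C → ∀ p ∈ P, ∀ q ∈ Q, g p ≤ g a → g a ≤ g q → False := by
    intro P Q hP hQ oP oQ sP sQ p hp q hq h h'
    obtain ⟨z, hz, hz'⟩ := cover hg hP hQ oP oQ hp hq h h'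
    exact nA ⟨z, union_subset sP sQ hz, hz'⟩
  have kB : ∀ (P Q : Set X), IsSubcontinuum P → IsSubcontinuum Q → o ∈ P → o ∈ Q →
      P ⊆ A ∪ C → Q ⊆ A ∪ C → ∀ p ∈ P, ∀ q ∈ Q, g p ≤ g b → g b ≤ g q → False := by
    intro P Q hP hQ oP oQ sP sQ p hp q hq h h'
    obtain ⟨z, hz, hz'⟩ := cover hg hP hQ oP oQ hp hq h h'
    exact nB ⟨z, union_subset sP sQ hz, hz'⟩
  have kC : ∀ (P Q : Set X), IsSubcontinuum P → IsSubcontinuum Q → o ∈ P → o ∈ Q →
      P ⊆ A ∪ B → Q ⊆ A ∪ B → ∀ p ∈ P, ∀ q ∈ Q, g p ≤ g c → g c ≤ g q → False := by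
    intro P Q hP hQ oP oQ sP sQ p hp q hq h h'
    obtain ⟨z, hz, hz'⟩ := cover hg hP hQ oP oQ hp hq h h'
    exact nC ⟨z, union_subset sP sQ hz, hz'⟩
  have hlo : (g a1 ≤ g b1 ∧ g a1 ≤ g c1) ∨ (g b1 ≤ g a1 ∧ g b1 ≤ g c1) ∨
      (g c1 ≤ g a1 ∧ g c1 ≤ g b1) := by
    rcases le_total (g a1) (g b1) with h | h <;> rcases le_total (g a1) (g c1) with h' | h' <;>
      rcases le_total (g b1) (g c1) with h'' | h'' <;> first
        | exact Or.inl ⟨by linarith, by linarith⟩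
        | exact Or.inr (Or.inl ⟨by linarith, by linarith⟩)
        | exact Or.inr (Or.inr ⟨by linarith, by linarith⟩)
  have hhi : (g b2 ≤ g a2 ∧ g c2 ≤ g a2) ∨ (g a2 ≤ g b2 ∧ g c2 ≤ g b2) ∨
      (g a2 ≤ g c2 ∧ g b2 ≤ g c2) := by
    rcases le_total (g a2) (g b2) with h | h <;> rcases le_total (g a2) (g c2) with h' | h' <;>
      rcases le_total (g b2) (g c2) with h'' | h'' <;> first
        | exact Or.inl ⟨by linarith, by linarith⟩
        | exact Or.inr (Or.inl ⟨by linarith, by linarith⟩)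
        | exact Or.inr (Or.inr ⟨by linarith, by linarith⟩)
  rcases hlo with ⟨l1, l2⟩ | ⟨l1, l2⟩ | ⟨l1, l2⟩ <;> rcases hhi with ⟨u1, u2⟩ | ⟨u1, u2⟩ | ⟨u1, u2⟩
  · exact kB A A hA hA hoA hoA subset_union_left subset_union_left a1 ha1 a2 ha2
      (by linarith) (by linarith)
  · exact kC A B hA hB hoA hoB subset_union_left subset_union_right a1 ha1 b2 hb2
      (by linarith) (by linarith)
  · exact kB A C hA hC hoA hoC subset_union_left subset_union_right a1 ha1 c2 hc2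
      (by linarith) (by linarith)
  · exact kC B A hB hA hoB hoA subset_union_right subset_union_left b1 hb1 a2 ha2
      (by linarith) (by linarith)
  · exact kA B B hB hB hoB hoB subset_union_left subset_union_left b1 hb1 b2 hb2
      (by linarith) (by linarith)
  · exact kA B C hB hC hoB hoC subset_union_left subset_union_right b1 hb1 c2 hc2
      (by linarith) (by linarith)
  · exact kB C A hC hA hoC hoA subset_union_right subset_union_left c1 hc1 a2 ha2
      (by linarith) (by linarith)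
  · exact kA C B hC hB hoC hoB subset_union_right subset_union_left c1 hc1 b2 hb2
      (by linarith) (by linarith)
  · exact kA C C hC hC hoC hoC subset_union_right subset_union_right c1 hc1 c2 hc2
      (by linarith) (by linarith)

end Pool.Agent.ACL

end
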