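import Pool.Agent.ACL.Arc1

/-!
# The covering property of arc-like spaces
-/

set_option autoImplicit false

noncomputable section

namespace Pool.Agent.ACL

open Set Filter Topology LibConfluent

namespace Arc3

/-- A continuum that meets two levels contains a continuum between the two levels. -/
theorem between {X : Type} [MetricSpace X] [CompactSpace X] (hCS : Stmt_CompSep) {g : X → ℝ}
    (hg : Continuous g) {B : Set X} (hB : IsSubcontinuum B) {u v : X} (hu : u ∈ B) (hv : v ∈ B)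
    (huv : g u < g v) :
    ∃ D ⊆ B, IsSubcontinuum D ∧ (∀ d ∈ D, g u ≤ g d ∧ g d ≤ g v) ∧ (∃ x ∈ D, g x = g u) ∧
      ∃ y ∈ D, g y = g v := by
  set F : Set X := B ∩ g ⁻¹' Icc (g u) (g v) with hFdef
  have hBc : IsClosed B := hB.1.isClosed
  have hF : IsClosed F := hBc.inter (isClosed_Icc.preimage hg)
  set P : Set X := F ∩ g ⁻¹' {g u} with hPdef
  set Q : Set X := F ∩ g ⁻¹' {g v} with hQdef
  have hP : IsClosed P := hF.inter (isClosed_singleton.preimage hg)
  have hQ : IsClosed Q := hF.inter (isClosed_singleton.preimage hg)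
  by_cases h : ∀ x ∈ P, Disjoint (connectedComponentIn F x) Q
  · exfalso
    obtain ⟨F₁, F₂, h1, h2, hd, hU, hA, hB'⟩ := hCS X F P Q hF hP hQ inter_subset_left
      inter_subset_left h
    have hF1 : F₁ ⊆ F := by rw [← hU]; exact subset_union_left
    have hF2 : F₂ ⊆ F := by rw [← hU]; exact subset_union_right
    have c1 : IsClosed (F₁ ∪ (B ∩ {x | g x ≤ g u})) :=
      h1.union (hBc.inter (isClosed_le hg continuous_const))
    have c2 : IsClosed (F₂ ∪ (B ∩ {x | g v ≤ g x})) :=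
      h2.union (hBc.inter (isClosed_le continuous_const hg))
    have hcov : B ⊆ (F₁ ∪ (B ∩ {x | g x ≤ g u})) ∪ (F₂ ∪ (B ∩ {x | g v ≤ g x})) := by
      intro x hx
      rcases le_total (g x) (g u) with h | h
      · exact Or.inl (Or.inr ⟨hx, h⟩)
      rcases le_total (g v) (g x) with h' | h'
      · exact Or.inr (Or.inr ⟨hx, h'⟩)
      have hxF : x ∈ F₁ ∪ F₂ := by rw [hU]; exact ⟨hx, h, h'⟩
      rcases hxF with hx1 | hx2
      · exact Or.inl (Or.inl hx1)
      · exact Or.inr (Or.inl hx2)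
    have := isPreconnected_closed_iff.1 hB.2.isPreconnected _ _ c1 c2 hcov
      ⟨u, hu, Or.inr ⟨hu, le_refl (g u)⟩⟩ ⟨v, hv, Or.inr ⟨hv, le_refl (g v)⟩⟩
    obtain ⟨x, hx, hx1, hx2⟩ := this
    rcases hx1 with hx1 | ⟨-, hx1⟩ <;> rcases hx2 with hx2 | ⟨-, hx2⟩
    · exact disjoint_left.1 hd hx1 hx2
    · have hxF := hF1 hx1
      have e : g x = g v := le_antisymm hxF.2.2 hx2
      exact disjoint_left.1 hd hx1 (hB' ⟨hxF, e⟩)
    · have hxF := hF2 hx2
      have e : g x = g u := le_antisymm hx1 hxF.2.1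
      exact disjoint_left.1 hd (hA ⟨hxF, e⟩) hx2
    · have e1 : g x ≤ g u := hx1
      have e2 : g v ≤ g x := hx2
      linarith
  · push Not at h
    obtain ⟨x, hx, hnd⟩ := h
    obtain ⟨y, hy1, hy2⟩ := not_disjoint_iff.1 hnd
    have hsub : connectedComponentIn F x ⊆ F := connectedComponentIn_subset F x
    refine ⟨connectedComponentIn F x, hsub.trans inter_subset_left, subcont_comp hF hx.1,
      fun d hd => (hsub hd).2, ⟨x, mem_connectedComponentIn hx.1, hx.2⟩, ⟨y, hy1, hy2.2⟩⟩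

/-- Clamping. -/
theorem clamp {X : Type} [TopologicalSpace X] {g : X → ℝ} (hg : Continuous g) {P : Set X}
    (hP : IsSubcontinuum P) {x y : X} (hx : x ∈ P) (hy : y ∈ P) {s e : ℝ}
    (h1 : g x - e < s) (h2 : s < g y + e) (he : 0 < e) : ∃ z ∈ P, |s - g z| < e := by
  rcases le_total s (g x) with h | h
  · refine ⟨x, hx, ?_⟩
    rw [abs_lt]
    constructor <;> linarith
  rcases le_total (g y) s with h' | h'
  · refine ⟨y, hy, ?_⟩
    rw [abs_lt]
    constructor <;> linarith
  obtain ⟨z, hz, hz'⟩ := Arc1.level hg hP hx hy h h'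
  refine ⟨z, hz, ?_⟩
  rw [hz', sub_self, abs_zero]
  exact he

end Arc3

open Arc3 in
theorem cPX_proof (hCS : Stmt_CompSep) : Stmt_CPX := by
  intro X _ _ hX D₀ B₀ ε hD₀ hB₀ hsub hε
  obtain ⟨g, hg, χ, hχ, hgχ⟩ := hX ε hε
  have huc : UniformContinuous g := CompactSpace.uniformContinuous_of_continuous hg
  obtain ⟨δ, hδ, hgδ⟩ := Metric.uniformContinuous_iff.1 huc (χ / 3) (by linarith)
  obtain ⟨p, hp, mp⟩ := hD₀.1.exists_isMinOn hD₀.2.nonempty hg.continuousOn
  obtain ⟨q, hq, mq⟩ := hD₀.1.exists_isMaxOn hD₀.2.nonempty hg.continuousOn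
  have mp' : ∀ d ∈ D₀, g p ≤ g d := fun d hd => mp hd
  have mq' : ∀ d ∈ D₀, g d ≤ g q := fun d hd => mq hd
  refine ⟨δ, hδ, fun B hB hnear => ?_⟩
  obtain ⟨u, hu, hup⟩ := hnear.2 p (hsub hp)
  obtain ⟨v, hv, hvq⟩ := hnear.2 q (hsub hq)
  have hu' : |g u - g p| < χ / 3 := by
    have := hgδ hup
    rwa [Real.dist_eq] at this
  have hv' : |g v - g q| < χ / 3 := by
    have := hgδ hvq
    rwa [Real.dist_eq] at this
  rw [abs_lt] at hu' hv'
  have hpq : g p ≤ g q := mp' q hq
  rcases le_or_gt (g v) (g u) with h | h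
  · have key : ∀ d ∈ D₀, dist u d < ε := by
      intro d hd
      apply hgχ
      have e1 := mp' d hd
      have e2 := mq' d hd
      rw [abs_lt]
      constructor <;> linarith
    refine ⟨{u}, singleton_subset_iff.2 hu, subcont_singleton u, ?_, ?_⟩
    · rintro a rfl
      exact ⟨p, hp, key p hp⟩
    · intro d hd
      exact ⟨u, rfl, key d hd⟩
  · obtain ⟨D, hDB, hD, hlev, ⟨x, hx, hxu⟩, ⟨y, hy, hyv⟩⟩ := between hCS hg hB hu hv h
    refine ⟨D, hDB, hD, ?_, ?_⟩
    · intro d hd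
      have e := hlev d hd
      obtain ⟨z, hz, hz'⟩ := clamp hg hD₀ hp hq (s := g d) (e := χ / 3) (by linarith)
        (by linarith) (by linarith)
      exact ⟨z, hz, hgχ _ _ (by linarith)⟩
    · intro d hd
      have e1 := mp' d hd
      have e2 := mq' d hd
      obtain ⟨z, hz, hz'⟩ := clamp hg hD hx hy (s := g d) (e := χ / 3)
        (by linarith) (by linarith) (by linarith)
      refine ⟨z, hz, hgχ _ _ ?_⟩
      rw [abs_sub_comm]
      linarith

end Pool.Agent.ACL

end
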