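import Pool.Agent.ACL.Stmts

/-!
# Module ARC2: circle-valued functions on closed subsets of arc-like spaces lift

`MP_53fb6e_gt`, arc-like class.
-/

set_option autoImplicit false

noncomputable section

namespace Pool.Agent.ACL

open Set Filter Topology LibConfluent

namespace ArcLift

instance : Fact ((0 : ℝ) < 1) := ⟨one_pos⟩

/-- The representative in `[-1/2, 1/2)`. -/
def rep (θ : T) : ℝ := (AddCircle.equivIco (1 : ℝ) (-1 / 2) θ : ℝ)

theorem coe_rep (θ : T) : ((rep θ : ℝ) : T) = θ := AddCircle.coe_equivIco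

theorem abs_rep (θ : T) : |rep θ| = ‖θ‖ := by
  have h : ‖((rep θ : ℝ) : T)‖ = |rep θ| := by
    rw [AddCircle.norm_coe_eq_abs_iff _ one_ne_zero]
    have h1 := (AddCircle.equivIco (1 : ℝ) (-1 / 2) θ).2
    have h2 : -1 / 2 ≤ rep θ ∧ rep θ < -1 / 2 + 1 := h1
    rw [abs_le, abs_one]
    constructor <;> linarith [h2.1, h2.2]
  rw [← h, coe_rep]

theorem continuousAt_rep (θ : T) (h : ‖θ‖ < 1 / 2) : ContinuousAt rep θ := by
  have hne : θ ≠ ((-1 / 2 : ℝ) : T) := by
    rintro rfl
    have h2 : ‖((-1 / 2 : ℝ) : T)‖ = |(-1 / 2 : ℝ)| := by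
      rw [AddCircle.norm_coe_eq_abs_iff _ one_ne_zero]
      norm_num [abs_of_neg]
    rw [h2] at h
    norm_num [abs_of_neg] at h
  exact continuousAt_subtype_val.comp (AddCircle.continuousAt_equivIco (1 : ℝ) (-1 / 2) hne)

/-- It is enough to approximate by a real function. -/
theorem lift_of_approx {X : Type} [TopologicalSpace X] (K : Set X) (g : X → T) (φ : X → ℝ)
    (hg : ContinuousOn g K) (hφ : Continuous φ)
    (h : ∀ x ∈ K, ‖g x - ((φ x : ℝ) : T)‖ < 1 / 2) : LiftsOn g K := by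
  refine ⟨fun x => φ x + rep (g x - ((φ x : ℝ) : T)), ?_, ?_⟩
  · refine hφ.continuousOn.add ?_
    have h1 : ContinuousOn (fun x => g x - ((φ x : ℝ) : T)) K :=
      hg.sub ((AddCircle.continuous_mk' (1 : ℝ)).comp hφ).continuousOn
    intro x hx
    exact ContinuousAt.comp_continuousWithinAt (f := fun x => g x - ((φ x : ℝ) : T))
      (continuousAt_rep _ (h x hx)) (h1 x hx)
  · intro y _
    rw [AddCircle.coe_add, coe_rep]
    abel

/-- A slowly varying circle-valued function on the fibres of a real function is close to a real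
function. -/
theorem approx {X : Type} (K : Set X) (g : X → T) (χ : X → ℝ) (s : ℝ) (hs : 0 < s) (N : ℕ)
    (h0 : ∀ x ∈ K, 0 ≤ χ x) (hN : ∀ x ∈ K, χ x < N * s)
    (h : ∀ x ∈ K, ∀ y ∈ K, |χ x - χ y| < 2 * s → ‖g x - g y‖ < 1 / 4) :
    ∃ Φ : ℝ → ℝ, Continuous Φ ∧ ∀ x ∈ K, ‖g x - ((Φ (χ x) : ℝ) : T)‖ < 1 / 2 := by
  classical
  -- cells
  let cell : ℕ → Set X := fun i => {x | x ∈ K ∧ (i : ℝ) * s ≤ χ x ∧ χ x < (i + 1 : ℕ) * s}
  -- real numbers attached to cells
  let c : ℕ → ℝ := fun n => Nat.rec (motive := fun _ => ℝ)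
    (if hc : (cell 0).Nonempty then rep (g hc.choose) else 0)
    (fun i ci => if hc : (cell (i + 1)).Nonempty then ci + rep (g hc.choose - ((ci : ℝ) : T))
      else ci) n
  have c0 : c 0 = if hc : (cell 0).Nonempty then rep (g hc.choose) else 0 := rfl
  have cs : ∀ i, c (i + 1) = if hc : (cell (i + 1)).Nonempty then
      c i + rep (g hc.choose - ((c i : ℝ) : T)) else c i := fun i => rfl
  have key : ∀ i, ∀ hc : (cell i).Nonempty, ((c i : ℝ) : T) = g hc.choose := by
    intro i hc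
    cases i with
    | zero => rw [c0, dif_pos hc, coe_rep]
    | succ i =>
      rw [cs, dif_pos hc, AddCircle.coe_add, coe_rep]
      abel
  have near : ∀ i, ∀ x ∈ cell i, ‖g x - ((c i : ℝ) : T)‖ < 1 / 4 := by
    intro i x hx
    have hc : (cell i).Nonempty := ⟨x, hx⟩
    rw [key i hc]
    have hy := hc.choose_spec
    obtain ⟨hxK, hx1, hx2⟩ := hx
    obtain ⟨hyK, hy1, hy2⟩ := hy
    apply h _ hxK _ hyK
    push_cast at hx2 hy2
    rw [abs_lt]
    constructor <;> nlinarith
  have step : ∀ i, (cell i).Nonempty → |c (i + 1) - c i| < 1 / 4 := by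
    intro i hc
    rw [cs]
    by_cases hc' : (cell (i + 1)).Nonempty
    · rw [dif_pos hc', add_sub_cancel_left, abs_rep, key i hc]
      have hx := hc'.choose_spec
      have hy := hc.choose_spec
      obtain ⟨hxK, hx1, hx2⟩ := hx
      obtain ⟨hyK, hy1, hy2⟩ := hy
      apply h _ hxK _ hyK
      push_cast at hx1 hx2 hy2
      rw [abs_lt]
      constructor <;> nlinarith
    · rw [dif_neg hc']
      norm_num
  -- the piecewise linear function
  let cl : ℝ → ℝ := fun u => max 0 (min 1 u)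
  have clc : Continuous cl := continuous_const.max (continuous_const.min continuous_id)
  have cl0 : ∀ u, u ≤ 0 → cl u = 0 := by
    intro u hu
    exact max_eq_left (le_trans (min_le_right _ _) hu)
  have cl1 : ∀ u, 1 ≤ u → cl u = 1 := by
    intro u hu
    simp only [cl]
    rw [min_eq_left hu]
    norm_num
  have cl01 : ∀ u, 0 ≤ cl u ∧ cl u ≤ 1 := by
    intro u
    exact ⟨le_max_left _ _, max_le zero_le_one (min_le_left _ _)⟩
  let Φ : ℝ → ℝ := fun t => c 0 + ∑ j ∈ Finset.range N, (c (j + 1) - c j) * cl (t / s - j)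
  have hΦ : Continuous Φ := by
    refine continuous_const.add (continuous_finsetSum _ fun j _ => ?_)
    exact continuous_const.mul (clc.comp ((continuous_id.div_const s).sub continuous_const))
  refine ⟨Φ, hΦ, ?_⟩
  intro x hx
  -- the cell of `x`
  have hq0 : 0 ≤ χ x / s := div_nonneg (h0 x hx) hs.le
  set i := ⌊χ x / s⌋₊ with hi
  have hi1 : (i : ℝ) ≤ χ x / s := Nat.floor_le hq0
  have hi2 : χ x / s < i + 1 := Nat.lt_floor_add_one _
  have hxc : x ∈ cell i := by
    refine ⟨hx, ?_, ?_⟩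
    · exact (le_div_iff₀ hs).1 hi1
    · push_cast
      exact (div_lt_iff₀ hs).1 hi2
  have hiN : i < N := by
    have h1 : χ x / s < N := (div_lt_iff₀ hs).2 (hN x hx)
    exact_mod_cast lt_of_le_of_lt hi1 h1
  have val : Φ (χ x) = c i + (c (i + 1) - c i) * cl (χ x / s - i) := by
    simp only [Φ]
    have e1 : ∑ j ∈ Finset.range N, (c (j + 1) - c j) * cl (χ x / s - j)
        = ∑ j ∈ Finset.range (i + 1), (c (j + 1) - c j) * cl (χ x / s - j) := by
      symm
      apply Finset.sum_subset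
      · intro j hj
        rw [Finset.mem_range] at hj ⊢
        omega
      · intro j _ hj
        rw [Finset.mem_range, not_lt] at hj
        rw [cl0, mul_zero]
        have : ((i : ℝ) + 1) ≤ j := by exact_mod_cast hj
        linarith
    rw [e1, Finset.sum_range_succ]
    have e2 : ∑ j ∈ Finset.range i, (c (j + 1) - c j) * cl (χ x / s - j)
        = ∑ j ∈ Finset.range i, (c (j + 1) - c j) := by
      apply Finset.sum_congr rfl
      intro j hj
      rw [Finset.mem_range] at hj
      rw [cl1, mul_one]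
      have : ((j : ℝ) + 1) ≤ i := by exact_mod_cast hj
      linarith
    rw [e2, Finset.sum_range_sub]
    ring
  have herr : |Φ (χ x) - c i| < 1 / 4 := by
    rw [val, add_sub_cancel_left, abs_mul]
    have h1 := step i ⟨x, hxc⟩
    have h2 := cl01 (χ x / s - i)
    rw [abs_of_nonneg h2.1]
    calc |c (i + 1) - c i| * cl (χ x / s - i) ≤ |c (i + 1) - c i| * 1 :=
          mul_le_mul_of_nonneg_left h2.2 (abs_nonneg _)
      _ < 1 / 4 := by rw [mul_one]; exact h1
  have e3 : g x - ((Φ (χ x) : ℝ) : T)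
      = (g x - ((c i : ℝ) : T)) - (((Φ (χ x) - c i : ℝ)) : T) := by
    rw [AddCircle.coe_sub]
    abel
  rw [e3]
  have h4 : ‖(((Φ (χ x) - c i : ℝ)) : T)‖ < 1 / 4 := by
    have h5 : ‖(((Φ (χ x) - c i : ℝ)) : T)‖ = |Φ (χ x) - c i| := by
      rw [AddCircle.norm_coe_eq_abs_iff _ one_ne_zero, abs_one]
      linarith
    rw [h5]
    exact herr
  calc ‖(g x - ((c i : ℝ) : T)) - (((Φ (χ x) - c i : ℝ)) : T)‖
      ≤ ‖g x - ((c i : ℝ) : T)‖ + ‖(((Φ (χ x) - c i : ℝ)) : T)‖ := norm_sub_le _ _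
    _ < 1 / 4 + 1 / 4 := add_lt_add (near i x hxc) h4
    _ = 1 / 2 := by norm_num

end ArcLift

open ArcLift in
theorem arcLift_proof : Stmt_ArcLift := by
  intro X _ _ hX K g hK hg
  have hKc : IsCompact K := hK.isCompact
  have huc : UniformContinuousOn g K := hKc.uniformContinuousOn_of_continuous hg
  rw [Metric.uniformContinuousOn_iff] at huc
  obtain ⟨ε, hε, hεg⟩ := huc (1 / 4) (by norm_num)
  obtain ⟨χ, hχ, δ, hδ, hχδ⟩ := hX ε hε
  rcases isEmpty_or_nonempty X with hE | hE
  · exact ⟨fun _ => 0, continuousOn_const, fun y => hE.elim y⟩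
  obtain ⟨x0, -, hx0⟩ := isCompact_univ.exists_isMinOn univ_nonempty hχ.continuousOn
  obtain ⟨x1, -, hx1⟩ := isCompact_univ.exists_isMaxOn univ_nonempty hχ.continuousOn
  have hs : 0 < δ / 2 := by positivity
  obtain ⟨N, hN⟩ := exists_nat_gt ((χ x1 - χ x0) / (δ / 2))
  rw [div_lt_iff₀ hs] at hN
  obtain ⟨Φ, hΦ, hΦg⟩ := approx K g (fun x => χ x - χ x0) (δ / 2) hs N
    (fun x _ => sub_nonneg.2 (hx0 (mem_univ x)))
    (fun x _ => lt_of_le_of_lt (sub_le_sub_right (hx1 (mem_univ x)) _) hN)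
    (fun x hx y hy hxy => by
      have h1 : dist x y < ε := by
        apply hχδ
        have : χ x - χ x0 - (χ y - χ x0) = χ x - χ y := by ring
        rw [this] at hxy
        linarith
      have h2 := hεg x hx y hy h1
      rwa [dist_eq_norm] at h2)
  exact lift_of_approx K g (fun x => Φ (χ x - χ x0)) hg
    (hΦ.comp (hχ.sub continuous_const)) hΦg

end Pool.Agent.ACL

end
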