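import Pool.Agent.ACL.Stmts

/-!
# Assembly of the main argument
-/

set_option autoImplicit false

noncomputable section

namespace Pool.Agent.ACL

open Set Filter Topology LibConfluent

theorem arcLiftC (hL : Stmt_ArcLift) (X : Type) [MetricSpace X] [CompactSpace X] (hX : Chn X) :
    LiftC X := fun K g hK hg => hL X hX K g hK.1.isClosed hg

/-- Pullbacks are connected. -/
theorem pull_of (hMin : Stmt_Min) (hL : Stmt_ArcLift) (hLY : Stmt_LiftY) (hT : Stmt_ArcTriod)
    (hTY : Stmt_TriodY) (hHU : Stmt_HU) (hWC : Stmt_WC) (hCount : Stmt_Count) (hDec : Stmt_Dec)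
    (hInd : Stmt_Ind) (hCov : Stmt_Cov) : Stmt_Pull := by
  refine hMin ?_
  intro X Y N _ _ _ _ _ _ _ _ _ _ f p G H hX hB
  have hLX : LiftC X := arcLiftC hL X hX
  have hYL : LiftC Y := hLY X Y f hB.conf hLX
  have hYT : NoTriod Y := hTY X Y f hB.conf (hT X hX)
  have hWf : WC f := hWC Y X f hYL hYT hB.conf.continuous
  have hWp : WC p := hWC Y N p hYL hYT hB.pcont
  obtain ⟨m, η, hC⟩ := hCount X Y N f p G H hX hWf hWp hB
  have hD := hDec X Y N f p G H m η (hHU Y hYL) hWp hB hC
  obtain ⟨E, hE⟩ := hInd X Y N f p G H m η hWp hB hC hD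
  have h1 := hCov X Y f E m hX hLX hYL hB.conf hE
  have h2 := hC.1
  omega

end Pool.Agent.ACL

end
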