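import Pool.Agent.ACL.Stmts

/-!
# Small facts used by several modules
-/

set_option autoImplicit false

noncomputable section

namespace Pool.Agent.ACL

open Set Filter Topology LibConfluent

theorem isClosed_comp {X : Type} [TopologicalSpace X] {F : Set X} (hF : IsClosed F) (x : X) :
    IsClosed (connectedComponentIn F x) := by
  by_cases hx : x ∈ F
  · rw [connectedComponentIn_eq_image hx]
    exact hF.isClosedEmbedding_subtypeVal.isClosedMap _ isClosed_connectedComponent
  · rw [connectedComponentIn_eq_empty hx]
    exact isClosed_empty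

theorem subcont_comp {X : Type} [TopologicalSpace X] [CompactSpace X] {F : Set X}
    (hF : IsClosed F) {x : X} (hx : x ∈ F) : IsSubcontinuum (connectedComponentIn F x) :=
  ⟨(isClosed_comp hF x).isCompact, isConnected_connectedComponentIn_iff.2 hx⟩

theorem subcont_image {X Y : Type} [TopologicalSpace X] [TopologicalSpace Y] {K : Set X}
    (hK : IsSubcontinuum K) {f : X → Y} (hf : Continuous f) : IsSubcontinuum (f '' K) :=
  ⟨hK.1.image hf, hK.2.image f hf.continuousOn⟩

theorem subcont_union {X : Type} [TopologicalSpace X] {K L : Set X} (hK : IsSubcontinuum K)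
    (hL : IsSubcontinuum L) (h : (K ∩ L).Nonempty) : IsSubcontinuum (K ∪ L) :=
  ⟨hK.1.union hL.1, IsConnected.union h hK.2 hL.2⟩

theorem subcont_inter {X : Type} [MetricSpace X] {K L : Set X} (hU : HU X)
    (hK : IsSubcontinuum K) (hL : IsSubcontinuum L) (h : (K ∩ L).Nonempty) :
    IsSubcontinuum (K ∩ L) :=
  ⟨hK.1.inter hL.1, h, hU K L hK hL⟩

theorem subcont_singleton {X : Type} [TopologicalSpace X] (x : X) : IsSubcontinuum ({x} : Set X) :=
  ⟨isCompact_singleton, isConnected_singleton⟩

theorem subcont_univ {X : Type} [TopologicalSpace X] [CompactSpace X] [ConnectedSpace X] :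
    IsSubcontinuum (univ : Set X) :=
  ⟨isCompact_univ, isConnected_univ⟩

/-- A confluent mapping maps the component of a point of the preimage of `K` onto `K`. -/
theorem image_comp {X Y : Type} [TopologicalSpace X] [TopologicalSpace Y] {f : X → Y}
    (hf : Confluent f) {K : Set Y} (hK : IsSubcontinuum K) {x : X} (hx : f x ∈ K) :
    f '' connectedComponentIn (f ⁻¹' K) x = K :=
  hf.image_component K hK _ ⟨x, hx, rfl⟩

/-- A point of the component over a given point of `K`. -/
theorem exists_comp {X Y : Type} [TopologicalSpace X] [TopologicalSpace Y] {f : X → Y}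
    (hf : Confluent f) {K : Set Y} (hK : IsSubcontinuum K) {x : X} (hx : f x ∈ K) {k : Y}
    (hk : k ∈ K) : ∃ x' ∈ connectedComponentIn (f ⁻¹' K) x, f x' = k := by
  have h := image_comp hf hK hx
  rw [← h] at hk
  obtain ⟨x', hx', h'⟩ := hk
  exact ⟨x', hx', h'⟩

end Pool.Agent.ACL

end
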