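import Pool.Agent.ACL.Count
import Pool.Agent.ACL.Basic

/-!
# The covering property of confluent images of arc-like continua
-/

set_option autoImplicit false

noncomputable section

namespace Pool.Agent.ACL

open Set Filter Topology LibConfluent Pool.Agent.ACL.Count

theorem cPY_proof (hLim : Stmt_Lim) (hCPX : Stmt_CPX) : Stmt_CPY := by
  intro X Y _ _ _ _ f hX hf hWf K₀ ε hK₀ hε
  by_contra hcon
  push Not at hcon
  have h1 : ∀ j : ℕ, ∃ K : Set Y, IsSubcontinuum K ∧ Dns (1 / ((j : ℝ) + 1)) K ∧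
      ∀ K' ⊆ K, IsSubcontinuum K' → ¬ Near ε K' K₀ := fun j =>
    hcon (1 / ((j : ℝ) + 1)) (by positivity)
  choose K hK hKd hKn using h1
  have h2 : ∀ j : ℕ, ∃ B : Set X, IsSubcontinuum B ∧ f '' B = K j := by
    intro j
    obtain ⟨k, hk⟩ := (hK j).2.nonempty
    obtain ⟨x, rfl⟩ := hf.surjective k
    exact ⟨connectedComponentIn (f ⁻¹' K j) x,
      subcont_comp ((hK j).1.isClosed.preimage hf.continuous) hk, image_comp hf (hK j) hk⟩
  choose B hB hBK using h2
  obtain ⟨L, φ, hL, hφ, hN⟩ := hLim X B hB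
  have himg : f '' L = univ := by
    refine image_limit hf.continuous (M := fun j => B (φ j)) (K := fun j => K (φ j)) hL.1
      isCompact_univ hN ?_ (fun j => hBK _)
    intro δ hδ
    have ht := (tendsto_one_div_add_atTop_nhds_zero_nat (𝕜 := ℝ)).eventually_lt_const hδ
    filter_upwards [hφ.tendsto_atTop.eventually ht] with j hj
    refine ⟨fun a _ => ⟨a, mem_univ _, by rw [dist_self]; exact hδ⟩, fun b _ => ?_⟩
    obtain ⟨a, ha, hab⟩ := hKd (φ j) b
    exact ⟨a, ha, by rw [dist_comm]; exact hab.trans hj⟩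
  obtain ⟨D₀, hD₀L, hD₀, hD₀K⟩ := hWf L K₀ hL hK₀ (by rw [himg]; exact subset_univ _)
  have huc := CompactSpace.uniformContinuous_of_continuous hf.continuous
  rw [Metric.uniformContinuous_iff] at huc
  obtain ⟨ε', hε', hu⟩ := huc ε hε
  obtain ⟨δ, hδ, hc⟩ := hCPX X hX D₀ L ε' hD₀ hL hD₀L hε'
  obtain ⟨j, hj⟩ := (hN δ hδ).exists
  obtain ⟨D, hDB, hD, hDN⟩ := hc (B (φ j)) (hB _) hj
  refine hKn (φ j) (f '' D) ?_ (subcont_image hD hf.continuous) ⟨?_, ?_⟩
  · rw [← hBK]; exact image_mono hDB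
  · rintro _ ⟨d, hd, rfl⟩
    obtain ⟨d', hd', h⟩ := hDN.1 d hd
    exact ⟨f d', by rw [← hD₀K]; exact mem_image_of_mem f hd', hu h⟩
  · intro b hb
    rw [← hD₀K] at hb
    obtain ⟨d', hd', rfl⟩ := hb
    obtain ⟨d, hd, h⟩ := hDN.2 d' hd'
    exact ⟨f d, mem_image_of_mem f hd, hu h⟩

end Pool.Agent.ACL

end
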