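import Pool.Agent.ACL.Stmts

/-!
# The values of the cocycle towards an invariant closed set
-/

set_option autoImplicit false

noncomputable section

namespace Pool.Agent.ACL

open Set Filter Topology LibConfluent

namespace CntM

variable {X Y G : Type} [MetricSpace X] [CompactSpace X] [MetricSpace Y] [CompactSpace Y]
  [Group G] [Finite G] {f : X → Y} {σ : X → X → G} {M : Set X}

/-- The values of the cocycle at `x` towards `M`. -/
def Av (f : X → Y) (σ : X → X → G) (M : Set X) (x : X) : Set G :=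
  {τ | ∃ x' ∈ M, f x = f x' ∧ σ x x' = τ}

omit [CompactSpace X] [CompactSpace Y] [Finite G] in
theorem av_mul (hσ : Coc f σ) {x x' : X} (h : f x = f x') :
    Av f σ M x = (fun τ => τ * σ x x') '' Av f σ M x' := by
  ext τ
  constructor
  · rintro ⟨z, hz, hxz, rfl⟩
    refine ⟨σ x' z, ⟨z, hz, h.symm.trans hxz, rfl⟩, ?_⟩
    exact (hσ.mul x x' z h (h.symm.trans hxz)).symm
  · rintro ⟨τ', ⟨z, hz, hxz, rfl⟩, rfl⟩
    exact ⟨z, hz, h.trans hxz, hσ.mul x x' z h hxz⟩

omit [CompactSpace X] [CompactSpace Y] [Finite G] in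
theorem av_ncard (hσ : Coc f σ) {x x' : X} (h : f x = f x') :
    (Av f σ M x).ncard = (Av f σ M x').ncard := by
  rw [av_mul hσ h]
  exact Set.ncard_image_of_injective _ (mul_left_injective _)

omit [CompactSpace Y] [Finite G] in
theorem closed_mem (hσ : Coc f σ) (hM : IsClosed M) (τ : G) :
    IsClosed {x | τ ∈ Av f σ M x} := by
  have h : {x | τ ∈ Av f σ M x} =
      Prod.fst '' ({q : X × X | f q.1 = f q.2 ∧ σ q.1 q.2 = τ} ∩ {q | q.2 ∈ M}) := by
    ext x
    constructor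
    · rintro ⟨x', hx', h1, h2⟩
      exact ⟨(x, x'), ⟨⟨h1, h2⟩, hx'⟩, rfl⟩
    · rintro ⟨⟨a, b⟩, ⟨⟨h1, h2⟩, h3⟩, rfl⟩
      exact ⟨b, h3, h1, h2⟩
  rw [h]
  exact (((hσ.closed τ).inter (hM.preimage continuous_snd)).isCompact.image
    continuous_fst).isClosed

omit [CompactSpace Y] [Finite G] in
theorem closed_sub (hσ : Coc f σ) (hM : IsClosed M) (S : Set G) :
    IsClosed {x | S ⊆ Av f σ M x} := by
  have h : {x | S ⊆ Av f σ M x} = ⋂ τ ∈ S, {x | τ ∈ Av f σ M x} := by
    ext x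
    simp only [Set.mem_ofPred_eq, Set.mem_iInter]
    exact Iff.rfl
  rw [h]
  exact isClosed_biInter fun τ _ => closed_mem hσ hM τ

omit [CompactSpace X] [CompactSpace Y] [Finite G] in
theorem image_comp (hf : Confluent f) {x : X} {S : Set Y} (hS : IsSubcontinuum S)
    (hx : f x ∈ S) : f '' connectedComponentIn (f ⁻¹' S) x = S :=
  hf.image_component S hS _ ⟨x, hx, rfl⟩

omit [CompactSpace X] [CompactSpace Y] [Finite G] in
theorem spread (hf : Confluent f) (hσ : Coc f σ)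
    (hS : ∀ S : Set Y, IsSubcontinuum S → S ≠ univ → ∀ x ∈ M, f x ∈ S →
      connectedComponentIn (f ⁻¹' S) x ⊆ M) (A : Set G) (S : Set Y) (hSc : IsSubcontinuum S)
    (hSu : S ≠ univ) (x : X) (hx : f x ∈ S) (hA : A ⊆ Av f σ M x) (y : Y) (hy : y ∈ S) :
    ∃ u, f u = y ∧ A ⊆ Av f σ M u := by
  have h1 := image_comp hf hSc hx
  rw [← h1] at hy
  obtain ⟨u, hu, rfl⟩ := hy
  have huS : f u ∈ S := by
    rw [← h1]
    exact ⟨u, hu, rfl⟩
  refine ⟨u, rfl, fun τ hτ => ?_⟩
  obtain ⟨x', hx'M, hxx', hτ'⟩ := hA hτ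
  have hx'S : f x' ∈ S := hxx' ▸ hx
  have h2 := image_comp hf hSc hx'S
  have hu2 : f u ∈ f '' connectedComponentIn (f ⁻¹' S) x' := by rw [h2]; exact huS
  obtain ⟨u', hu', huu'⟩ := hu2
  refine ⟨u', hS S hSc hSu x' hx'M hx'S hu', huu'.symm, ?_⟩
  rw [← hτ']
  exact (hσ.move S hSc hSu x x' u u' hx hxx' huu'.symm hu hu').symm

end CntM

open CntM in
theorem cnt_proof (hSat : Stmt_Sat) : Stmt_Cnt := by
  intro X Y G _ _ _ _ _ _ _ _ f σ M hf hσ hM hMne _ hS
  -- every value set is attained over all points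
  have huniv : IsSubcontinuum (univ : Set Y) := ⟨isCompact_univ, isConnected_univ⟩
  have hall : ∀ x₀ : X, ∀ y : Y, ∃ u, f u = y ∧ Av f σ M x₀ ⊆ Av f σ M u := by
    intro x₀
    have hcl : IsClosed (f '' {x | Av f σ M x₀ ⊆ Av f σ M x}) :=
      ((closed_sub hσ hM _).isCompact.image hf.continuous).isClosed
    have := hSat Y univ (f '' {x | Av f σ M x₀ ⊆ Av f σ M x}) huniv hcl
      ⟨f x₀, x₀, Subset.rfl, rfl⟩ (subset_univ _) ?_
    · intro y
      have hy : y ∈ f '' {x | Av f σ M x₀ ⊆ Av f σ M x} := by rw [this]; trivial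
      obtain ⟨u, hu, rfl⟩ := hy
      exact ⟨u, rfl, hu⟩
    · rintro S hSc - hSu ⟨_, hyS, x, hx, rfl⟩ y hy
      obtain ⟨u, hu, hA⟩ := spread hf hσ hS (Av f σ M x₀) S hSc hSu x hyS hx y hy
      exact ⟨u, hA, hu⟩
  -- maximal cardinality
  have hcard : ∀ x, (Av f σ M x).ncard ≤ Nat.card G := fun x => by
    rw [← Set.ncard_univ]
    exact Set.ncard_le_ncard (subset_univ _) (Set.toFinite _)
  have hX : Nonempty X := ⟨hMne.some⟩
  obtain ⟨x₀, hx₀⟩ : ∃ x₀, ∀ x, (Av f σ M x).ncard ≤ (Av f σ M x₀).ncard := by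
    have hbdd : BddAbove (range fun x => (Av f σ M x).ncard) :=
      ⟨Nat.card G, by rintro _ ⟨x, rfl⟩; exact hcard x⟩
    have hne : (range fun x => (Av f σ M x).ncard).Nonempty := range_nonempty _
    obtain ⟨x₀, hx₀⟩ := Nat.sSup_mem hne hbdd
    exact ⟨x₀, fun x => (le_csSup hbdd ⟨x, rfl⟩).trans_eq hx₀.symm⟩
  have hconst : ∀ x, (Av f σ M x).ncard = (Av f σ M x₀).ncard := by
    intro x
    obtain ⟨u, hu, hA⟩ := hall x₀ (f x)
    have h1 : Av f σ M x₀ = Av f σ M u :=
      Set.eq_of_subset_of_ncard_le hA (hx₀ u) (Set.toFinite _)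
    rw [h1]
    exact av_ncard hσ hu.symm
  refine ⟨Av f σ M x₀, ?_⟩
  have hclS : ∀ S : Set G, IsClosed {x | Av f σ M x = S} := by
    intro S
    by_cases hc : S.ncard = (Av f σ M x₀).ncard
    · have : {x | Av f σ M x = S} = {x | S ⊆ Av f σ M x} := by
        ext x
        simp only [Set.mem_ofPred_eq]
        constructor
        · rintro h; rw [h]
        · intro h
          exact (Set.eq_of_subset_of_ncard_le h (by rw [hc, hconst x]) (Set.toFinite _)).symm
      rw [this]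
      exact closed_sub hσ hM S
    · have : {x | Av f σ M x = S} = ∅ := by
        ext x
        simp only [Set.mem_ofPred_eq, Set.mem_empty_iff_false, iff_false]
        intro h
        exact hc (h ▸ hconst x)
      rw [this]
      exact isClosed_empty
  have hclopen : IsClopen {x | Av f σ M x = Av f σ M x₀} := by
    refine ⟨hclS _, ?_⟩
    rw [← isClosed_compl_iff]
    have : {x | Av f σ M x = Av f σ M x₀}ᶜ =
        ⋃ S ∈ {S : Set G | S ≠ Av f σ M x₀}, {x | Av f σ M x = S} := by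
      ext x
      simp
    rw [this]
    exact Set.Finite.isClosed_biUnion (Set.toFinite _) fun S _ => hclS S
  have huX : {x | Av f σ M x = Av f σ M x₀} = univ := hclopen.eq_univ ⟨x₀, rfl⟩
  intro x
  have : x ∈ {x | Av f σ M x = Av f σ M x₀} := by rw [huX]; trivial
  exact this

end Pool.Agent.ACL

end
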