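import Pool.Agent.ACL.Basic

/-!
# The cocycle of a labelling
-/

set_option autoImplicit false

noncomputable section

namespace Pool.Agent.ACL

open Set Filter Topology LibConfluent

namespace CocP

variable {X Y : Type} [MetricSpace X] [MetricSpace Y] {f : X → Y} {E : X → X → Prop} {m : ℕ}
  {l : X → X → Fin m}

/-- A point of the fibre with label `i`. -/
def pt (hL : Lab f E m l) (x : X) (i : Fin m) : X := (hL.surj x i).choose

theorem pt_fib (hL : Lab f E m l) (x : X) (i : Fin m) : f x = f (pt hL x i) :=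
  (hL.surj x i).choose_spec.1

theorem pt_lab (hL : Lab f E m l) (x : X) (i : Fin m) : l x (pt hL x i) = i :=
  (hL.surj x i).choose_spec.2

theorem lab_eq (hL : Lab f E m l) {x x' z z' : X} (h : f x = f x') (hz : f x = f z)
    (hz' : f x = f z') : l x z = l x z' ↔ l x' z = l x' z' := by
  rw [hL.iff x z z' hz hz', hL.iff x' z z' (h.symm.trans hz) (h.symm.trans hz')]

/-- The map `i ↦ l x' z` where `l x z = i`. -/
def tr (hL : Lab f E m l) (x x' : X) (i : Fin m) : Fin m := l x' (pt hL x i)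

theorem tr_eq (hL : Lab f E m l) {x x' z : X} (h : f x = f x') (hz : f x' = f z) :
    l x' z = tr hL x x' (l x z) := by
  unfold tr
  rw [← lab_eq hL h (h.trans hz) (pt_fib hL x _), pt_lab hL]

theorem tr_inj (hL : Lab f E m l) {x x' : X} (h : f x = f x') :
    Function.Injective (tr hL x x') := by
  intro i j hij
  unfold tr at hij
  rw [← lab_eq hL h (pt_fib hL x _) (pt_fib hL x _), pt_lab hL, pt_lab hL] at hij
  exact hij

open Classical in
/-- The cocycle. -/
def sig (hL : Lab f E m l) (x x' : X) : Equiv.Perm (Fin m) :=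
  if h : f x = f x' then
    Equiv.ofBijective (tr hL x x') (Finite.injective_iff_bijective.1 (tr_inj hL h)) else 1

theorem sig_eq (hL : Lab f E m l) {x x' z : X} (h : f x = f x') (hz : f x' = f z) :
    l x' z = sig hL x x' (l x z) := by
  unfold sig
  rw [dif_pos h]
  exact tr_eq hL h hz

theorem sig_closed [CompactSpace X] (hf : Continuous f) (hL : Lab f E m l)
    (τ : Equiv.Perm (Fin m)) : IsClosed {q : X × X | f q.1 = f q.2 ∧ sig hL q.1 q.2 = τ} := by
  have key : {q : X × X | f q.1 = f q.2 ∧ sig hL q.1 q.2 = τ} =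
      {q : X × X | f q.1 = f q.2} ∩ ⋂ i : Fin m, (fun w : (X × X) × X => w.1) ''
        ((fun w : (X × X) × X => (w.1.1, w.2)) ⁻¹' {q : X × X | f q.1 = f q.2 ∧ l q.1 q.2 = i} ∩
         (fun w : (X × X) × X => (w.1.2, w.2)) ⁻¹'
          {q : X × X | f q.1 = f q.2 ∧ l q.1 q.2 = τ i}) := by
    ext ⟨x, x'⟩
    constructor
    · rintro ⟨h, hs⟩
      refine ⟨h, mem_iInter.2 fun i => ?_⟩
      refine ⟨((x, x'), pt hL x i), ⟨⟨pt_fib hL x i, pt_lab hL x i⟩, ?_, ?_⟩, rfl⟩
      · exact (show f x' = f (pt hL x i) from (show f x = f x' from h).symm.trans (pt_fib hL x i))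
      · have h1 : f x = f x' := h
        have h2 := sig_eq hL h1 (h1.symm.trans (pt_fib hL x i))
        have hs' : sig hL x x' = τ := hs
        rw [pt_lab hL, hs'] at h2
        exact h2
    · rintro ⟨h, hs⟩
      have h1 : f x = f x' := h
      refine ⟨h, ?_⟩
      show sig hL x x' = τ
      ext i
      obtain ⟨⟨⟨a, b⟩, z⟩, ⟨⟨h2, h3⟩, h4, h5⟩, h6⟩ := mem_iInter.1 hs i
      have h7 : a = x ∧ b = x' := by
        have : (a, b) = (x, x') := h6
        exact ⟨congrArg Prod.fst this, congrArg Prod.snd this⟩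
      obtain ⟨rfl, rfl⟩ := h7
      have h8 := sig_eq hL h1 (show f b = f z from h4)
      have h3' : l a z = i := h3
      have h5' : l b z = τ i := h5
      rw [h3', h5'] at h8
      rw [h8]
  rw [key]
  refine (isClosed_eq (hf.comp continuous_fst) (hf.comp continuous_snd)).inter ?_
  refine isClosed_iInter fun i => ?_
  refine IsCompact.isClosed (IsCompact.image (IsClosed.isCompact ?_) continuous_fst)
  refine IsClosed.inter ?_ ?_
  · exact (hL.closed i).preimage (by fun_prop)
  · exact (hL.closed (τ i)).preimage (by fun_prop)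

/-- The global labels in terms of the local ones. -/
def P (hL : Lab f E m l) (lab : X → Fin m) (y : X) (i : Fin m) : Fin m := lab (pt hL y i)

theorem P_eq (hL : Lab f E m l) {lab : X → Fin m} {S : Set Y}
    (hlab : ∀ x x', f x ∈ S → f x = f x' → (lab x = lab x' ↔ E x x')) {y z : X} (hy : f y ∈ S)
    (hz : f y = f z) : lab z = P hL lab y (l y z) := by
  unfold P
  rw [hlab z _ (hz ▸ hy) (hz.symm.trans (pt_fib hL y _)), ← hL.iff y z _ hz (pt_fib hL y _),
    pt_lab hL]

theorem P_inj (hL : Lab f E m l) {lab : X → Fin m} {S : Set Y}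
    (hlab : ∀ x x', f x ∈ S → f x = f x' → (lab x = lab x' ↔ E x x')) {y : X} (hy : f y ∈ S) :
    Function.Injective (P hL lab y) := by
  intro i j hij
  unfold P at hij
  rw [hlab _ _ ((pt_fib hL y i) ▸ hy) ((pt_fib hL y i).symm.trans (pt_fib hL y j)),
    ← hL.iff y _ _ (pt_fib hL y _) (pt_fib hL y _), pt_lab hL, pt_lab hL] at hij
  exact hij

theorem P_cont [CompactSpace X] (hf : Continuous f) (hL : Lab f E m l) {lab : X → Fin m}
    {S : Set Y} (hS : IsClosed S) (hc : ContinuousOn lab (f ⁻¹' S))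
    (hlab : ∀ x x', f x ∈ S → f x = f x' → (lab x = lab x' ↔ E x x')) (i : Fin m) :
    ContinuousOn (fun y => P hL lab y i) (f ⁻¹' S) := by
  have hA : ∀ c : Fin m, IsClosed {y | ∃ z, f y = f z ∧ l y z = i ∧ f z ∈ S ∧ lab z = c} := by
    intro c
    have h1 : IsClosed (f ⁻¹' S ∩ lab ⁻¹' {c}) :=
      hc.preimage_isClosed_of_isClosed (hS.preimage hf) (isClosed_singleton)
    have h2 : {y | ∃ z, f y = f z ∧ l y z = i ∧ f z ∈ S ∧ lab z = c} =
        Prod.fst '' ({q : X × X | f q.1 = f q.2 ∧ l q.1 q.2 = i} ∩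
          Prod.snd ⁻¹' (f ⁻¹' S ∩ lab ⁻¹' {c})) := by
      ext y
      constructor
      · rintro ⟨z, a, b, c', d⟩
        exact ⟨(y, z), ⟨⟨a, b⟩, c', d⟩, rfl⟩
      · rintro ⟨⟨y', z⟩, ⟨⟨a, b⟩, c', d⟩, rfl⟩
        exact ⟨z, a, b, c', d⟩
    rw [h2]
    exact ((((hL.closed i).inter (h1.preimage continuous_snd)).isCompact).image
      continuous_fst).isClosed
  rw [continuousOn_iff_isClosed]
  intro t _
  refine ⟨⋃ c ∈ t, {y | ∃ z, f y = f z ∧ l y z = i ∧ f z ∈ S ∧ lab z = c},
    t.toFinite.isClosed_biUnion fun c _ => hA c, ?_⟩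
  ext y
  constructor
  · rintro ⟨h1, h2⟩
    refine ⟨mem_iUnion₂.2 ⟨P hL lab y i, h1, pt hL y i, pt_fib hL y i, pt_lab hL y i, ?_, rfl⟩,
      h2⟩
    rw [← pt_fib hL y i]
    exact h2
  · rintro ⟨h1, h2⟩
    refine ⟨?_, h2⟩
    obtain ⟨c, hct, z, a, b, c', d⟩ := mem_iUnion₂.1 h1
    show P hL lab y i ∈ t
    have h3 := P_eq hL hlab h2 a
    rw [b, d] at h3
    rw [← h3]
    exact hct

theorem P_sig (hL : Lab f E m l) {lab : X → Fin m} {S : Set Y}
    (hlab : ∀ x x', f x ∈ S → f x = f x' → (lab x = lab x' ↔ E x x')) {x x' : X} (hx : f x ∈ S)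
    (h : f x = f x') (i : Fin m) : P hL lab x i = P hL lab x' (sig hL x x' i) := by
  have h1 := P_eq hL hlab hx (pt_fib hL x i)
  have h2 := P_eq hL hlab (show f x' ∈ S from h ▸ hx) (h.symm.trans (pt_fib hL x i))
  have h3 := sig_eq hL h (h.symm.trans (pt_fib hL x i))
  rw [pt_lab hL] at h1 h3
  rw [← h1, h2, h3]

end CocP

theorem coc_proof : Stmt_Coc := by
  intro X Y _ _ _ _ f E m l hf hC hL
  refine ⟨CocP.sig hL, ⟨?_, CocP.sig_closed hf hL, ?_⟩, fun x x' z h hz => CocP.sig_eq hL h hz⟩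
  · intro x x' x'' h h'
    ext i
    have h1 := CocP.sig_eq hL (h.trans h') ((h.trans h').symm.trans (CocP.pt_fib hL x i))
    have h2 := CocP.sig_eq hL h (h.symm.trans (CocP.pt_fib hL x i))
    have h3 := CocP.sig_eq hL h' ((h.trans h').symm.trans (CocP.pt_fib hL x i))
    rw [CocP.pt_lab hL] at h1 h2
    rw [Equiv.Perm.mul_apply, ← h1, h3, h2]
  · intro S hS hSu x x' u u' hx h hu hux hux'
    obtain ⟨lab, hc, hlab⟩ := hC.triv S hS hSu
    have hScl : IsClosed S := hS.1.isClosed
    have hux0 : u ∈ f ⁻¹' S := connectedComponentIn_subset _ _ hux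
    have hx' : f x' ∈ S := h ▸ hx
    have hux0' : u' ∈ f ⁻¹' S := connectedComponentIn_subset _ _ hux'
    have e1 : ∀ i, CocP.P hL lab x i = CocP.P hL lab u i := fun i =>
      isPreconnected_connectedComponentIn.constant
        ((CocP.P_cont hf hL hScl hc hlab i).mono (connectedComponentIn_subset _ _))
        (mem_connectedComponentIn hx) hux
    have e2 : ∀ i, CocP.P hL lab x' i = CocP.P hL lab u' i := fun i =>
      isPreconnected_connectedComponentIn.constant
        ((CocP.P_cont hf hL hScl hc hlab i).mono (connectedComponentIn_subset _ _))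
        (mem_connectedComponentIn hx') hux'
    ext i
    congr 1
    apply CocP.P_inj hL hlab hx'
    rw [← CocP.P_sig hL hlab hx h, e1, CocP.P_sig hL hlab hux0 hu, e2]

end Pool.Agent.ACL

end
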