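import Pool.Agent.ACL.Stmts

/-!
# The counting argument
-/

set_option autoImplicit false
set_option linter.unusedSectionVars false

noncomputable section

namespace Pool.Agent.ACL.Count

open Set Filter Topology LibConfluent Pool.Agent.ACL

variable {X Y N : Type} [MetricSpace X] [MetricSpace Y] [MetricSpace N]

theorem mem_of_union {f : X → Y} {p : N → Y} {G H : Set (X × N)} (hB : Bad f p G H) {x : X}
    {n : N} (h : f x = p n) : (x, n) ∈ G ∨ (x, n) ∈ H := by
  have : (x, n) ∈ G ∪ H := by rw [hB.union]; exact h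
  exact this

theorem eq_of_G {f : X → Y} {p : N → Y} {G H : Set (X × N)} (hB : Bad f p G H) {x : X}
    {n : N} (h : (x, n) ∈ G) : f x = p n := by
  have : (x, n) ∈ G ∪ H := Or.inl h
  rw [hB.union] at this; exact this

theorem eq_of_H {f : X → Y} {p : N → Y} {G H : Set (X × N)} (hB : Bad f p G H) {x : X}
    {n : N} (h : (x, n) ∈ H) : f x = p n := by
  have : (x, n) ∈ G ∪ H := Or.inr h
  rw [hB.union] at this; exact this

theorem not_both {f : X → Y} {p : N → Y} {G H : Set (X × N)} (hB : Bad f p G H) {q : X × N}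
    (h : q ∈ G) (h' : q ∈ H) : False :=
  Set.disjoint_left.1 hB.disj h h'

/-- `M` over a proper continuum is proper. -/
theorem ne_univ_of_image {p : N → Y} (hp : Function.Surjective p) {M : Set N} {K : Set Y}
    (hM : p '' M = K) (hK : K ≠ univ) : M ≠ univ := by
  rintro rfl
  exact hK (by rw [← hM, image_univ, hp.range_eq])

/-- the colour does not depend on the point of `M` -/
theorem colG {f : X → Y} {p : N → Y} {G H : Set (X × N)} (hB : Bad f p G H) {M : Set N}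
    (hM : IsSubcontinuum M) (hMu : M ≠ univ) {x : X} {n n' : N} (hn : n ∈ M) (hn' : n' ∈ M)
    (h : f x = p n) (h' : f x = p n') (hG : (x, n) ∈ G) : (x, n') ∈ G := by
  refine (hB.mono M hM hMu x x n hn n' hn' h h' ?_).1 hG
  apply mem_connectedComponentIn
  rw [mem_preimage, h]
  exact mem_image_of_mem p hn

theorem colH {f : X → Y} {p : N → Y} {G H : Set (X × N)} (hB : Bad f p G H) {M : Set N}
    (hM : IsSubcontinuum M) (hMu : M ≠ univ) {x : X} {n n' : N} (hn : n ∈ M) (hn' : n' ∈ M)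
    (h : f x = p n) (h' : f x = p n') (hH : (x, n) ∈ H) : (x, n') ∈ H := by
  rcases mem_of_union hB h' with hG | hH'
  · exact (not_both hB (colG hB hM hMu hn' hn h' h hG) hH).elim
  · exact hH'

/-- restriction of separation to smaller continua -/
theorem sep_restrict {f : X → Y} {p : N → Y} {G H : Set (X × N)} (hB : Bad f p G H)
    (hp : WC p) {K K' : Set Y} (hK : K ≠ univ) (hK' : IsSubcontinuum K')
    (hKK : K' ⊆ K) {x x' : X} (hx : f x ∈ K') (hx' : f x' ∈ K') (h : Sep p G H K x x') :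
    Sep p G H K' x x' := by
  obtain ⟨M, hM, hMK, n, hn, n', hn', hc⟩ := h
  have hMu := ne_univ_of_image hB.psurj hMK hK
  obtain ⟨M', hM'M, hM', hM'K⟩ := hp M K' hM hK' (by rw [hMK]; exact hKK)
  obtain ⟨a, ha, hax⟩ : ∃ a ∈ M', p a = f x := by rw [← hM'K] at hx; exact hx
  obtain ⟨a', ha', hax'⟩ : ∃ a ∈ M', p a = f x' := by rw [← hM'K] at hx'; exact hx'
  refine ⟨M', hM', hM'K, a, ha, a', ha', ?_⟩
  rcases hc with ⟨h1, h2⟩ | ⟨h1, h2⟩
  · exact Or.inl ⟨colG hB hM hMu hn (hM'M ha) (eq_of_G hB h1) hax.symm h1,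
      colH hB hM hMu hn' (hM'M ha') (eq_of_H hB h2) hax'.symm h2⟩
  · exact Or.inr ⟨colH hB hM hMu hn (hM'M ha) (eq_of_H hB h1) hax.symm h1,
      colG hB hM hMu hn' (hM'M ha') (eq_of_G hB h2) hax'.symm h2⟩

theorem sr_restrict {f : X → Y} {p : N → Y} {G H : Set (X × N)} (hB : Bad f p G H)
    (hp : WC p) {K K' : Set Y} (hK : K ≠ univ) (hK' : IsSubcontinuum K')
    (hKK : K' ⊆ K) {k : Y} (hk : k ∈ K') {r : ℕ} (h : SR f p G H r K k) :
    SR f p G H r K' k := by
  obtain ⟨v, hv, hs⟩ := h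
  refine ⟨v, hv, fun i j hij => ?_⟩
  exact sep_restrict hB hp hK hK' hKK (by rw [hv]; exact hk) (by rw [hv]; exact hk) (hs i j hij)

theorem sr_mono {f : X → Y} {p : N → Y} {G H : Set (X × N)} {K : Set Y} {k : Y} {r s : ℕ}
    (hrs : r ≤ s) (h : SR f p G H s K k) : SR f p G H r K k := by
  obtain ⟨v, hv, hs⟩ := h
  exact ⟨fun i => v (Fin.castLE hrs i), fun i => hv _,
    fun i j hij => hs _ _ fun he => hij (Fin.castLE_injective hrs he)⟩

/-- two separated points -/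
theorem sr_two {f : X → Y} {p : N → Y} {G H : Set (X × N)} [CompactSpace N] [ConnectedSpace N]
    (hB : Bad f p G H) (hp : WC p) {K : Set Y} (hK : IsSubcontinuum K) {k : Y} (hk : k ∈ K) :
    SR f p G H 2 K k := by
  obtain ⟨M, -, hM, hMK⟩ := hp univ K ⟨isCompact_univ, isConnected_univ⟩ hK
    (by rw [image_univ, hB.psurj.range_eq]; exact subset_univ _)
  obtain ⟨n, hn, hnk⟩ : ∃ a ∈ M, p a = k := by rw [← hMK] at hk; exact hk
  obtain ⟨x, hx⟩ := hB.surjG n
  obtain ⟨x', hx'⟩ := hB.surjH n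
  refine ⟨![x, x'], ?_, ?_⟩
  · intro i
    fin_cases i
    · simpa [hnk] using eq_of_G hB hx
    · simpa [hnk] using eq_of_H hB hx'
  · intro i j hij
    refine ⟨M, hM, hMK, n, hn, n, hn, ?_⟩
    fin_cases i <;> fin_cases j
    · exact (hij rfl).elim
    · exact Or.inl ⟨hx, hx'⟩
    · exact Or.inr ⟨hx', hx⟩
    · exact (hij rfl).elim

/-- separated points over the same point are far apart -/
theorem exists_sep_const {f : X → Y} {p : N → Y} {G H : Set (X × N)} [CompactSpace X]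
    [CompactSpace N] (hB : Bad f p G H) : ∃ δ : ℝ, 0 < δ ∧ ∀ (K : Set Y), K ≠ univ →
      ∀ x x', f x = f x' → Sep p G H K x x' → δ ≤ dist x x' := by
  obtain ⟨δ, hδ, h⟩ : ∃ δ : ℝ, 0 < δ ∧ ∀ a ∈ G, ∀ b ∈ H, δ ≤ dist a b := by
    obtain ⟨δ, hδ, h⟩ := hB.disj.exists_thickenings hB.closedG.isCompact hB.closedH
    refine ⟨δ, hδ, fun a ha b hb => ?_⟩
    by_contra hlt
    push Not at hlt
    refine Set.disjoint_left.1 h (Metric.mem_thickening_iff.2 ⟨a, ha, ?_⟩)
      (Metric.self_subset_thickening hδ H hb)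
    rw [dist_comm]; exact hlt
  refine ⟨δ, hδ, ?_⟩
  intro K hK x x' hxx h1
  obtain ⟨M, hM, hMK, n, hn, n', hn', hc⟩ := h1
  have hMu := ne_univ_of_image hB.psurj hMK hK
  rcases hc with ⟨h1, h2⟩ | ⟨h1, h2⟩
  · have e1 := eq_of_G hB h1
    have e2 := eq_of_H hB h2
    have := colH hB hM hMu hn' hn e2 (hxx ▸ e1) h2
    have := h _ h1 _ this
    rwa [Prod.dist_eq, dist_self, max_eq_left dist_nonneg] at this
  · have e1 := eq_of_H hB h1
    have e2 := eq_of_G hB h2
    have := colG hB hM hMu hn' hn e2 (hxx ▸ e1) h2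
    have := h _ this _ h1
    rwa [Prod.dist_eq, dist_self, max_eq_left dist_nonneg, dist_comm] at this

/-- a compact space has no arbitrarily large separated families -/
theorem exists_bound [CompactSpace X] {δ : ℝ} (hδ : 0 < δ) : ∃ R : ℕ, ∀ r (v : Fin r → X),
    (∀ i j, i ≠ j → δ ≤ dist (v i) (v j)) → r ≤ R := by
  obtain ⟨t, -, ht, hcov⟩ := (isCompact_univ (X := X)).finite_cover_balls (e := δ / 2)
    (by positivity)
  refine ⟨ht.toFinset.card, fun r v hv => ?_⟩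
  have hc : ∀ i, ∃ y ∈ t, dist (v i) y < δ / 2 := fun i => by
    have := hcov (mem_univ (v i))
    simpa using this
  choose y hy hd using hc
  have hinj : Function.Injective y := by
    intro i j hij
    by_contra hne
    have h1 := hv i j hne
    have h2 := hd i
    have h3 := hd j
    rw [hij] at h2
    have := dist_triangle_right (v i) (v j) (y j)
    linarith
  have := Finset.card_le_card_of_injOn (s := Finset.univ) (t := ht.toFinset) y
    (fun i _ => by simpa using hy i) hinj.injOn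
  simpa using this

/-- common subsequences of finitely many sequences of continua -/
theorem exists_common (hLim : Stmt_Lim) [CompactSpace N] {ι : Type} [DecidableEq ι]
    (M : ι → ℕ → Set N) (hM : ∀ a j, IsSubcontinuum (M a j)) (s : Finset ι) :
    ∃ φ : ℕ → ℕ, StrictMono φ ∧ ∀ a ∈ s, ∃ L, IsSubcontinuum L ∧ ∀ ε : ℝ, 0 < ε →
      ∀ᶠ j in atTop, Near ε (M a (φ j)) L := by
  induction s using Finset.induction_on with
  | empty => exact ⟨id, strictMono_id, by simp⟩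
  | insert b s hb ih =>
    obtain ⟨φ, hφ, h⟩ := ih
    obtain ⟨L, ψ, hL, hψ, hN⟩ := hLim N (fun j => M b (φ j)) (fun j => hM b _)
    refine ⟨φ ∘ ψ, hφ.comp hψ, fun a ha => ?_⟩
    rcases Finset.mem_insert.1 ha with rfl | ha
    · exact ⟨L, hL, hN⟩
    · obtain ⟨L', hL', h'⟩ := h a ha
      exact ⟨L', hL', fun ε hε => hψ.tendsto_atTop.eventually (h' ε hε)⟩

/-- limits of images -/
theorem image_limit [CompactSpace N] [CompactSpace Y] {p : N → Y} (hp : Continuous p)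
    {M : ℕ → Set N} {L : Set N} {K : ℕ → Set Y} {K₀ : Set Y} (hL : IsCompact L)
    (hK₀ : IsCompact K₀) (h1 : ∀ ε : ℝ, 0 < ε → ∀ᶠ j in atTop, Near ε (M j) L)
    (h2 : ∀ ε : ℝ, 0 < ε → ∀ᶠ j in atTop, Near ε (K j) K₀) (h : ∀ j, p '' M j = K j) :
    p '' L = K₀ := by
  have huc := CompactSpace.uniformContinuous_of_continuous hp
  rw [Metric.uniformContinuous_iff] at huc
  apply Subset.antisymm
  · rintro _ ⟨l, hl, rfl⟩
    rw [← hK₀.isClosed.closure_eq, Metric.mem_closure_iff]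
    intro ε hε
    obtain ⟨δ, hδ, hu⟩ := huc (ε / 2) (by positivity)
    obtain ⟨j, hj1, hj2⟩ := ((h1 δ hδ).and (h2 (ε / 2) (by positivity))).exists
    obtain ⟨m, hm, hml⟩ := hj1.2 l hl
    obtain ⟨k, hk, hkd⟩ := hj2.1 (p m) (by rw [← h j]; exact mem_image_of_mem p hm)
    refine ⟨k, hk, ?_⟩
    have h3 := hu hml
    have h4 := dist_triangle (p l) (p m) k
    rw [dist_comm (p l) (p m)] at h4
    linarith
  · intro y hy
    rw [← (hL.image hp).isClosed.closure_eq, Metric.mem_closure_iff]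
    intro ε hε
    obtain ⟨δ, hδ, hu⟩ := huc (ε / 2) (by positivity)
    obtain ⟨j, hj1, hj2⟩ := ((h1 δ hδ).and (h2 (ε / 2) (by positivity))).exists
    obtain ⟨k, hk, hky⟩ := hj2.2 y hy
    rw [← h j] at hk
    obtain ⟨m, hm, rfl⟩ := hk
    obtain ⟨l, hl, hml⟩ := hj1.1 m hm
    refine ⟨p l, mem_image_of_mem p hl, ?_⟩
    have h3 := hu hml
    have h4 := dist_triangle y (p m) (p l)
    rw [dist_comm y (p m)] at h4
    linarith

theorem mem_limit {M : ℕ → Set N} {L : Set N} (hL : IsClosed L)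
    (h1 : ∀ ε : ℝ, 0 < ε → ∀ᶠ j in atTop, Near ε (M j) L) {n : ℕ → N} {l : N}
    (hn : ∀ j, n j ∈ M j) (hl : Tendsto n atTop (𝓝 l)) : l ∈ L := by
  rw [← hL.closure_eq, Metric.mem_closure_iff]
  intro ε hε
  obtain ⟨j, hj1, hj2⟩ := ((h1 (ε / 2) (by positivity)).and
    (Metric.tendsto_nhds.1 hl (ε / 2) (by positivity))).exists
  obtain ⟨m, hm, hmd⟩ := hj1.1 (n j) (hn j)
  refine ⟨m, hm, ?_⟩
  have h4 := dist_triangle l (n j) m
  rw [dist_comm l (n j)] at h4
  linarith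

/-- limits of separated families -/
theorem sr_limit (hLim : Stmt_Lim) [CompactSpace X] [CompactSpace Y] [CompactSpace N]
    {f : X → Y} {p : N → Y} {G H : Set (X × N)} (hB : Bad f p G H) (r : ℕ) {K : ℕ → Set Y}
    {K₀ : Set Y} {k : ℕ → Y} {k₀ : Y} (hK₀ : IsCompact K₀)
    (h2 : ∀ ε : ℝ, 0 < ε → ∀ᶠ j in atTop, Near ε (K j) K₀)
    (hk : Tendsto k atTop (𝓝 k₀)) (h : ∀ j, SR f p G H r (K j) (k j)) :
    SR f p G H r K₀ k₀ := by
  classical
  choose v hv hs using h
  have hs' : ∀ (a : {a : Fin r × Fin r // a.1 ≠ a.2}) (j : ℕ),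
      Sep p G H (K j) (v j a.1.1) (v j a.1.2) := fun a j => hs j _ _ a.2
  choose M hM hMK n hn n' hn' hc using hs'
  obtain ⟨φ, hφ, hφL⟩ := exists_common hLim M hM Finset.univ
  have hφL' : ∀ a, ∃ L, IsSubcontinuum L ∧ ∀ ε : ℝ, 0 < ε →
      ∀ᶠ j in atTop, Near ε (M a (φ j)) L := fun a => hφL a (Finset.mem_univ a)
  choose L hL hLM using hφL'
  -- a common subsequence of points
  obtain ⟨⟨w, m, m'⟩, ψ, hψ, hlim⟩ := CompactSpace.tendsto_subseq
    (fun j => ((v (φ j), fun a => n a (φ j), fun a => n' a (φ j)) :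
      (Fin r → X) × ({a : Fin r × Fin r // a.1 ≠ a.2} → N) ×
        ({a : Fin r × Fin r // a.1 ≠ a.2} → N)))
  have hw : ∀ i, Tendsto (fun j => v (φ (ψ j)) i) atTop (𝓝 (w i)) := fun i =>
    (continuous_apply i).continuousAt.tendsto.comp
      (continuous_fst.continuousAt.tendsto.comp hlim)
  have hm : ∀ a, Tendsto (fun j => n a (φ (ψ j))) atTop (𝓝 (m a)) := fun a =>
    (continuous_apply a).continuousAt.tendsto.comp
      ((continuous_fst.comp continuous_snd).continuousAt.tendsto.comp hlim)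
  have hm' : ∀ a, Tendsto (fun j => n' a (φ (ψ j))) atTop (𝓝 (m' a)) := fun a =>
    (continuous_apply a).continuousAt.tendsto.comp
      ((continuous_snd.comp continuous_snd).continuousAt.tendsto.comp hlim)
  have ht : Tendsto (fun j => φ (ψ j)) atTop atTop := hφ.tendsto_atTop.comp hψ.tendsto_atTop
  refine ⟨w, fun i => ?_, fun i j hij => ?_⟩
  · have h3 : Tendsto (fun j => f (v (φ (ψ j)) i)) atTop (𝓝 (f (w i))) :=
      hB.conf.continuous.continuousAt.tendsto.comp (hw i)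
    have h4 : Tendsto (fun j => f (v (φ (ψ j)) i)) atTop (𝓝 k₀) := by
      simp only [hv]
      exact hk.comp ht
    exact tendsto_nhds_unique h3 h4
  · let a : {a : Fin r × Fin r // a.1 ≠ a.2} := ⟨(i, j), hij⟩
    have hLM' : ∀ ε : ℝ, 0 < ε → ∀ᶠ j in atTop, Near ε (M a (φ (ψ j))) (L a) := fun ε hε =>
      hψ.tendsto_atTop.eventually (hLM a ε hε)
    have hK' : ∀ ε : ℝ, 0 < ε → ∀ᶠ j in atTop, Near ε (K (φ (ψ j))) K₀ := fun ε hε =>
      ht.eventually (h2 ε hε)
    refine ⟨L a, hL a, image_limit hB.pcont (hL a).1 hK₀ hLM' hK' (fun j => hMK a _), m a,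
      mem_limit (hL a).1.isClosed hLM' (fun j => hn a _) (hm a), m' a,
      mem_limit (hL a).1.isClosed hLM' (fun j => hn' a _) (hm' a), ?_⟩
    have hcl : IsClosed {q : (X × N) × (X × N) | (q.1 ∈ G ∧ q.2 ∈ H) ∨ (q.1 ∈ H ∧ q.2 ∈ G)} :=
      ((hB.closedG.preimage continuous_fst).inter (hB.closedH.preimage continuous_snd)).union
        ((hB.closedH.preimage continuous_fst).inter (hB.closedG.preimage continuous_snd))
    have h5 : Tendsto (fun l => ((v (φ (ψ l)) i, n a (φ (ψ l))), (v (φ (ψ l)) j,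
        n' a (φ (ψ l))))) atTop (𝓝 ((w i, m a), (w j, m' a))) :=
      ((hw i).prodMk_nhds (hm a)).prodMk_nhds ((hw j).prodMk_nhds (hm' a))
    exact hcl.mem_of_tendsto h5 (Eventually.of_forall fun l => hc a (φ (ψ l)))

end Pool.Agent.ACL.Count

namespace Pool.Agent.ACL

open Set Filter Topology LibConfluent Pool.Agent.ACL.Count

theorem count_proof (hSepB : Stmt_SepB) (hCPY : Stmt_CPY) (hLim : Stmt_Lim) : Stmt_Count := by
  intro X Y N _ _ _ _ _ _ _ _ _ _ f p G H hX hWf hWp hB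
  classical
  -- bound
  obtain ⟨δ, hδ, hsep⟩ := exists_sep_const hB
  obtain ⟨R, hR⟩ := exists_bound (X := X) hδ
  have hbound : ∀ K : Set Y, K ≠ univ → ∀ k r, SR f p G H r K k → r ≤ R := by
    intro K hK k r h
    obtain ⟨v, hv, hs⟩ := h
    exact hR r v fun i j hij => hsep K hK _ _ (by rw [hv, hv]) (hs i j hij)
  -- the largest number
  let P : ℕ → Prop := fun r => ∀ K : Set Y, IsSubcontinuum K → K ≠ univ → ∀ k ∈ K,
    SR f p G H r K k
  have hP2 : P 2 := fun K hK _ k hk => sr_two hB hWp hK hk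
  have hsing : ∀ y : Y, IsSubcontinuum ({y} : Set Y) ∧ ({y} : Set Y) ≠ univ := by
    intro y
    refine ⟨⟨isCompact_singleton, isConnected_singleton⟩, ?_⟩
    obtain ⟨z, hz⟩ := exists_ne y
    intro h
    exact hz (by have := mem_univ z; rw [← h] at this; exact this)
  obtain ⟨y₀⟩ : Nonempty Y := inferInstance
  have hPb : ∀ r, P r → r ≤ R := fun r hr =>
    hbound {y₀} (hsing y₀).2 y₀ r (hr _ (hsing y₀).1 (hsing y₀).2 y₀ rfl)
  have hm2 : P (Nat.findGreatest P R) := Nat.findGreatest_spec (hPb 2 hP2) hP2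
  have hm3 : ¬ P (Nat.findGreatest P R + 1) := by
    intro h
    have := Nat.le_findGreatest (hPb _ h) h
    omega
  have hm4 : 2 ≤ Nat.findGreatest P R := Nat.le_findGreatest (hPb 2 hP2) hP2
  generalize Nat.findGreatest P R = m at hm2 hm3 hm4
  have hm3' : ∃ K₀ : Set Y, IsSubcontinuum K₀ ∧ K₀ ≠ univ ∧ ∃ k₀ ∈ K₀,
      ¬ SR f p G H (m + 1) K₀ k₀ := by
    by_contra hcon
    push Not at hcon
    exact hm3 hcon
  obtain ⟨K₀, hK₀, hK₀u, k₀, hk₀, hno⟩ := hm3'
  suffices hη : ∃ η : ℝ, 0 < η ∧ ∀ K : Set Y, IsSubcontinuum K → K ≠ univ → Dns η K →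
      ∀ k ∈ K, ¬ SR f p G H (m + 1) K k by
    obtain ⟨η, hη0, hη⟩ := hη
    exact ⟨m, η, hm4, hη0, hm2, hη⟩
  by_contra hcon
  push Not at hcon
  -- the sequence
  have hseq : ∀ i : ℕ, ∃ K' : Set Y, ∃ k' : Y, IsSubcontinuum K' ∧
      Near (1 / ((i : ℝ) + 1)) K' K₀ ∧ dist k' k₀ < 1 / ((i : ℝ) + 1) ∧
      SR f p G H (m + 1) K' k' := by
    intro i
    have hi : (0 : ℝ) < 1 / ((i : ℝ) + 1) := by positivity
    obtain ⟨δ', hδ', hc⟩ := hCPY X Y f hX hB.conf hWf K₀ _ hK₀ hi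
    obtain ⟨K, hK, hKu, hKd, k, hk, hs⟩ := hcon δ' hδ'
    obtain ⟨K', hK'K, hK', hN⟩ := hc K hK hKd
    obtain ⟨k', hk', hkd⟩ := hN.2 k₀ hk₀
    refine ⟨K', k', hK', hN, hkd, ?_⟩
    have h6 := (hSepB X Y N f p G H hB K hK hKu).2.2.2.2.2 (m + 1) k k' hk (hK'K hk') hs
    exact sr_restrict hB hWp hKu hK' hK'K hk' h6
  choose K' k' hK' hN hd hs using hseq
  apply hno
  refine sr_limit hLim hB (m + 1) hK₀.1 ?_ ?_ hs
  · intro ε hε
    filter_upwards [(tendsto_one_div_add_atTop_nhds_zero_nat (𝕜 := ℝ)).eventually_lt_const hε]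
      with j hj
    refine ⟨fun a ha => ?_, fun b hb => ?_⟩
    · obtain ⟨b, hb, hab⟩ := (hN j).1 a ha
      exact ⟨b, hb, hab.trans hj⟩
    · obtain ⟨a, ha, hab⟩ := (hN j).2 b hb
      exact ⟨a, ha, hab.trans hj⟩
  · rw [tendsto_iff_dist_tendsto_zero]
    exact squeeze_zero (fun _ => dist_nonneg) (fun j => (hd j).le)
      (tendsto_one_div_add_atTop_nhds_zero_nat (𝕜 := ℝ))

end Pool.Agent.ACL

end
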