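import Pool.Agent.ACL.Stmts

/-!
# Coverings dominated by an arc-like continuum have one sheet
-/

set_option autoImplicit false

noncomputable section

namespace Pool.Agent.ACL

open Set Filter Topology LibConfluent

theorem cov_proof (hLab : Stmt_Lab) (hCoc : Stmt_Coc) (hTriv : Stmt_Triv) : Stmt_Cov := by
  intro X Y _ _ _ _ _ _ f E m hX hLX hLY hf hE
  obtain ⟨l, hl⟩ := hLab X Y f E m hX hf.continuous hE
  obtain ⟨σ, hσ, hσl⟩ := hCoc X Y f E m l hf.continuous hE hl
  have h1 := hTriv X Y (Equiv.Perm (Fin m)) f σ hLX hLY hf hσ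
  have hlz : ∀ x x' z, f x = f x' → f x' = f z → l x' z = l x z := by
    intro x x' z h h'
    rw [hσl x x' z h h', h1 x x' h]
    rfl
  -- the diagonal label is constant
  have hcl : ∀ i, IsClosed {x : X | l x x = i} := by
    intro i
    have h2 : IsClosed ((fun x : X => (x, x)) ⁻¹' {q : X × X | f q.1 = f q.2 ∧ l q.1 q.2 = i}) :=
      (hl.closed i).preimage (by fun_prop)
    convert h2 using 1
    ext x
    simp
  have hclopen : ∀ i, IsClopen {x : X | l x x = i} := by
    intro i
    refine ⟨hcl i, ?_⟩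
    rw [← isClosed_compl_iff]
    have h3 : {x : X | l x x = i}ᶜ = ⋃ j ∈ ({j | j ≠ i} : Set (Fin m)), {x : X | l x x = j} := by
      ext x
      simp
    rw [h3]
    exact (Set.toFinite _).isClosed_biUnion fun j _ => hcl j
  have hdiag : ∀ x x' : X, l x x = l x' x' := by
    intro x x'
    have h4 := (hclopen (l x' x')).eq_univ ⟨x', rfl⟩
    have h5 : x ∈ {z : X | l z z = l x' x'} := by rw [h4]; trivial
    exact h5
  have hall : ∀ x x', f x = f x' → E x x' := by
    intro x x' h
    have h6 : l x x = l x x' := by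
      rw [hdiag x x', hlz x x' x' h rfl]
    exact (hl.iff x x x' rfl h).1 h6
  by_contra hm
  obtain ⟨x₀⟩ : Nonempty X := inferInstance
  obtain ⟨v, hv, hne, -⟩ := hE.classes (f x₀)
  have h7 : (⟨0, by omega⟩ : Fin m) ≠ ⟨1, by omega⟩ := by
    intro h
    simpa using congrArg Fin.val h
  exact hne _ _ h7 (hall _ _ (by rw [hv, hv]))

end Pool.Agent.ACL

end
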