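import Pool.Agent.ACL.Stmts

/-!
# Module DEC: the decomposable case
-/

set_option autoImplicit false

noncomputable section

namespace Pool.Agent.ACL

open Set Filter Topology LibConfluent

namespace Dec

/-- The intersection of large continua over `P` and `Q` is dense. -/
lemma exists_dense {Y : Type} [MetricSpace Y] [CompactSpace Y] (P Q : Set Y) (hP : IsClosed P)
    (hQ : IsClosed Q) (hPQ : P ∪ Q = univ) (A B : ℕ → Set Y) (hA : ∀ j, P ⊆ A j)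
    (hB : ∀ j, Q ⊆ B j) (dA : ∀ j : ℕ, Dns (1 / ((j : ℝ) + 1)) (A j))
    (dB : ∀ j : ℕ, Dns (1 / ((j : ℝ) + 1)) (B j)) (η : ℝ) (hη : 0 < η) :
    ∃ j, Dns η (A j ∩ B j) := by
  by_contra hcon
  push Not at hcon
  have h1 : ∀ j, ∃ z, ∀ a ∈ A j ∩ B j, η ≤ dist z a := by
    intro j
    have := hcon j
    unfold Dns at this
    push Not at this
    exact this
  choose z hz using h1
  obtain ⟨z0, -, φ, hφ, hlim⟩ := isCompact_univ.tendsto_subseq (x := z) fun _ => mem_univ _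
  -- a general step
  have key : ∀ (S : Set Y) (C : ℕ → Set Y), IsClosed S → z0 ∉ S →
      (∀ j : ℕ, Dns (1 / ((j : ℝ) + 1)) (C j)) →
      ∃ j, ∃ q ∈ C (φ j), q ∉ S ∧ dist (z (φ j)) q < η := by
    intro S C hS hz0 hC
    obtain ⟨ρ, hρ, hball⟩ := Metric.isOpen_iff.mp hS.isOpen_compl z0 hz0
    have h2 : ∀ᶠ j in atTop, dist (z (φ j)) z0 < η / 2 :=
      (Metric.tendsto_nhds.mp hlim) (η / 2) (by positivity)
    have h3 : Tendsto (fun j : ℕ => 1 / (((φ j : ℕ) : ℝ) + 1)) atTop (𝓝 0) :=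
      tendsto_one_div_add_atTop_nhds_zero_nat.comp hφ.tendsto_atTop
    have h4 : ∀ᶠ j in atTop, 1 / (((φ j : ℕ) : ℝ) + 1) < min ρ (η / 2) :=
      h3.eventually_lt_const (by positivity)
    obtain ⟨j, hj1, hj2⟩ := (h2.and h4).exists
    obtain ⟨q, hq, hd⟩ := hC (φ j) z0
    have h5 : dist z0 q < ρ := lt_of_lt_of_le (lt_trans hd hj2) (min_le_left _ _)
    have h6 : dist z0 q < η / 2 := lt_of_lt_of_le (lt_trans hd hj2) (min_le_right _ _)
    refine ⟨j, q, hq, ?_, ?_⟩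
    · apply hball
      rw [Metric.mem_ball, dist_comm]; exact h5
    · have := dist_triangle (z (φ j)) z0 q
      linarith
  by_cases h2 : z0 ∈ P
  · by_cases h3 : z0 ∈ Q
    · have h4 : ∀ᶠ j in atTop, dist (z (φ j)) z0 < η :=
        (Metric.tendsto_nhds.mp hlim) η hη
      obtain ⟨j, hj⟩ := h4.exists
      have := hz (φ j) z0 ⟨hA _ h2, hB _ h3⟩
      linarith
    · obtain ⟨j, q, hq, hqS, hd⟩ := key Q B hQ h3 dB
      have hqP : q ∈ P := by
        have : q ∈ P ∪ Q := by rw [hPQ]; trivial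
        exact this.resolve_right hqS
      have := hz (φ j) q ⟨hA _ hqP, hq⟩
      linarith
  · obtain ⟨j, q, hq, hqS, hd⟩ := key P A hP h2 dA
    have hqQ : q ∈ Q := by
      have : q ∈ P ∪ Q := by rw [hPQ]; trivial
      exact this.resolve_left hqS
    have := hz (φ j) q ⟨hq, hB _ hqQ⟩
    linarith

end Dec

theorem dec_proof (hSepB : Stmt_SepB) (hSepEq : Stmt_SepEq) (hDense : Stmt_Dense) : Stmt_Dec := by
  intro X Y N _ _ _ _ _ _ _ _ _ f p G H m η hHU hWC hBad hCnt hDecY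
  obtain ⟨P, Q, hP, hQ, hPne, hQne, hPQ⟩ := hDecY
  obtain ⟨hm, hη, hSR, hnSR⟩ := id hCnt
  have hexA : ∀ j : ℕ, ∃ K' : Set Y, IsSubcontinuum K' ∧ P ⊆ K' ∧ K' ≠ univ ∧
      Dns (1 / ((j : ℝ) + 1)) K' := fun j => hDense Y P _ hP hPne (by positivity)
  have hexB : ∀ j : ℕ, ∃ K' : Set Y, IsSubcontinuum K' ∧ Q ⊆ K' ∧ K' ≠ univ ∧
      Dns (1 / ((j : ℝ) + 1)) K' := fun j => hDense Y Q _ hQ hQne (by positivity)
  choose A hA1 hA2 hA3 hA4 using hexA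
  choose B hB1 hB2 hB3 hB4 using hexB
  obtain ⟨j, hj⟩ := Dec.exists_dense P Q hP.1.isClosed hQ.1.isClosed hPQ A B hA2 hB2 hA4 hB4 η hη
  have hPQne : (P ∩ Q).Nonempty := by
    have h1 : IsPreconnected (univ : Set Y) := isPreconnected_univ
    rw [isPreconnected_closed_iff] at h1
    have := h1 P Q hP.1.isClosed hQ.1.isClosed (by rw [hPQ])
      (by rw [univ_inter]; exact hP.2.nonempty) (by rw [univ_inter]; exact hQ.2.nonempty)
    rwa [univ_inter] at this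
  set P' := A j with hP'
  set Q' := B j with hQ'
  set I := P' ∩ Q' with hI
  have hIsub : IsSubcontinuum I := by
    refine ⟨(hA1 j).1.inter (hB1 j).1, ?_, hHU _ _ (hA1 j) (hB1 j)⟩
    obtain ⟨y, hy⟩ := hPQne
    exact ⟨y, hA2 j hy.1, hB2 j hy.2⟩
  have hIP : I ⊆ P' := inter_subset_left
  have hIQ : I ⊆ Q' := inter_subset_right
  have hIne : I ≠ univ := by
    intro h
    apply hA3 j
    exact univ_subset_iff.mp (h ▸ hIP)
  obtain ⟨k, hk⟩ := hIsub.2.nonempty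
  obtain ⟨v, hvk, hvsep⟩ := hSR I hIsub hIne k hk
  have hvI : ∀ i, f (v i) ∈ I := fun i => by rw [hvk i]; exact hk
  have hEqP := hSepEq X Y N f p G H m η hWC hBad hCnt I P' hIsub (hA1 j) (hA3 j) hIP hj
  have hEqQ := hSepEq X Y N f p G H m η hWC hBad hCnt I Q' hIsub (hB1 j) (hB3 j) hIQ hj
  have hdP : Dns η P' := fun x => by
    obtain ⟨a, ha, h⟩ := hj x
    exact ⟨a, hIP ha, h⟩
  have hdQ : Dns η Q' := fun x => by
    obtain ⟨a, ha, h⟩ := hj x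
    exact ⟨a, hIQ ha, h⟩
  have hEqPP := hSepEq X Y N f p G H m η hWC hBad hCnt P' P' (hA1 j) (hA1 j) (hA3 j)
    Subset.rfl hdP
  have hEqQQ := hSepEq X Y N f p G H m η hWC hBad hCnt Q' Q' (hB1 j) (hB1 j) (hB3 j)
    Subset.rfl hdQ
  obtain ⟨rP, sP, tP, -, cP, -⟩ := hSepB X Y N f p G H hBad P' (hA1 j) (hA3 j)
  obtain ⟨rQ, sQ, tQ, -, cQ, -⟩ := hSepB X Y N f p G H hBad Q' (hB1 j) (hB3 j)
  obtain ⟨rI, sI, tI, -, -, -⟩ := hSepB X Y N f p G H hBad I hIsub hIne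
  let C : Fin m → Set X := fun i =>
    {x | f x ∈ P' ∧ ¬ Sep p G H P' x (v i)} ∪ {x | f x ∈ Q' ∧ ¬ Sep p G H Q' x (v i)}
  have hCclosed : ∀ i, IsClosed (C i) := fun i =>
    (cP (v i) (hIP (hvI i))).union (cQ (v i) (hIQ (hvI i)))
  have hCcover : ∀ x, ∃ i, x ∈ C i := by
    intro x
    have hx : f x ∈ P ∪ Q := by rw [hPQ]; trivial
    rcases hx with hx | hx
    · obtain ⟨i, hi⟩ := hEqPP.2 v (fun i => hIP (hvI i))
        (fun i i' hii => (hEqP.1 _ _ (hvI i) (hvI i')).mp (hvsep i i' hii)) x (hA2 j hx)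
      exact ⟨i, Or.inl ⟨hA2 j hx, hi⟩⟩
    · obtain ⟨i, hi⟩ := hEqQQ.2 v (fun i => hIQ (hvI i))
        (fun i i' hii => (hEqQ.1 _ _ (hvI i) (hvI i')).mp (hvsep i i' hii)) x (hB2 j hx)
      exact ⟨i, Or.inr ⟨hB2 j hx, hi⟩⟩
  have hCdisj : ∀ i i', i ≠ i' → ∀ x, x ∈ C i → x ∈ C i' → False := by
    intro i i' hii x hx hx'
    have hs := hvsep i i' hii
    have mixed : ∀ a b, a ≠ b → f x ∈ P' → ¬ Sep p G H P' x (v a) → f x ∈ Q' →
        ¬ Sep p G H Q' x (v b) → False := by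
      intro a b hab h1 h2 h3 h4
      have hxI : f x ∈ I := ⟨h1, h3⟩
      have h5 : ¬ Sep p G H I x (v a) := fun h => h2 ((hEqP.1 _ _ hxI (hvI a)).mp h)
      have h6 : ¬ Sep p G H I x (v b) := fun h => h4 ((hEqQ.1 _ _ hxI (hvI b)).mp h)
      exact tI (v a) x (v b) (hvI a) hxI (hvI b) (fun h => h5 (sI _ _ h)) h6 (hvsep a b hab)
    rcases hx with ⟨h1, h2⟩ | ⟨h1, h2⟩ <;> rcases hx' with ⟨h3, h4⟩ | ⟨h3, h4⟩
    · exact tP (v i) x (v i') (hIP (hvI i)) h1 (hIP (hvI i')) (fun h => h2 (sP _ _ h)) h4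
        ((hEqP.1 _ _ (hvI i) (hvI i')).mp hs)
    · exact mixed i i' hii h1 h2 h3 h4
    · exact mixed i' i hii.symm h3 h4 h1 h2
    · exact tQ (v i) x (v i') (hIQ (hvI i)) h1 (hIQ (hvI i')) (fun h => h2 (sQ _ _ h)) h4
        ((hEqQ.1 _ _ (hvI i) (hvI i')).mp hs)
  have hCmem : ∀ i, v i ∈ C i := fun i => Or.inl ⟨hIP (hvI i), rP _ (hIP (hvI i))⟩
  let i0 : Fin m := ⟨0, by omega⟩
  let i1 : Fin m := ⟨1, by omega⟩
  have h01 : i1 ≠ i0 := by
    intro h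
    have := congrArg Fin.val h
    simp [i0, i1] at this
  have hX : IsPreconnected (univ : Set X) := isPreconnected_univ
  rw [isPreconnected_closed_iff] at hX
  have hD : IsClosed (⋃ i : {i : Fin m // i ≠ i0}, C i.1) :=
    isClosed_iUnion_of_finite fun i => hCclosed i.1
  obtain ⟨x, -, hx0, hx1⟩ := hX (C i0) (⋃ i : {i : Fin m // i ≠ i0}, C i.1) (hCclosed i0) hD
    (fun x _ => by
      obtain ⟨i, hi⟩ := hCcover x
      by_cases h : i = i0
      · left; rw [← h]; exact hi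
      · right; exact mem_iUnion.mpr ⟨⟨i, h⟩, hi⟩)
    ⟨v i0, mem_univ _, hCmem i0⟩
    ⟨v i1, mem_univ _, mem_iUnion.mpr ⟨⟨i1, h01⟩, hCmem i1⟩⟩
  obtain ⟨⟨i, hi⟩, hxi⟩ := mem_iUnion.mp hx1
  exact hCdisj i i0 hi x hxi hx0

end Pool.Agent.ACL

end
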