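import Pool.Agent.LibConfluent.Defs

/-!
# Confluent mappings of arc-like continua: definitions

`MP_53fb6e_gt`, arc-like class. Paper proof: `/team-store/MP_53fb6e_ARCLIKE.md`.
-/

set_option autoImplicit false

noncomputable section

namespace Pool.Agent.ACL

open Set Filter Topology LibConfluent

/-- A metric space is arc-like if for every `ε > 0` there is a continuous map onto `[0, 1]` all
of whose fibres have diameter less than `ε`. -/
def ArcLike (X : Type) [MetricSpace X] : Prop :=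
  ∀ ε : ℝ, 0 < ε → ∃ g : X → ℝ, Continuous g ∧ range g = Icc 0 1 ∧
    ∀ t, Metric.diam (g ⁻¹' {t}) < ε

/-- The hereditary form of arc-likeness used in the proofs: real functions with small
preimages of small sets. -/
def Chn (X : Type) [MetricSpace X] : Prop :=
  ∀ ε : ℝ, 0 < ε → ∃ g : X → ℝ, Continuous g ∧ ∃ δ : ℝ, 0 < δ ∧
    ∀ x y, |g x - g y| < δ → dist x y < ε

/-- Two sets are `ε`-close in the sense of Hausdorff. -/
def Near {X : Type} [MetricSpace X] (ε : ℝ) (A B : Set X) : Prop :=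
  (∀ a ∈ A, ∃ b ∈ B, dist a b < ε) ∧ ∀ b ∈ B, ∃ a ∈ A, dist a b < ε

/-- The set `A` is `ε`-dense. -/
def Dns {X : Type} [MetricSpace X] (ε : ℝ) (A : Set X) : Prop :=
  ∀ x, ∃ a ∈ A, dist x a < ε

/-- The circle `ℝ / ℤ`. -/
abbrev T : Type := AddCircle (1 : ℝ)

/-- The circle-valued function `g` lifts to a continuous real function on `K`. -/
def LiftsOn {Y : Type} [TopologicalSpace Y] (g : Y → T) (K : Set Y) : Prop :=
  ∃ h : Y → ℝ, ContinuousOn h K ∧ ∀ y ∈ K, ((h y : ℝ) : T) = g y

/-- Circle-valued functions on subcontinua lift. -/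
def LiftC (Y : Type) [TopologicalSpace Y] : Prop :=
  ∀ (K : Set Y) (g : Y → T), IsSubcontinuum K → ContinuousOn g K → LiftsOn g K

/-- Hereditary unicoherence. -/
def HU (Y : Type) [TopologicalSpace Y] : Prop :=
  ∀ A B : Set Y, IsSubcontinuum A → IsSubcontinuum B → IsPreconnected (A ∩ B)

/-- There are no weak triods. -/
def NoTriod (Y : Type) [TopologicalSpace Y] : Prop :=
  ∀ A B C : Set Y, IsSubcontinuum A → IsSubcontinuum B → IsSubcontinuum C →
    (A ∩ B ∩ C).Nonempty → A ⊆ B ∪ C ∨ B ⊆ A ∪ C ∨ C ⊆ A ∪ B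

/-- `p` is weakly confluent on subcontinua. -/
def WC {N Y : Type} [TopologicalSpace N] [TopologicalSpace Y] (p : N → Y) : Prop :=
  ∀ (M : Set N) (K : Set Y), IsSubcontinuum M → IsSubcontinuum K → K ⊆ p '' M →
    ∃ M' ⊆ M, IsSubcontinuum M' ∧ p '' M' = K

/-- A minimal bad situation: the pullback of `f` and `p` is the union of the disjoint closed sets
`G` and `H`, and nothing of this kind happens over proper subcontinua of `N`. -/
structure Bad {X Y N : Type} [MetricSpace X] [MetricSpace Y] [MetricSpace N] (f : X → Y)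
    (p : N → Y) (G H : Set (X × N)) : Prop where
  conf : Confluent f
  pcont : Continuous p
  psurj : Function.Surjective p
  closedG : IsClosed G
  closedH : IsClosed H
  disj : Disjoint G H
  union : G ∪ H = {q | f q.1 = p q.2}
  mono : ∀ M : Set N, IsSubcontinuum M → M ≠ univ → ∀ x x' : X, ∀ n ∈ M, ∀ n' ∈ M,
    f x = p n → f x' = p n' → x' ∈ connectedComponentIn (f ⁻¹' (p '' M)) x →
    ((x, n) ∈ G ↔ (x', n') ∈ G)
  surjG : ∀ n, ∃ x, (x, n) ∈ G
  surjH : ∀ n, ∃ x, (x, n) ∈ H

/-- The points `x` and `x'` over the continuum `K` have different colours with respect to some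
continuum `M` over `K`. -/
def Sep {X Y N : Type} [TopologicalSpace N] (p : N → Y) (G H : Set (X × N)) (K : Set Y)
    (x x' : X) : Prop :=
  ∃ M : Set N, IsSubcontinuum M ∧ p '' M = K ∧ ∃ n ∈ M, ∃ n' ∈ M,
    ((x, n) ∈ G ∧ (x', n') ∈ H) ∨ ((x, n) ∈ H ∧ (x', n') ∈ G)

/-- There are `r` pairwise separated points over `k`. -/
def SR {X Y N : Type} [TopologicalSpace N] (f : X → Y) (p : N → Y) (G H : Set (X × N)) (r : ℕ)
    (K : Set Y) (k : Y) : Prop :=
  ∃ v : Fin r → X, (∀ i, f (v i) = k) ∧ ∀ i j, i ≠ j → Sep p G H K (v i) (v j)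

/-- The conclusion of the counting argument: `m` classes over every proper subcontinuum, and not
more over large proper subcontinua. -/
def Counted {X Y N : Type} [MetricSpace X] [MetricSpace Y] [MetricSpace N] (f : X → Y)
    (p : N → Y) (G H : Set (X × N)) (m : ℕ) (η : ℝ) : Prop :=
  2 ≤ m ∧ 0 < η ∧
  (∀ K : Set Y, IsSubcontinuum K → K ≠ univ → ∀ k ∈ K, SR f p G H m K k) ∧
  ∀ K : Set Y, IsSubcontinuum K → K ≠ univ → Dns η K → ∀ k ∈ K, ¬ SR f p G H (m + 1) K k

/-- The space is a union of two proper subcontinua. -/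
def Decomposable (Y : Type) [TopologicalSpace Y] : Prop :=
  ∃ P Q : Set Y, IsSubcontinuum P ∧ IsSubcontinuum Q ∧ P ≠ univ ∧ Q ≠ univ ∧ P ∪ Q = univ

/-- A finite covering of `Y` with `m` sheets, dominated by `f : X → Y` and trivial over proper
subcontinua: an open and closed equivalence relation with `m` classes in each fibre of `f`. -/
structure Cov {X Y : Type} [MetricSpace X] [MetricSpace Y] (f : X → Y) (E : X → X → Prop)
    (m : ℕ) : Prop where
  sub : ∀ x x', E x x' → f x = f x'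
  refl : ∀ x, E x x
  symm : ∀ x x', E x x' → E x' x
  trans : ∀ x x' x'', E x x' → E x' x'' → E x x''
  closed : IsClosed {q : X × X | E q.1 q.2}
  closed' : IsClosed {q : X × X | f q.1 = f q.2 ∧ ¬ E q.1 q.2}
  classes : ∀ y, ∃ v : Fin m → X, (∀ i, f (v i) = y) ∧ (∀ i j, i ≠ j → ¬ E (v i) (v j)) ∧
    ∀ x, f x = y → ∃ i, E x (v i)
  triv : ∀ S : Set Y, IsSubcontinuum S → S ≠ univ → ∃ lab : X → Fin m,
    ContinuousOn lab (f ⁻¹' S) ∧
    ∀ x x', f x ∈ S → f x = f x' → (lab x = lab x' ↔ E x x')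

/-- Labels of the sheets, depending on the point of `X`. -/
structure Lab {X Y : Type} [MetricSpace X] [MetricSpace Y] (f : X → Y) (E : X → X → Prop)
    (m : ℕ) (l : X → X → Fin m) : Prop where
  iff : ∀ x x' x'', f x = f x' → f x = f x'' → (l x x' = l x x'' ↔ E x' x'')
  surj : ∀ x i, ∃ x', f x = f x' ∧ l x x' = i
  closed : ∀ i, IsClosed {q : X × X | f q.1 = f q.2 ∧ l q.1 q.2 = i}

/-- A locally constant cocycle with values in a finite group, constant over proper
subcontinua. -/
structure Coc {X Y G : Type} [MetricSpace X] [MetricSpace Y] [Group G] (f : X → Y)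
    (σ : X → X → G) : Prop where
  mul : ∀ x x' x'', f x = f x' → f x' = f x'' → σ x x'' = σ x' x'' * σ x x'
  closed : ∀ τ, IsClosed {q : X × X | f q.1 = f q.2 ∧ σ q.1 q.2 = τ}
  move : ∀ S : Set Y, IsSubcontinuum S → S ≠ univ → ∀ x x' u u' : X, f x ∈ S → f x = f x' →
    f u = f u' → u ∈ connectedComponentIn (f ⁻¹' S) x →
    u' ∈ connectedComponentIn (f ⁻¹' S) x' → σ x x' = σ u u'

end Pool.Agent.ACL

end
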