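import Pool.Agent.ACL.Basic

/-!
# The end: products with the identity, and the theorem
-/

set_option autoImplicit false

noncomputable section

namespace Pool.Agent.ACL

open Set Filter Topology LibConfluent

namespace End

/-- Homeomorphisms are confluent. -/
theorem confluent_homeo {X Y : Type} [TopologicalSpace X] [TopologicalSpace Y] (h : X ≃ₜ Y) :
    Confluent (h : X → Y) := by
  refine ⟨h.continuous, h.surjective, ?_⟩
  rintro K hK C ⟨x, hx, rfl⟩
  have h1 : IsPreconnected (h ⁻¹' K) := by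
    rw [← h.image_symm]
    exact hK.2.2.image _ h.symm.continuous.continuousOn
  rw [h1.connectedComponentIn hx, image_preimage_eq _ h.surjective]

/-- Compositions of confluent mappings of compact spaces are confluent. -/
theorem confluent_comp {X Y Z : Type} [TopologicalSpace X] [TopologicalSpace Y] [CompactSpace Y]
    [TopologicalSpace Z] [T2Space Z] {f : X → Y} {g : Y → Z} (hf : Confluent f)
    (hg : Confluent g) : Confluent (g ∘ f) := by
  refine ⟨hg.continuous.comp hf.continuous, hg.surjective.comp hf.surjective, ?_⟩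
  rintro K hK C ⟨x, hx, rfl⟩
  apply Subset.antisymm
  · rintro _ ⟨y, hy, rfl⟩
    have h0 : y ∈ (g ∘ f) ⁻¹' K := connectedComponentIn_subset _ _ hy
    exact h0
  have hcl : IsClosed (g ⁻¹' K) := hK.1.isClosed.preimage hg.continuous
  have hD : IsSubcontinuum (connectedComponentIn (g ⁻¹' K) (f x)) := subcont_comp hcl hx
  have hxD : f x ∈ connectedComponentIn (g ⁻¹' K) (f x) := mem_connectedComponentIn hx
  have h1 := image_comp hf hD hxD
  have h2 := image_comp hg hK (x := f x) hx
  have hsub : connectedComponentIn (f ⁻¹' connectedComponentIn (g ⁻¹' K) (f x)) x ⊆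
      connectedComponentIn ((g ∘ f) ⁻¹' K) x := by
    apply isPreconnected_connectedComponentIn.subset_connectedComponentIn
    · exact mem_connectedComponentIn hxD
    · intro z hz
      have h3 : z ∈ f ⁻¹' connectedComponentIn (g ⁻¹' K) (f x) :=
        connectedComponentIn_subset _ _ hz
      have h4 : f z ∈ g ⁻¹' K := connectedComponentIn_subset _ _ h3
      exact h4
  calc K = g '' connectedComponentIn (g ⁻¹' K) (f x) := h2.symm
    _ = g '' (f '' connectedComponentIn (f ⁻¹' connectedComponentIn (g ⁻¹' K) (f x)) x) := by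
        rw [h1]
    _ = (g ∘ f) '' connectedComponentIn (f ⁻¹' connectedComponentIn (g ⁻¹' K) (f x)) x := by
        rw [Set.image_comp]
    _ ⊆ (g ∘ f) '' connectedComponentIn ((g ∘ f) ⁻¹' K) x := image_mono hsub

/-- The hereditary form of arc-likeness passes to subspaces. -/
theorem chn_subtype {X : Type} [MetricSpace X] (hX : Chn X) (B : Set X) : Chn B := by
  intro ε hε
  obtain ⟨g, hg, δ, hδ, h⟩ := hX ε hε
  exact ⟨fun x => g x, hg.comp continuous_subtype_val, δ, hδ, fun x y hxy => h x y hxy⟩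

end End

open End in
theorem prodId_proof (hPull : Stmt_Pull) (hRes : Stmt_Restrict) : Stmt_ProdId := by
  intro X Y Z _ _ _ _ _ _ _ _ _ f hX hf
  have hF : Continuous (fun q : X × Z => (f q.1, q.2)) :=
    (hf.continuous.comp continuous_fst).prodMk continuous_snd
  refine ⟨hF, ?_, ?_⟩
  · rintro ⟨y, z⟩
    obtain ⟨x, rfl⟩ := hf.surjective y
    exact ⟨(x, z), rfl⟩
  rintro L hL C ⟨⟨x₀, z₀⟩, hq, rfl⟩
  apply Subset.antisymm
  · rintro _ ⟨q, hq', rfl⟩
    have h0 : q ∈ (fun q : X × Z => (f q.1, q.2)) ⁻¹' L := connectedComponentIn_subset _ _ hq'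
    exact h0
  have hK : IsSubcontinuum (Prod.fst '' L) := subcont_image hL continuous_fst
  have hq' : (f x₀, z₀) ∈ L := hq
  have hx₀ : f x₀ ∈ Prod.fst '' L := ⟨_, hq', rfl⟩
  set K := Prod.fst '' L with hKdef
  have hcl : IsClosed (f ⁻¹' K) := hK.1.isClosed.preimage hf.continuous
  have hB : IsSubcontinuum (connectedComponentIn (f ⁻¹' K) x₀) := subcont_comp hcl hx₀
  have hmem : ∀ x : connectedComponentIn (f ⁻¹' K) x₀, f x ∈ K := by
    intro x
    have h0 : (x : X) ∈ f ⁻¹' K := connectedComponentIn_subset _ _ x.2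
    exact h0
  have hres := hRes X Y f K x₀ hx₀ hf hK hmem
  set B := connectedComponentIn (f ⁻¹' K) x₀ with hBdef
  have : CompactSpace B := isCompact_iff_compactSpace.1 hB.1
  have : ConnectedSpace B := isConnected_iff_connectedSpace.1 hB.2
  have : CompactSpace K := isCompact_iff_compactSpace.1 hK.1
  have : ConnectedSpace K := isConnected_iff_connectedSpace.1 hK.2
  have : CompactSpace L := isCompact_iff_compactSpace.1 hL.1
  have : ConnectedSpace L := isConnected_iff_connectedSpace.1 hL.2
  let g : B → K := fun x => ⟨f x, hmem x⟩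
  let p : L → K := fun l => ⟨l.1.1, ⟨l.1, l.2, rfl⟩⟩
  have hpc : Continuous p := (continuous_fst.comp continuous_subtype_val).subtype_mk _
  have hps : Function.Surjective p := by
    rintro ⟨y, ⟨l, hl, rfl⟩⟩
    exact ⟨⟨l, hl⟩, rfl⟩
  have hE := hPull B K L g p (chn_subtype hX B) hres hpc hps
  let ψ : B × L → X × Z := fun q => (q.1.1, q.2.1.2)
  have hψ : Continuous ψ := by
    refine Continuous.prodMk ?_ ?_
    · exact continuous_subtype_val.comp continuous_fst
    · exact continuous_snd.comp (continuous_subtype_val.comp continuous_snd)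
  have hEψ : IsPreconnected (ψ '' {q : B × L | g q.1 = p q.2}) :=
    hE.2.image _ hψ.continuousOn
  have hFψ : ∀ q ∈ {q : B × L | g q.1 = p q.2}, (f (ψ q).1, (ψ q).2) = q.2.1 := by
    rintro ⟨b, l⟩ hbl
    have h1 : f b = l.1.1 := congrArg Subtype.val hbl
    exact Prod.ext h1 rfl
  have hsub : ψ '' {q : B × L | g q.1 = p q.2} ⊆
      connectedComponentIn ((fun q : X × Z => (f q.1, q.2)) ⁻¹' L) (x₀, z₀) := by
    apply hEψ.subset_connectedComponentIn
    · refine ⟨(⟨x₀, mem_connectedComponentIn hx₀⟩, ⟨(f x₀, z₀), hq'⟩), ?_, rfl⟩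
      rfl
    · rintro _ ⟨q, hqE, rfl⟩
      rw [mem_preimage, hFψ q hqE]
      exact q.2.2
  intro l hl
  obtain ⟨b, hb⟩ := hres.surjective (p ⟨l, hl⟩)
  have hqE : (b, (⟨l, hl⟩ : L)) ∈ {q : B × L | g q.1 = p q.2} := hb
  refine ⟨ψ (b, ⟨l, hl⟩), hsub ⟨_, hqE, rfl⟩, ?_⟩
  exact hFψ _ hqE

open End in
theorem main_proof (hChn : Stmt_Chn) (hProd : Stmt_ProdId) : Stmt_Main := by
  intro X Y _ _ _ _ _ _ f hA hf
  have hX := hChn X hA
  have h1 : Confluent (fun q : X × X => (f q.1, q.2)) := hProd X Y X f hX hf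
  have h2 : Confluent (fun q : X × Y => (f q.1, q.2)) := hProd X Y Y f hX hf
  have h3 : Confluent ((Homeomorph.prodComm Y Y : Y × Y → Y × Y) ∘
      (fun q : X × Y => (f q.1, q.2)) ∘ (Homeomorph.prodComm Y X : Y × X → X × Y)) :=
    confluent_comp (confluent_comp (confluent_homeo _) h2) (confluent_homeo _)
  have h4 := confluent_comp h1 h3
  have h5 : ((Homeomorph.prodComm Y Y : Y × Y → Y × Y) ∘
      (fun q : X × Y => (f q.1, q.2)) ∘ (Homeomorph.prodComm Y X : Y × X → X × Y)) ∘
      (fun q : X × X => (f q.1, q.2)) = Prod.map f f := by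
    ext q <;> rfl
  rwa [h5] at h4

end Pool.Agent.ACL

end
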