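import Pool.Agent.ACL.Basic

/-!
# The two ends of a continuum (module ENDS)
-/

set_option autoImplicit false

noncomputable section

namespace Pool.Agent.ACL

open Set Filter Topology LibConfluent

namespace Ends

variable {Y : Type} [MetricSpace Y]

theorem common (hU : HU Y) {K J J' : Set Y} (hK : IsSubcontinuum K) (hJ : Ent K J)
    (hJ' : Ent K J') (h : ((J ∩ J') \ K).Nonempty) : (J ∩ J' ∩ K).Nonempty := by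
  obtain ⟨z, ⟨hzJ, hzJ'⟩, -⟩ := h
  have hun : IsSubcontinuum (J ∪ J') := subcont_union hJ.1 hJ'.1 ⟨z, hzJ, hzJ'⟩
  have hpre : IsPreconnected ((J ∪ J') ∩ K) := hU _ _ hun hK
  have hcJ : IsClosed J := hJ.1.1.isClosed
  have hcJ' : IsClosed J' := hJ'.1.1.isClosed
  rw [isPreconnected_closed_iff] at hpre
  obtain ⟨a, haJ, haK⟩ := hJ.2.1
  obtain ⟨b, hbJ, hbK⟩ := hJ'.2.1
  obtain ⟨c, ⟨-, hcK⟩, hc1, hc2⟩ := hpre J J' hcJ hcJ' (fun x hx => hx.1)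
    ⟨a, ⟨Or.inl haJ, haK⟩, haJ⟩ ⟨b, ⟨Or.inr hbJ, hbK⟩, hbJ⟩
  exact ⟨c, ⟨hc1, hc2⟩, hcK⟩

theorem comp1 (hU : HU Y) (hT : NoTriod Y) {K J J' : Set Y} (hK : IsSubcontinuum K)
    (hJ : Ent K J) (hJ' : Ent K J') (h : ((J ∩ J') \ K).Nonempty) :
    J ∩ K ⊆ J' ∨ J' ∩ K ⊆ J := by
  by_contra hcon
  rw [not_or, not_subset, not_subset] at hcon
  obtain ⟨⟨a, ⟨haJ, haK⟩, haJ'⟩, ⟨b, ⟨hbJ', hbK⟩, hbJ⟩⟩ := hcon
  obtain ⟨c, ⟨hcJ, hcJ'⟩, hcK⟩ := common hU hK hJ hJ' h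
  obtain ⟨z, ⟨hzJ, hzJ'⟩, hzK⟩ := h
  have hA : IsSubcontinuum (J ∩ K) := subcont_inter hU hJ.1 hK ⟨c, hcJ, hcK⟩
  have hB : IsSubcontinuum (J' ∩ K) := subcont_inter hU hJ'.1 hK ⟨c, hcJ', hcK⟩
  have hC : IsSubcontinuum (J ∩ J') := subcont_inter hU hJ.1 hJ'.1 ⟨c, hcJ, hcJ'⟩
  rcases hT _ _ _ hA hB hC ⟨c, ⟨⟨hcJ, hcK⟩, ⟨hcJ', hcK⟩⟩, ⟨hcJ, hcJ'⟩⟩ with h1 | h1 | h1
  · rcases h1 ⟨haJ, haK⟩ with h2 | h2
    · exact haJ' h2.1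
    · exact haJ' h2.2
  · rcases h1 ⟨hbJ', hbK⟩ with h2 | h2
    · exact hbJ h2.1
    · exact hbJ h2.1
  · rcases h1 ⟨hzJ, hzJ'⟩ with h2 | h2
    · exact hzK h2.2
    · exact hzK h2.2

theorem comp2 (hU : HU Y) (hT : NoTriod Y) {K J J' : Set Y} (hK : IsSubcontinuum K)
    (hJ : Ent K J) (hJ' : Ent K J') (h : ((J ∩ J') \ K).Nonempty) :
    J \ K ⊆ J' ∨ J' \ K ⊆ J := by
  by_contra hcon
  rw [not_or, not_subset, not_subset] at hcon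
  obtain ⟨⟨a, ⟨haJ, haK⟩, haJ'⟩, ⟨b, ⟨hbJ', hbK⟩, hbJ⟩⟩ := hcon
  obtain ⟨c, ⟨hcJ, hcJ'⟩, hcK⟩ := common hU hK hJ hJ' h
  have h1 := comp1 hU hT hK hJ hJ' h
  rcases hT _ _ _ hJ.1 hJ'.1 hK ⟨c, ⟨hcJ, hcJ'⟩, hcK⟩ with h2 | h2 | h2
  · rcases h2 haJ with h3 | h3
    · exact haJ' h3
    · exact haK h3
  · rcases h2 hbJ' with h3 | h3
    · exact hbJ h3
    · exact hbK h3
  · rcases h1 with h3 | h3
    · exact hJ'.2.2.2 fun k hk => (h2 hk).elim (fun h4 => h3 ⟨h4, hk⟩) id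
    · exact hJ.2.2.2 fun k hk => (h2 hk).elim id (fun h4 => h3 ⟨h4, hk⟩)

theorem adj_trans (hU : HU Y) (hT : NoTriod Y) {K J J' J'' : Set Y} (hK : IsSubcontinuum K)
    (hJ : Ent K J) (hJ' : Ent K J') (hJ'' : Ent K J'') (h : ((J ∩ J') \ K).Nonempty)
    (h' : ((J' ∩ J'') \ K).Nonempty) : ((J ∩ J'') \ K).Nonempty := by
  by_contra hcon
  rw [not_nonempty_iff_eq_empty] at hcon
  have hno : ∀ x, x ∈ J → x ∈ J'' → x ∈ K := by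
    intro x hx hx''
    by_contra hxK
    have : x ∈ (J ∩ J'') \ K := ⟨⟨hx, hx''⟩, hxK⟩
    rw [hcon] at this
    exact this
  obtain ⟨c, ⟨hcJ, hcJ'⟩, hcK⟩ := common hU hK hJ hJ' h
  obtain ⟨d, ⟨hdJ', hdJ''⟩, hdK⟩ := common hU hK hJ' hJ'' h'
  obtain ⟨z, ⟨hzJ, hzJ'⟩, hzK⟩ := h
  obtain ⟨w, ⟨hwJ', hwJ''⟩, hwK⟩ := h'
  have h1 : IsSubcontinuum (J ∩ J') := subcont_inter hU hJ.1 hJ'.1 ⟨c, hcJ, hcJ'⟩
  have h3 : IsSubcontinuum (J' ∩ J'') := subcont_inter hU hJ'.1 hJ''.1 ⟨d, hdJ', hdJ''⟩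
  have hI : IsSubcontinuum (J' ∩ K) := subcont_inter hU hJ'.1 hK ⟨c, hcJ', hcK⟩
  have h1I : IsSubcontinuum (J ∩ J' ∪ J' ∩ K) :=
    subcont_union h1 hI ⟨c, ⟨hcJ, hcJ'⟩, ⟨hcJ', hcK⟩⟩
  have h3I : IsSubcontinuum (J' ∩ J'' ∪ J' ∩ K) :=
    subcont_union h3 hI ⟨d, ⟨hdJ', hdJ''⟩, ⟨hdJ', hdK⟩⟩
  rcases hT _ _ _ h1I h3I hK ⟨c, ⟨Or.inr ⟨hcJ', hcK⟩, Or.inr ⟨hcJ', hcK⟩⟩, hcK⟩ with
    h2 | h2 | h2
  · rcases h2 (Or.inl ⟨hzJ, hzJ'⟩) with (h4 | h4) | h4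
    · exact hzK (hno z hzJ h4.2)
    · exact hzK h4.2
    · exact hzK h4
  · rcases h2 (Or.inl ⟨hwJ', hwJ''⟩) with (h4 | h4) | h4
    · exact hwK (hno w h4.1 hwJ'')
    · exact hwK h4.2
    · exact hwK h4
  · refine hJ'.2.2.2 fun k hk => ?_
    rcases h2 hk with (h4 | h4) | (h4 | h4)
    · exact h4.2
    · exact h4.1
    · exact h4.1
    · exact h4.1

theorem three (hT : NoTriod Y) {K J J' J'' : Set Y} (hK : IsSubcontinuum K)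
    (hJ : Ent K J) (hJ' : Ent K J') (hJ'' : Ent K J'') : ((J ∩ J') \ K).Nonempty ∨
    ((J ∩ J'') \ K).Nonempty ∨ ((J' ∩ J'') \ K).Nonempty := by
  obtain ⟨k, hk⟩ := hK.2.1
  have key : ∀ {A B C : Set Y}, Ent K A → A ∪ K ⊆ (B ∪ K) ∪ (C ∪ K) →
      ((A ∩ B) \ K).Nonempty ∨ ((A ∩ C) \ K).Nonempty := by
    intro A B C hA hsub
    obtain ⟨a, haA, haK⟩ := not_subset.1 hA.2.2.1
    rcases hsub (Or.inl haA) with (h | h) | (h | h)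
    · exact Or.inl ⟨a, ⟨haA, h⟩, haK⟩
    · exact absurd h haK
    · exact Or.inr ⟨a, ⟨haA, h⟩, haK⟩
    · exact absurd h haK
  have hu : ∀ {A : Set Y}, Ent K A → IsSubcontinuum (A ∪ K) := fun hA =>
    subcont_union hA.1 hK hA.2.1
  rcases hT _ _ _ (hu hJ) (hu hJ') (hu hJ'') ⟨k, ⟨Or.inr hk, Or.inr hk⟩, Or.inr hk⟩ with
    h | h | h
  · rcases key hJ h with h | h
    · exact Or.inl h
    · exact Or.inr (Or.inl h)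
  · rcases key hJ' h with h | h
    · rw [inter_comm] at h
      exact Or.inl h
    · exact Or.inr (Or.inr h)
  · rcases key hJ'' h with h | h
    · rw [inter_comm] at h
      exact Or.inr (Or.inl h)
    · rw [inter_comm] at h
      exact Or.inr (Or.inr h)

end Ends

theorem ends_proof : Stmt_Ends := by
  intro Y _ _ hU hT K hK
  refine ⟨fun J J' hJ hJ' h => ⟨Ends.comp1 hU hT hK hJ hJ' h, Ends.comp2 hU hT hK hJ hJ' h⟩,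
    fun J J' J'' hJ hJ' hJ'' h h' => Ends.adj_trans hU hT hK hJ hJ' hJ'' h h',
    fun J J' J'' hJ hJ' hJ'' => Ends.three hT hK hJ hJ' hJ''⟩

end Pool.Agent.ACL

end
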