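import Pool.Agent.ACL.Stmts

/-!
# An equivariant circle-valued function (module EQ)
-/

set_option autoImplicit false
set_option linter.unusedSectionVars false

noncomputable section

namespace Pool.Agent.ACL

open Set Filter Topology LibConfluent

namespace Eq

theorem kap_eq {G : Type} [Group G] [Finite G] (g : G) (a b : ℤ) (h : g ^ a = g ^ b) :
    (((a : ℝ) / (orderOf g : ℝ) : ℝ) : T) = (((b : ℝ) / (orderOf g : ℝ) : ℝ) : T) := by
  have hn : (0 : ℝ) < orderOf g := by exact_mod_cast orderOf_pos g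
  obtain ⟨z, hz⟩ := orderOf_dvd_sub_iff_zpow_eq_zpow.2 h
  have e : (a : ℝ) / (orderOf g : ℝ) = (b : ℝ) / (orderOf g : ℝ) + z := by
    have : ((a - b : ℤ) : ℝ) = (orderOf g : ℝ) * z := by rw [hz]; push_cast; ring
    push_cast at this
    field_simp
    linarith
  rw [e, AddCircle.coe_add]
  have : ((z : ℝ) : T) = 0 := AddCircle.coe_eq_zero_iff (p := (1 : ℝ)) |>.2 ⟨z, by simp⟩
  rw [this, add_zero]

/-- representatives of right cosets of the powers of `g`. -/
theorem reps {G : Type} [Group G] (g : G) : ∃ (rep : G → G) (k : G → ℤ),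
    (∀ h, h = g ^ k h * rep h) ∧ ∀ h, rep (g * h) = rep h := by
  classical
  let rel : Setoid G := QuotientGroup.rightRel (Subgroup.zpowers g)
  let rep : G → G := fun h => (Quotient.mk rel h).out
  have h1 : ∀ h, ∃ k : ℤ, h = g ^ k * rep h := by
    intro h
    have h2 : rel (rep h) h := Quotient.mk_out h
    rw [QuotientGroup.rightRel_apply] at h2
    obtain ⟨k, hk⟩ := Subgroup.mem_zpowers_iff.1 h2
    exact ⟨k, by rw [hk]; group⟩
  choose k hk using h1
  refine ⟨rep, k, hk, fun h => ?_⟩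
  have : (Quotient.mk rel (g * h)) = Quotient.mk rel h := by
    apply Quotient.sound
    change rel (g * h) h
    rw [QuotientGroup.rightRel_apply]
    have : h * (g * h)⁻¹ = g⁻¹ := by group
    rw [this]
    exact Subgroup.inv_mem _ (Subgroup.mem_zpowers g)
  simp only [rep]
  rw [this]

variable {X Y G : Type} [MetricSpace X] [CompactSpace X] [MetricSpace Y] [CompactSpace Y]
  [Group G] [Finite G] {f : X → Y} {σ : X → X → G} {g : G}

/-- the property on a closed set. -/
def P (f : X → Y) (σ : X → X → G) (g : G) (W : Set Y) : Prop := IsClosed W ∧ ∃ s : X → T,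
  ContinuousOn s (f ⁻¹' W) ∧ ∀ x x', f x ∈ W → f x = f x' →
    (σ x x' = 1 → s x' = s x) ∧ (σ x x' = g → s x' = s x + ((1 / (orderOf g : ℝ) : ℝ) : T))

theorem chain (hσ : Coc f σ) (hg : ∀ x, ∃ x', f x = f x' ∧ σ x x' = g) {W : Set Y} {s : X → T}
    (hs : ∀ x x', f x ∈ W → f x = f x' →
      (σ x x' = 1 → s x' = s x) ∧ (σ x x' = g → s x' = s x + ((1 / (orderOf g : ℝ) : ℝ) : T)))
    (x : X) (hx : f x ∈ W) (j : ℕ) : ∃ x', f x = f x' ∧ σ x x' = g ^ j ∧
      s x' = s x + (((j : ℝ) / (orderOf g : ℝ) : ℝ) : T) := by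
  induction j with
  | zero =>
    refine ⟨x, rfl, ?_, ?_⟩
    · have := hσ.mul x x x rfl rfl
      rw [pow_zero]
      exact mul_left_cancel (this.symm.trans (mul_one _).symm)
    · simp
  | succ j ih =>
    obtain ⟨x', h1, h2, h3⟩ := ih
    obtain ⟨x'', h4, h5⟩ := hg x'
    refine ⟨x'', h1.trans h4, ?_, ?_⟩
    · rw [hσ.mul x x' x'' h1 h4, h5, h2, pow_succ']
    · rw [(hs x' x'' (h1 ▸ hx) h4).2 h5, h3, add_assoc, ← AddCircle.coe_add]
      congr 2
      push_cast
      ring

theorem step (hExt : Stmt_Ext) (hY : LiftC Y) (hf : Continuous f) (hσ : Coc f σ)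
    (hg : ∀ x, ∃ x', f x = f x' ∧ σ x x' = g) {W V : Set Y} (hW : P f σ g W) (hV : IsClosed V)
    {lam : X → G} (hlam : ∀ τ, IsClosed {x | f x ∈ V ∧ lam x = τ})
    (hlam' : ∀ x x', f x = f x' → f x ∈ V → σ x x' * lam x = lam x') : P f σ g (W ∪ V) := by
  classical
  obtain ⟨hWc, s, hsc, hs⟩ := hW
  obtain ⟨rep, k, hk, hrep⟩ := reps g
  have hn : (0 : ℝ) < orderOf g := by exact_mod_cast orderOf_pos g
  -- descent
  have hdesc : ∀ c : G, ∃ h : Y → ℝ, Continuous h ∧ ∀ x, f x ∈ V → f x ∈ W → lam x = c →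
      ((h (f x) : ℝ) : T) = s x := by
    intro c
    set U : Set X := {x | f x ∈ V ∧ lam x = c} ∩ f ⁻¹' W with hU
    have hUc : IsClosed U := (hlam c).inter (hWc.preimage hf)
    set sc : Y → T := fun y => if h : ∃ x ∈ U, f x = y then s h.choose else 0 with hsc'
    have hscU : ∀ x ∈ U, sc (f x) = s x := by
      intro x hx
      have hex : ∃ x' ∈ U, f x' = f x := ⟨x, hx, rfl⟩
      have e : sc (f x) = s hex.choose := by simp only [hsc']; rw [dif_pos hex]
      rw [e]
      obtain ⟨hc1, hc2⟩ := hex.choose_spec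
      have h3 := hlam' x hex.choose hc2.symm hx.1.1
      rw [hx.1.2, hc1.1.2] at h3
      exact (hs x hex.choose hx.2 hc2.symm).1 (mul_eq_right.1 h3)
    have hcont : ContinuousOn sc (f '' U) := by
      rw [continuousOn_iff_isClosed]
      intro t ht
      obtain ⟨u, hu, hut⟩ := (continuousOn_iff_isClosed.1 hsc) t ht
      refine ⟨f '' (U ∩ u), ((hUc.inter hu).isCompact.image hf).isClosed, ?_⟩
      ext y
      constructor
      · rintro ⟨h1, x, hx, rfl⟩
        refine ⟨⟨x, ⟨hx, ?_⟩, rfl⟩, x, hx, rfl⟩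
        have : x ∈ s ⁻¹' t ∩ f ⁻¹' W := ⟨by
          change s x ∈ t; rw [← hscU x hx]; exact h1, hx.2⟩
        rw [hut] at this
        exact this.1
      · rintro ⟨⟨x, ⟨hx, hxu⟩, rfl⟩, _⟩
        refine ⟨?_, x, hx, rfl⟩
        change sc (f x) ∈ t
        rw [hscU x hx]
        have : x ∈ u ∩ f ⁻¹' W := ⟨hxu, hx.2⟩
        rw [← hut] at this
        exact this.1
    obtain ⟨h, hh1, hh2⟩ := hExt Y hY (f '' U) sc (hUc.isCompact.image hf).isClosed hcont
    refine ⟨h, hh1, fun x h1 h2 h3 => ?_⟩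
    have hxU : x ∈ U := ⟨⟨h1, h3⟩, h2⟩
    rw [hh2 (f x) ⟨x, hxU, rfl⟩, hscU x hxU]
  choose H hHc hH using hdesc
  set s' : X → T := fun x => ((H (rep (lam x)) (f x) : ℝ) : T) +
    (((k (lam x) : ℝ) / (orderOf g : ℝ) : ℝ) : T) with hs'
  -- agreement
  have hagree : ∀ x, f x ∈ W → f x ∈ V → s' x = s x := by
    intro x hxW hxV
    -- a natural number `j` with `g ^ j = g ^ (-k)`
    obtain ⟨j, hj⟩ : ∃ j : ℕ, g ^ (j : ℤ) = g ^ (-(k (lam x))) := by
      refine ⟨((-(k (lam x))) % (orderOf g : ℤ)).toNat, ?_⟩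
      have h0 : (0 : ℤ) < orderOf g := by exact_mod_cast orderOf_pos g
      rw [Int.toNat_of_nonneg (Int.emod_nonneg _ h0.ne'), zpow_mod_orderOf]
    obtain ⟨x', h1, h2, h3⟩ := chain hσ hg hs x hxW j
    have h4 : lam x' = rep (lam x) := by
      rw [← hlam' x x' h1 hxV, h2]
      rw [zpow_natCast] at hj
      rw [hj]
      nth_rewrite 2 [hk (lam x)]
      rw [← mul_assoc, ← zpow_add]
      simp
    have h5 := hH (rep (lam x)) x' (h1 ▸ hxV) (h1 ▸ hxW) h4
    have e1 : s' x = ((H (rep (lam x)) (f x) : ℝ) : T) +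
      (((k (lam x) : ℝ) / (orderOf g : ℝ) : ℝ) : T) := rfl
    rw [e1, h1, h5, h3, add_assoc]
    have e2 : (((j : ℝ) / (orderOf g : ℝ) : ℝ) : T) =
        (((-(k (lam x)) : ℤ) : ℝ) / (orderOf g : ℝ) : ℝ) := by
      have := kap_eq g (j : ℤ) (-(k (lam x))) hj
      rw [← this]
      push_cast
      rfl
    rw [e2, ← AddCircle.coe_add]
    have e3 : (((-(k (lam x)) : ℤ) : ℝ) / (orderOf g : ℝ)) + (k (lam x) : ℝ) / (orderOf g : ℝ) = 0 := by
      push_cast; ring
    rw [e3, AddCircle.coe_zero, add_zero]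
  have hs'c : ContinuousOn s' (f ⁻¹' V) := by
    have hun : f ⁻¹' V = ⋃ τ : G, {x | f x ∈ V ∧ lam x = τ} := by
      ext x
      simp only [Set.mem_preimage, Set.mem_iUnion, Set.mem_ofPred_eq]
      exact ⟨fun h => ⟨_, h, rfl⟩, fun ⟨_, h, _⟩ => h⟩
    rw [hun]
    apply LocallyFinite.continuousOn_iUnion (locallyFinite_of_finite _) hlam
    intro τ
    have hc : Continuous (fun x => ((H (rep τ) (f x) : ℝ) : T) +
        (((k τ : ℝ) / (orderOf g : ℝ) : ℝ) : T)) :=
      ((AddCircle.continuous_mk' 1).comp ((hHc (rep τ)).comp hf)).add continuous_const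
    apply hc.continuousOn.congr
    rintro x ⟨_, hx⟩
    simp only [hs', hx]
  have hs'1 : ∀ x x', f x ∈ V → f x = f x' →
      (σ x x' = 1 → s' x' = s' x) ∧ (σ x x' = g → s' x' = s' x + ((1 / (orderOf g : ℝ) : ℝ) : T)) := by
    intro x x' hx hxx
    have h1 := hlam' x x' hxx hx
    constructor
    · intro h
      rw [h, one_mul] at h1
      simp only [hs', h1, hxx]
    · intro h
      rw [h] at h1
      have e1 : rep (lam x') = rep (lam x) := by rw [← h1, hrep]
      have e2 : g ^ k (lam x') = g ^ (k (lam x) + 1) := by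
        have a1 := hk (lam x')
        have a2 := hk (lam x)
        rw [e1] at a1
        rw [← h1] at a1
        nth_rewrite 1 [a2] at a1
        rw [← mul_assoc] at a1
        have a3 := mul_right_cancel a1
        rw [h1] at a3
        rw [← a3, zpow_add, zpow_one]
        exact (Commute.self_zpow g _).symm.eq.symm ▸ rfl
      have e3 := kap_eq g _ _ e2
      simp only [hs', e1, ← hxx]
      rw [e3, add_assoc, ← AddCircle.coe_add]
      congr 2
      push_cast
      ring
  refine ⟨hWc.union hV, fun x => if f x ∈ W then s x else s' x, ?_, ?_⟩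
  · rw [Set.preimage_union]
    apply ContinuousOn.union_of_isClosed _ _ (hWc.preimage hf) (hV.preimage hf)
    · apply hsc.congr
      intro x hx
      simp only [if_pos (show f x ∈ W from hx)]
    · apply hs'c.congr
      intro x hx
      by_cases hxW : f x ∈ W
      · simp only [if_pos hxW]; exact (hagree x hxW hx).symm
      · simp only [if_neg hxW]
  · intro x x' hx hxx
    by_cases hxW : f x ∈ W
    · have hxW' : f x' ∈ W := hxx ▸ hxW
      simp only [if_pos hxW, if_pos hxW']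
      exact hs x x' hxW hxx
    · have hxW' : f x' ∉ W := hxx ▸ hxW
      simp only [if_neg hxW, if_neg hxW']
      exact hs'1 x x' (hx.resolve_left hxW) hxx

end Eq

theorem eq_proof (hLoc : Stmt_Loc) (hExt : Stmt_Ext) : Stmt_Eq := by
  intro X Y G _ _ _ _ _ _ f σ A g hY hf hsurj hσ hA hg
  have hg' : ∀ x, ∃ x', f x = f x' ∧ σ x x' = g := by
    intro x
    have : g ∈ {τ | ∃ x', f x = f x' ∧ σ x x' = τ} := by rw [hA x]; exact hg
    exact this
  have h0 : Eq.P f σ g (∅ : Set Y) := ⟨isClosed_empty, fun _ => 0, by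
    rw [Set.preimage_empty]; exact continuousOn_empty _, fun x x' hx => absurd hx (by simp)⟩
  have hmain : ∀ W : Set Y, Eq.P f σ g W → ∃ W', Eq.P f σ g W' ∧ W ∪ univ ⊆ W' := by
    apply isCompact_univ.induction_on (p := fun S => ∀ W : Set Y, Eq.P f σ g W →
      ∃ W', Eq.P f σ g W' ∧ W ∪ S ⊆ W')
    · intro W hW
      exact ⟨W, hW, by simp⟩
    · intro S S' hSS h W hW
      obtain ⟨W', h1, h2⟩ := h W hW
      exact ⟨W', h1, (Set.union_subset_union_right W hSS).trans h2⟩
    · intro S S' h h' W hW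
      obtain ⟨W', h1, h2⟩ := h W hW
      obtain ⟨W'', h3, h4⟩ := h' W' h1
      refine ⟨W'', h3, ?_⟩
      rintro y (hy | hy | hy)
      · exact h4 (Or.inl (h2 (Or.inl hy)))
      · exact h4 (Or.inl (h2 (Or.inr hy)))
      · exact h4 (Or.inr hy)
    · intro y _
      obtain ⟨V, lam, hV, hVc, hl1, hl2⟩ := hLoc X Y G f σ hf hsurj hσ y
      refine ⟨V, mem_nhdsWithin_of_mem_nhds hV, fun W hW => ⟨W ∪ V, ?_, le_rfl⟩⟩
      exact Eq.step hExt hY hf hσ hg' hW hVc hl1 hl2
  obtain ⟨W', ⟨_, s, hs1, hs2⟩, hW'⟩ := hmain ∅ h0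
  have hall : ∀ y, y ∈ W' := fun y => hW' (Or.inr (Set.mem_univ y))
  refine ⟨s, ?_, fun x x' hxx => hs2 x x' (hall _) hxx⟩
  have : f ⁻¹' W' = univ := Set.eq_univ_of_forall fun x => hall _
  rw [this] at hs1
  exact continuousOn_univ.1 hs1

end Pool.Agent.ACL

end
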