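import Pool.Agent.ACL.Basic

/-!
# Module EXT: circle-valued functions on closed subsets lift
-/

set_option autoImplicit false

noncomputable section

namespace Pool.Agent.ACL

open Set Filter Topology LibConfluent

namespace Ext

/-- The representative in `[-1/2, 1/2)`. -/
def rep (t : T) : ℝ := (AddCircle.equivIco (1 : ℝ) (-1 / 2) t : ℝ)

lemma coe_rep (t : T) : ((rep t : ℝ) : T) = t := AddCircle.coe_equivIco

lemma rep_continuousAt {t : T} (ht : t ≠ ((-1 / 2 : ℝ) : T)) : ContinuousAt rep t :=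
  continuousAt_subtype_val.comp (AddCircle.continuousAt_equivIco (1 : ℝ) (-1 / 2) ht)

lemma zero_ne_half : (0 : T) ≠ ((-1 / 2 : ℝ) : T) := by
  intro h
  have h1 : (((-1 / 2 : ℝ)) : T) = 0 := h.symm
  rw [AddCircle.coe_eq_zero_iff] at h1
  obtain ⟨n, hn⟩ := h1
  rw [zsmul_eq_mul, mul_one] at hn
  have h2 : (2 * n : ℤ) = -1 := by
    have : ((2 * n : ℤ) : ℝ) = ((-1 : ℤ) : ℝ) := by push_cast; linarith
    exact_mod_cast this
  omega

/-- Tietze for functions on closed sets. -/
lemma tietze {Y : Type} [MetricSpace Y] {K : Set Y} (hK : IsClosed K) {h : Y → ℝ}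
    (hh : ContinuousOn h K) : ∃ h1 : Y → ℝ, Continuous h1 ∧ ∀ y ∈ K, h1 y = h y := by
  obtain ⟨F, hF⟩ := ContinuousMap.exists_restrict_eq hK
    (⟨K.domRestrict h, continuousOn_iff_continuous_domRestrict.mp hh⟩ : C(K, ℝ))
  refine ⟨F, F.continuous, fun y hy => ?_⟩
  have := congrArg (fun G : C(K, ℝ) => G ⟨y, hy⟩) hF
  exact this

/-- The local statement. -/
def Loc {Y : Type} [TopologicalSpace Y] (A : Set Y) (g : Y → T) (S : Set Y) : Prop :=
  ∃ V : Set Y, S ⊆ V ∧ V ⊆ A ∧ IsClosed V ∧ IsClosed (A \ V) ∧ LiftsOn g V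

lemma loc_union {Y : Type} [TopologicalSpace Y] {A : Set Y} {g : Y → T} {S S' : Set Y}
    (h : Loc A g S) (h' : Loc A g S') : Loc A g (S ∪ S') := by
  classical
  obtain ⟨V, h1, h2, h3, h4, u, h5, h6⟩ := h
  obtain ⟨V', h1', h2', h3', h4', u', h5', h6'⟩ := h'
  have hW : IsClosed (V' \ V) := by
    have : V' \ V = V' ∩ (A \ V) := by
      ext y
      constructor
      · rintro ⟨ha, hb⟩; exact ⟨ha, h2' ha, hb⟩
      · rintro ⟨ha, _, hb⟩; exact ⟨ha, hb⟩
    rw [this]; exact h3'.inter h4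
  have hU : V ∪ V' = V ∪ V' \ V := by
    ext y
    by_cases hy : y ∈ V <;> simp [hy]
  refine ⟨V ∪ V', union_subset_union h1 h1', union_subset h2 h2', h3.union h3', ?_,
    fun y => if y ∈ V then u y else u' y, ?_, ?_⟩
  · have : A \ (V ∪ V') = (A \ V) ∩ (A \ V') := by
      ext y; simp only [Set.mem_sdiff, mem_union, mem_inter_iff]; tauto
    rw [this]; exact h4.inter h4'
  · rw [hU]
    apply ContinuousOn.union_of_isClosed _ _ h3 hW
    · exact h5.congr fun y hy => if_pos hy
    · exact (h5'.mono sdiff_subset).congr fun y hy => if_neg hy.2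
  · intro y hy
    by_cases hyV : y ∈ V
    · simp only [if_pos hyV]; exact h6 y hyV
    · simp only [if_neg hyV]; exact h6' y (hy.resolve_left hyV)

/-- Near a component. -/
lemma loc_point {Y : Type} [MetricSpace Y] [CompactSpace Y] (hsep : Stmt_CompSep)
    (hL : LiftC Y) {A : Set Y} {g : Y → T} (hA : IsClosed A) (hg : ContinuousOn g A) {x : Y}
    (hx : x ∈ A) : ∃ V : Set Y, x ∈ V ∧ V ⊆ A ∧ IsClosed V ∧ IsClosed (A \ V) ∧ LiftsOn g V := by
  have hK := subcont_comp hA hx
  set K := connectedComponentIn A x with hKdef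
  have hKA : K ⊆ A := connectedComponentIn_subset A x
  obtain ⟨h0, h0c, h0g⟩ := hL K g hK (hg.mono hKA)
  obtain ⟨h1, h1c, h1e⟩ := tietze hK.1.isClosed h0c
  have hcoe : Continuous (fun y => ((h1 y : ℝ) : T)) := (AddCircle.continuous_mk' 1).comp h1c
  have hdc : ContinuousOn (fun y => g y - ((h1 y : ℝ) : T)) A := hg.sub hcoe.continuousOn
  set B : Set Y := A ∩ {y | g y - ((h1 y : ℝ) : T) = ((-1 / 2 : ℝ) : T)} with hB
  have hBc : IsClosed B := hdc.preimage_isClosed_of_isClosed hA isClosed_singleton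
  obtain ⟨F1, F2, c1, c2, hdis, hun, hKF, hBF⟩ := hsep Y A K B hA hK.1.isClosed hBc hKA
    inter_subset_left (by
      intro x' hx'
      have : connectedComponentIn A x' = K := (connectedComponentIn_eq hx').symm
      rw [this, Set.disjoint_left]
      rintro y hy ⟨_, hy2⟩
      rw [mem_ofPred_eq, h1e y hy, h0g y hy, sub_self] at hy2
      exact zero_ne_half hy2)
  have hF1A : F1 ⊆ A := by rw [← hun]; exact subset_union_left
  refine ⟨F1, hKF (mem_connectedComponentIn hx), hF1A, c1, ?_, ?_⟩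
  · have : A \ F1 = F2 := by
      ext y
      constructor
      · rintro ⟨ha, hb⟩
        rw [← hun] at ha
        exact ha.resolve_left hb
      · intro hy
        refine ⟨by rw [← hun]; exact Or.inr hy, fun h => Set.disjoint_left.mp hdis h hy⟩
    rw [this]; exact c2
  · refine ⟨fun y => h1 y + rep (g y - ((h1 y : ℝ) : T)), ?_, ?_⟩
    · apply h1c.continuousOn.add
      intro y hy
      have hne : g y - ((h1 y : ℝ) : T) ≠ ((-1 / 2 : ℝ) : T) := by
        intro h
        exact Set.disjoint_left.mp hdis hy (hBF ⟨hF1A hy, h⟩)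
      exact ContinuousAt.comp_continuousWithinAt (g := rep)
        (f := fun y => g y - ((h1 y : ℝ) : T)) (rep_continuousAt hne) ((hdc.mono hF1A) y hy)
    · intro y _
      rw [AddCircle.coe_add, coe_rep]
      abel

end Ext

theorem ext_proof (hsep : Stmt_CompSep) : Stmt_Ext := by
  intro Y _ _ hL A g hA hg
  have h1 : Ext.Loc A g A := by
    apply hA.isCompact.induction_on (p := Ext.Loc A g)
    · refine ⟨∅, Subset.rfl, empty_subset _, isClosed_empty, ?_, fun _ => 0, ?_, ?_⟩
      · rw [sdiff_empty]; exact hA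
      · exact continuousOn_empty _
      · intro y hy; exact absurd hy (notMem_empty y)
    · rintro s t hst ⟨V, h1, h2⟩
      exact ⟨V, hst.trans h1, h2⟩
    · intro s t hs ht
      exact Ext.loc_union hs ht
    · intro x hx
      obtain ⟨V, hxV, hVA, hVc, hVc', hlift⟩ := Ext.loc_point hsep hL hA hg hx
      refine ⟨V, ?_, V, Subset.rfl, hVA, hVc, hVc', hlift⟩
      rw [mem_nhdsWithin]
      refine ⟨(A \ V)ᶜ, hVc'.isOpen_compl, fun h => h.2 hxV, ?_⟩
      rintro y ⟨hy1, hy2⟩
      by_contra h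
      exact hy1 ⟨hy2, h⟩
  obtain ⟨V, h2, h3, -, -, u, hu, hug⟩ := h1
  have hVA : V = A := Subset.antisymm h3 h2
  subst hVA
  obtain ⟨h, hc, he⟩ := Ext.tietze hA hu
  exact ⟨h, hc, fun y hy => by rw [he y hy, hug y hy]⟩

end Pool.Agent.ACL

end
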