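import Pool.Agent.ACL.Stmts

/-!
# The height lemma
-/

set_option autoImplicit false

noncomputable section

namespace Pool.Agent.ACL

open Set Filter Topology LibConfluent

namespace HTAux

variable {Z : Type} [TopologicalSpace Z] [CompactSpace Z]

theorem closed_one {E : Z → Z → Prop} {H : Z → ℝ} (hE : IsClosed {q : Z × Z | E q.1 q.2})
    (hH : Continuous H) (C : Set ℝ) (hC : IsClosed C) : IsClosed {x | ∃ u, E x u ∧ H u ∈ C} := by
  have h1 : IsClosed {q : Z × Z | E q.1 q.2 ∧ H q.2 ∈ C} :=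
    hE.inter (hC.preimage (hH.comp continuous_snd))
  have h2 := isClosedMap_fst_of_compactSpace (X := Z) (Y := Z) _ h1
  convert h2 using 1
  ext x
  constructor
  · rintro ⟨u, h, h'⟩
    exact ⟨(x, u), ⟨h, h'⟩, rfl⟩
  · rintro ⟨⟨x', u⟩, ⟨h, h'⟩, rfl⟩
    exact ⟨u, h, h'⟩

theorem closed_two {E : Z → Z → Prop} {H : Z → ℝ} (hE : IsClosed {q : Z × Z | E q.1 q.2})
    (hH : Continuous H) (c : ℝ) : IsClosed {x | ∃ u v, E x u ∧ E x v ∧ c ≤ H u - H v} := by
  have h1 : IsClosed {q : Z × (Z × Z) | E q.1 q.2.1 ∧ E q.1 q.2.2 ∧ c ≤ H q.2.1 - H q.2.2} := by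
    refine IsClosed.inter ?_ (IsClosed.inter ?_ ?_)
    · exact hE.preimage (f := fun q : Z × (Z × Z) => (q.1, q.2.1)) (by fun_prop)
    · exact hE.preimage (f := fun q : Z × (Z × Z) => (q.1, q.2.2)) (by fun_prop)
    · have : Continuous fun q : Z × (Z × Z) => H q.2.1 - H q.2.2 := by fun_prop
      exact isClosed_le continuous_const this
  have h2 := isClosedMap_fst_of_compactSpace (X := Z) (Y := Z × Z) _ h1
  convert h2 using 1
  ext x
  constructor
  · rintro ⟨u, v, h⟩
    exact ⟨(x, u, v), h, rfl⟩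
  · rintro ⟨⟨x', u, v⟩, h, rfl⟩
    exact ⟨u, v, h⟩

theorem main (E Mv : Z → Z → Prop) (H : Z → ℝ) (hr : ∀ x, E x x) (hs : ∀ x y, E x y → E y x)
    (ht : ∀ x y z, E x y → E y z → E x z) (hE : IsClosed {q : Z × Z | E q.1 q.2})
    (hH : Continuous H) (hint : ∀ x y, E x y → ∃ k : ℤ, H x - H y = k)
    (htr : ∀ x x', Mv x x' → ∀ u v, E x u → E x v →
      ∃ u' v', E x' u' ∧ E x' v' ∧ H u' - H v' = H u - H v)
    (hmin : ∀ M : Set Z, IsClosed M → M.Nonempty → (∀ x ∈ M, ∀ y, E x y → y ∈ M) →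
      (∀ x ∈ M, ∀ y, Mv x y → y ∈ M) → M = univ) :
    ∃ t : Z → ℝ, Continuous t ∧ (∀ x y, E x y → t x = t y) ∧ ∀ x, ∃ k : ℤ, t x - H x = k := by
  -- classes are compact
  have hcl : ∀ x, IsCompact {u | E x u} := fun x =>
    (hE.preimage (f := fun u : Z => (x, u)) (by fun_prop)).isCompact
  have hmax : ∀ x, ∃ u, E x u ∧ ∀ u', E x u' → H u' ≤ H u := fun x => by
    obtain ⟨u, hu, h⟩ := (hcl x).exists_isMaxOn ⟨x, hr x⟩ hH.continuousOn
    exact ⟨u, hu, fun u' hu' => h hu'⟩
  have hmin' : ∀ x, ∃ u, E x u ∧ ∀ u', E x u' → H u ≤ H u' := fun x => by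
    obtain ⟨u, hu, h⟩ := (hcl x).exists_isMinOn ⟨x, hr x⟩ hH.continuousOn
    exact ⟨u, hu, fun u' hu' => h hu'⟩
  choose p hp hp' using hmax
  choose q hq hq' using hmin'
  -- the width is constant
  have hw : ∀ x₀ x, H (p x₀) - H (q x₀) ≤ H (p x) - H (q x) := by
    intro x₀ x
    have h1 := hmin {x | ∃ u v, E x u ∧ E x v ∧ H (p x₀) - H (q x₀) ≤ H u - H v}
      (closed_two hE hH _) ⟨x₀, p x₀, q x₀, hp x₀, hq x₀, le_rfl⟩
      (by
        rintro x ⟨u, v, h1, h2, h3⟩ y hy
        exact ⟨u, v, ht _ _ _ (hs _ _ hy) h1, ht _ _ _ (hs _ _ hy) h2, h3⟩)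
      (by
        rintro x ⟨u, v, h1, h2, h3⟩ y hy
        obtain ⟨u', v', h4, h5, h6⟩ := htr x y hy u v h1 h2
        exact ⟨u', v', h4, h5, h6 ▸ h3⟩)
    have h2 : x ∈ {x | ∃ u v, E x u ∧ E x v ∧ H (p x₀) - H (q x₀) ≤ H u - H v} := by
      rw [h1]; trivial
    obtain ⟨u, v, h3, h4, h5⟩ := h2
    have := hp' x u h3
    have := hq' x v h4
    linarith
  have hw' : ∀ x₀ x, H (p x₀) - H (q x₀) = H (p x) - H (q x) := fun x₀ x =>
    le_antisymm (hw _ _) (hw _ _)
  refine ⟨fun x => H (p x), ?_, ?_, ?_⟩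
  · rw [continuous_iff_lower_upperSemicontinuous, lowerSemicontinuous_iff_isClosed_preimage,
      upperSemicontinuous_iff_isClosed_preimage]
    constructor
    · intro a
      rcases isEmpty_or_nonempty Z with hZ | ⟨⟨x₀⟩⟩
      · convert isClosed_empty
        exact Set.eq_empty_of_isEmpty _
      · have := closed_one hE hH (Iic (a - (H (p x₀) - H (q x₀)))) isClosed_Iic
        convert this using 1
        ext x
        simp only [mem_preimage, mem_Iic, mem_ofPred_eq]
        constructor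
        · intro h
          refine ⟨q x, hq x, ?_⟩
          have := hw' x₀ x
          linarith
        · rintro ⟨u, h1, h2⟩
          have := hq' x u h1
          have := hw' x₀ x
          linarith
    · intro a
      have := closed_one hE hH (Ici a) isClosed_Ici
      convert this using 1
      ext x
      simp only [mem_preimage, mem_Ici, mem_ofPred_eq]
      constructor
      · intro h
        exact ⟨p x, hp x, h⟩
      · rintro ⟨u, h1, h2⟩
        exact h2.trans (hp' x u h1)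
  · intro x y hxy
    apply le_antisymm
    · exact hp' y _ (ht _ _ _ (hs _ _ hxy) (hp x))
    · exact hp' x _ (ht _ _ _ hxy (hp y))
  · intro x
    exact hint (p x) x (hs _ _ (hp x))

end HTAux

theorem hT_proof : Stmt_HT := by
  intro X _ B E Mv H hB hBne hr hs ht hE hH hint htr hmin
  have : CompactSpace B := isCompact_iff_compactSpace.1 hB
  obtain ⟨t, h1, h2, h3⟩ := HTAux.main (Z := B) (fun x y => E x y) (fun x y => Mv x y)
    (fun x => H x) (fun x => hr x x.2) (fun x y => hs x x.2 y y.2)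
    (fun x y z => ht x x.2 y y.2 z z.2)
    (by
      have := hE.preimage (f := fun q : B × B => ((q.1 : X), (q.2 : X))) (by fun_prop)
      convert this using 1
      ext q
      simp)
    (continuousOn_iff_continuous_domRestrict.1 hH)
    (fun x y => hint x x.2 y y.2)
    (by
      intro x x' h u v h1 h2
      obtain ⟨u', hu', v', hv', h3, h4, h5⟩ := htr x x.2 x' x'.2 h u u.2 v v.2 h1 h2
      exact ⟨⟨u', hu'⟩, ⟨v', hv'⟩, h3, h4, h5⟩)
    (by
      intro M hM hne h1 h2
      have h3 := hmin (Subtype.val '' M) (by rintro _ ⟨x, _, rfl⟩; exact x.2)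
        (hB.isClosed.isClosedEmbedding_subtypeVal.isClosedMap _ hM) (hne.image _)
        (by
          rintro _ ⟨x, hx, rfl⟩ y hy hxy
          exact ⟨⟨y, hy⟩, h1 x hx ⟨y, hy⟩ hxy, rfl⟩)
        (by
          rintro _ ⟨x, hx, rfl⟩ y hy hxy
          exact ⟨⟨y, hy⟩, h2 x hx ⟨y, hy⟩ hxy, rfl⟩)
      ext x
      constructor
      · intro _; trivial
      · intro _
        have : (x : X) ∈ Subtype.val '' M := by rw [h3]; exact x.2
        obtain ⟨y, hy, hxy⟩ := this
        rwa [← Subtype.ext hxy])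
  classical
  refine ⟨fun x => if h : x ∈ B then t ⟨x, h⟩ else 0, ?_, ?_, ?_⟩
  · rw [continuousOn_iff_continuous_domRestrict]
    convert h1 using 1
    ext x
    simp
  · intro x hx y hy hxy
    simp only [hx, hy, dite_true]
    exact h2 _ _ hxy
  · intro x hx
    simp only [hx, dite_true]
    exact h3 ⟨x, hx⟩

end Pool.Agent.ACL

end
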