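import Pool.Agent.ACL.Basic

/-!
# Hereditary unicoherence, the lifting principle, no weak triods in the image
-/

set_option autoImplicit false

noncomputable section

namespace Pool.Agent.ACL

open Set Filter Topology LibConfluent

namespace Hu

/-- A continuous function with integer differences is constant on a preconnected set. -/
theorem const_of_int {X : Type} [TopologicalSpace X] {K : Set X} (hK : IsPreconnected K)
    {F : X → ℝ} (hF : ContinuousOn F K) (hint : ∀ x ∈ K, ∀ y ∈ K, ∃ k : ℤ, F x - F y = k) :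
    ∀ x ∈ K, ∀ y ∈ K, F x = F y := by
  have key : ∀ x ∈ K, ∀ y ∈ K, ¬ F x < F y := by
    intro x hx y hy hlt
    obtain ⟨k, hk⟩ := hint y hy x hx
    have hk0 : (0 : ℝ) < k := by rw [← hk]; linarith
    have hk1 : (1 : ℤ) ≤ k := by
      have : (0 : ℤ) < k := by exact_mod_cast hk0
      omega
    have hk2 : (1 : ℝ) ≤ k := by exact_mod_cast hk1
    obtain ⟨z, hz, hz'⟩ := hK.intermediate_value hx hy hF
      (show F x + 1 / 2 ∈ Icc (F x) (F y) from ⟨by linarith, by linarith⟩)
    obtain ⟨j, hj⟩ := hint z hz x hx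
    have h2 : (2 * j : ℝ) = 1 := by rw [← hj, hz']; ring
    have h3 : (2 * j : ℤ) = 1 := by exact_mod_cast h2
    omega
  intro x hx y hy
  exact le_antisymm (not_lt.1 (key y hy x hx)) (not_lt.1 (key x hx y hy))

theorem coe_eq {a b : ℝ} (h : (a : T) = (b : T)) : ∃ k : ℤ, a - b = k := by
  rw [← sub_eq_zero, ← AddCircle.coe_sub, AddCircle.coe_eq_zero_iff] at h
  obtain ⟨n, hn⟩ := h
  exact ⟨n, by rw [← hn]; simp⟩

theorem coe_int (k : ℤ) : ((k : ℝ) : T) = 0 := by
  rw [AddCircle.coe_eq_zero_iff]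
  exact ⟨k, by simp⟩

end Hu

open Hu

theorem hU_proof : Stmt_HU := by
  intro Y _ _ hL A B hA hB
  rw [isPreconnected_closed_iff]
  intro t t' ht ht' hsub hne hne'
  by_contra hcon
  rw [not_nonempty_iff_eq_empty] at hcon
  have hAc := hA.1.isClosed
  have hBc := hB.1.isClosed
  have hd : Disjoint (A ∩ B ∩ t) (A ∩ B ∩ t') := by
    rw [disjoint_iff_inter_eq_empty, ← hcon]
    ext x
    simp only [mem_inter_iff]
    tauto
  obtain ⟨u, hu0, hu1, -⟩ := exists_continuous_zero_one_of_isClosed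
    ((hAc.inter hBc).inter ht) ((hAc.inter hBc).inter ht') hd
  classical
  set g : Y → T := fun y => if y ∈ A then ((u y : ℝ) : T) else 0 with hg
  have hgA : ∀ y ∈ A, g y = ((u y : ℝ) : T) := fun y hy => by simp [hg, hy]
  have hgB : ∀ y ∈ B, g y = 0 := by
    intro y hy
    by_cases hyA : y ∈ A
    · rw [hgA y hyA]
      rcases hsub ⟨hyA, hy⟩ with h | h
      · rw [hu0 ⟨⟨hyA, hy⟩, h⟩]
        simp
      · rw [hu1 ⟨⟨hyA, hy⟩, h⟩]
        have := coe_int 1
        simpa using this
    · simp [hg, hyA]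
  have hcA : ContinuousOn g A :=
    ((AddCircle.continuous_mk' 1).comp u.continuous).continuousOn.congr hgA
  have hcB : ContinuousOn g B := (continuousOn_const (c := (0 : T))).congr hgB
  have hc : ContinuousOn g (A ∪ B) := hcA.union_of_isClosed hcB hAc hBc
  obtain ⟨s1, hs1, hs1'⟩ := hne
  obtain ⟨s2, hs2, hs2'⟩ := hne'
  obtain ⟨h, hh, hlift⟩ := hL (A ∪ B) g (subcont_union hA hB ⟨s1, hs1⟩) hc
  have cB := const_of_int hB.2.isPreconnected (F := h) (hh.mono subset_union_right)
    (fun x hx y hy => by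
      have h1 := hlift x (Or.inr hx)
      have h2 := hlift y (Or.inr hy)
      rw [hgB x hx] at h1
      rw [hgB y hy] at h2
      exact coe_eq (h1.trans h2.symm))
  have cA := const_of_int hA.2.isPreconnected (F := fun y => h y - u y)
    ((hh.mono subset_union_left).sub u.continuous.continuousOn)
    (fun x hx y hy => by
      have h1 := hlift x (Or.inl hx)
      have h2 := hlift y (Or.inl hy)
      rw [hgA x hx] at h1
      rw [hgA y hy] at h2
      obtain ⟨k, hk⟩ := coe_eq h1
      obtain ⟨j, hj⟩ := coe_eq h2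
      exact ⟨k - j, by push_cast; rw [← hk, ← hj]⟩)
  have e1 := cB s1 hs1.2 s2 hs2.2
  have e2 := cA s1 hs1.1 s2 hs2.1
  have e3 : u s1 = 0 := hu0 ⟨hs1, hs1'⟩
  have e4 : u s2 = 1 := hu1 ⟨hs2, hs2'⟩
  simp only [e3, e4] at e2
  linarith

theorem liftP_proof : Stmt_LiftP := by
  intro Y N _ _ _ _ _ p θ hL hp hsurj hθ hint n n' hnn
  have hq : IsQuotientMap p := (hp.isClosedMap).isQuotientMap hp hsurj
  set g : Y → T := fun y => ((θ (Function.surjInv hsurj y) : ℝ) : T) with hg
  have hgp : ∀ m, g (p m) = ((θ m : ℝ) : T) := by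
    intro m
    obtain ⟨k, hk⟩ := hint (Function.surjInv hsurj (p m)) m (Function.surjInv_eq hsurj _)
    simp only [hg]
    rw [← sub_eq_zero, ← AddCircle.coe_sub, hk]
    exact coe_int k
  have hgc : Continuous g := by
    rw [hq.continuous_iff]
    have : g ∘ p = fun m => ((θ m : ℝ) : T) := funext hgp
    rw [this]
    exact (AddCircle.continuous_mk' 1).comp hθ
  have hY : IsSubcontinuum (univ : Set Y) := by
    have := subcont_image (subcont_univ (X := N)) hp
    rwa [image_univ, hsurj.range_eq] at this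
  obtain ⟨h, hh, hlift⟩ := hL univ g hY hgc.continuousOn
  rw [continuousOn_univ] at hh
  have c := const_of_int (isPreconnected_univ (α := N)) (F := fun m => h (p m) - θ m)
    ((hh.comp hp).sub hθ).continuousOn
    (fun x _ y _ => by
      have h1 := (hlift (p x) trivial).trans (hgp x)
      have h2 := (hlift (p y) trivial).trans (hgp y)
      obtain ⟨k, hk⟩ := coe_eq h1
      obtain ⟨j, hj⟩ := coe_eq h2
      exact ⟨k - j, by push_cast; rw [← hk, ← hj]⟩)
  have := c n trivial n' trivial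
  simp only [hnn] at this
  linarith

theorem triodY_proof : Stmt_TriodY := by
  intro X Y _ _ _ _ f hf hX A B C hA hB hC ⟨o, ⟨hoA, hoB⟩, hoC⟩
  obtain ⟨x, rfl⟩ := hf.surjective o
  have cl : ∀ {K : Set Y}, IsSubcontinuum K → f x ∈ K →
      IsSubcontinuum (connectedComponentIn (f ⁻¹' K) x) := fun hK hx =>
    subcont_comp (hK.1.isClosed.preimage hf.continuous) hx
  have me : ∀ {K : Set Y}, f x ∈ K → x ∈ connectedComponentIn (f ⁻¹' K) x := fun hx =>
    mem_connectedComponentIn hx
  have im : ∀ {K K' K'' : Set Y}, IsSubcontinuum K → IsSubcontinuum K' → IsSubcontinuum K'' →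
      f x ∈ K → f x ∈ K' → f x ∈ K'' → connectedComponentIn (f ⁻¹' K) x ⊆
      connectedComponentIn (f ⁻¹' K') x ∪ connectedComponentIn (f ⁻¹' K'') x → K ⊆ K' ∪ K'' := by
    intro K K' K'' hK hK' hK'' h h' h'' hs
    have := image_mono (f := f) hs
    rwa [image_union, image_comp hf hK h, image_comp hf hK' h', image_comp hf hK'' h''] at this
  rcases hX _ _ _ (cl hA hoA) (cl hB hoB) (cl hC hoC) ⟨x, ⟨me hoA, me hoB⟩, me hoC⟩ with h | h | h
  · exact Or.inl (im hA hB hC hoA hoB hoC h)
  · exact Or.inr (Or.inl (im hB hA hC hoB hoA hoC h))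
  · exact Or.inr (Or.inr (im hC hA hB hoC hoA hoB h))

end Pool.Agent.ACL

end
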