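import Pool.Agent.ACL.Stmts

/-!
# Module IND: the indecomposable case
-/

set_option autoImplicit false
set_option linter.unusedSectionVars false

noncomputable section

namespace Pool.Agent.ACL

open Set Filter Topology LibConfluent

namespace Ind

/-- the equivalence relation -/
def Eq' {X Y N : Type} (f : X → Y) (p : N → Y) (G : Set (X × N)) (x x' : X) : Prop :=
  f x = f x' ∧ ∀ n, p n = f x → ((x, n) ∈ G ↔ (x', n) ∈ G)

theorem singleton_cont {Y : Type} [TopologicalSpace Y] (y : Y) : IsSubcontinuum ({y} : Set Y) :=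
  ⟨isCompact_singleton, isConnected_singleton⟩

theorem singleton_ne {Y : Type} [Nontrivial Y] (y : Y) : ({y} : Set Y) ≠ univ := by
  intro h
  obtain ⟨z, hz⟩ := exists_ne y
  have : z ∈ ({y} : Set Y) := by rw [h]; exact mem_univ z
  exact hz this

section

variable {X Y N : Type} [MetricSpace X] [CompactSpace X] [ConnectedSpace X]
  [MetricSpace Y] [CompactSpace Y] [ConnectedSpace Y] [Nontrivial Y] [MetricSpace N]
  [CompactSpace N] [ConnectedSpace N] {f : X → Y} {p : N → Y} {G H : Set (X × N)} {m : ℕ}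
  {η : ℝ}

theorem memGH (hB : Bad f p G H) {x : X} {n : N} : ((x, n) ∈ G ∨ (x, n) ∈ H) ↔ f x = p n := by
  have : (x, n) ∈ G ∪ H ↔ (x, n) ∈ {q : X × N | f q.1 = p q.2} := by rw [hB.union]
  simpa using this

theorem notG (hB : Bad f p G H) {x : X} {n : N} (h : (x, n) ∈ H) : (x, n) ∉ G :=
  fun hG => disjoint_left.1 hB.disj hG h

theorem memH (hB : Bad f p G H) {x : X} {n : N} (h : f x = p n) (hG : (x, n) ∉ G) : (x, n) ∈ H :=
  ((memGH hB).2 h).resolve_left hG

/-- claim A -/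
theorem not_sep_of_eq (hB : Bad f p G H) {K : Set Y} (hK : K ≠ univ) {x x' : X}
    (hE : Eq' f p G x x') : ¬ Sep p G H K x x' := by
  rintro ⟨M, hM, hMK, n, hn, n', hn', h⟩
  have hMu : M ≠ univ := by
    rintro rfl
    apply hK
    rw [← hMK, image_univ, hB.psurj.range_eq]
  have key : ∀ a b : N, a ∈ M → b ∈ M → f x = p a → f x' = p b →
      ((x, a) ∈ G ↔ (x', b) ∈ G) := by
    intro a b ha hb hxa hxb
    rw [hE.2 a hxa.symm]
    have h1 : f x' = p a := hE.1 ▸ hxa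
    exact hB.mono M hM hMu x' x' a ha b hb h1 hxb (mem_connectedComponentIn ⟨a, ha, h1.symm⟩)
  rcases h with ⟨h1, h2⟩ | ⟨h1, h2⟩
  · have e1 := (memGH hB).1 (Or.inl h1)
    have e2 := (memGH hB).1 (Or.inr h2)
    exact notG hB h2 ((key n n' hn hn' e1 e2).1 h1)
  · have e1 := (memGH hB).1 (Or.inr h1)
    have e2 := (memGH hB).1 (Or.inl h2)
    exact notG hB h1 ((key n n' hn hn' e1 e2).2 h2)

/-- proper continua have proper images -/
theorem image_ne (hB : Bad f p G H) {M : Set N} (hM : IsSubcontinuum M) (hMu : M ≠ univ) :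
    p '' M ≠ univ := by
  intro hp
  obtain ⟨n, hn⟩ := hM.2.nonempty
  obtain ⟨x0, h0⟩ := hB.surjG n
  obtain ⟨x1, h1⟩ := hB.surjH n
  have e0 := (memGH hB).1 (Or.inl h0)
  have e1 := (memGH hB).1 (Or.inr h1)
  have hc : x1 ∈ connectedComponentIn (f ⁻¹' (p '' M)) x0 := by
    rw [hp, preimage_univ, connectedComponentIn_univ]
    exact isPreconnected_univ.subset_connectedComponent (mem_univ x0) (mem_univ x1)
  exact notG hB h1 ((hB.mono M hM hMu x0 x1 n hn n hn e0 e1 hc).1 h0)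

theorem union_cont {Z : Type} [TopologicalSpace Z] {A B : Set Z} (hA : IsSubcontinuum A)
    (hB : IsSubcontinuum B) (h : (A ∩ B).Nonempty) : IsSubcontinuum (A ∪ B) :=
  ⟨hA.1.union hB.1, IsConnected.union h hA.2 hB.2⟩

/-- claim B -/
theorem sep_of_not_eq (hDense : Stmt_Dense) (hSepEq : Stmt_SepEq) (hWC : WC p) (hB : Bad f p G H)
    (hC : Counted f p G H m η) (hI : ¬ Decomposable Y) {K : Set Y} (hKc : IsSubcontinuum K)
    (hK : K ≠ univ) (hKη : Dns η K) {x x' : X} (hx : f x ∈ K) (hxx : f x = f x')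
    (hE : ¬ Eq' f p G x x') : Sep p G H K x x' := by
  have hη : 0 < η := hC.2.1
  have : Nontrivial N := hB.psurj.nontrivial
  -- a point of `N` with different colours
  have : ∃ n, p n = f x ∧ ¬ ((x, n) ∈ G ↔ (x', n) ∈ G) := by
    by_contra hcon
    push Not at hcon
    exact hE ⟨hxx, fun n hn => hcon n hn⟩
  obtain ⟨n, hn, hcol⟩ := this
  -- uniform continuity
  have huc := CompactSpace.uniformContinuous_of_continuous hB.pcont
  obtain ⟨ε, hε, hεη⟩ := Metric.uniformContinuous_iff.1 huc η hη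
  obtain ⟨M, hM, hnM, hMu, hMd⟩ := hDense N {n} ε (singleton_cont n) (singleton_ne n) hε
  have hnM' : n ∈ M := hnM rfl
  have hK1 : IsSubcontinuum (p '' M) := ⟨hM.1.image hB.pcont, hM.2.image p hB.pcont.continuousOn⟩
  have hK1u := image_ne hB hM hMu
  have hK1d : Dns η (p '' M) := by
    intro y
    obtain ⟨b, rfl⟩ := hB.psurj y
    obtain ⟨a, ha, hba⟩ := hMd b
    exact ⟨p a, ⟨a, ha, rfl⟩, hεη hba⟩
  have hsep1 : Sep p G H (p '' M) x x' := by
    refine ⟨M, hM, rfl, n, hnM', n, hnM', ?_⟩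
    by_cases h1 : (x, n) ∈ G
    · have h2 : (x', n) ∉ G := fun h => hcol ⟨fun _ => h, fun _ => h1⟩
      exact Or.inl ⟨h1, memH hB (by rw [← hxx, hn]) h2⟩
    · have h2 : (x', n) ∈ G := by
        by_contra h
        exact hcol ⟨fun h' => absurd h' h1, fun h' => absurd h' h⟩
      exact Or.inr ⟨memH hB hn.symm h1, h2⟩
  have hxM : f x ∈ p '' M := ⟨n, hnM', hn⟩
  have hU : IsSubcontinuum (K ∪ p '' M) := union_cont hKc hK1 ⟨f x, hx, hxM⟩
  have hUu : K ∪ p '' M ≠ univ := fun h => hI ⟨K, p '' M, hKc, hK1, hK, hK1u, h⟩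
  have a1 := (hSepEq X Y N f p G H m η hWC hB hC (p '' M) (K ∪ p '' M) hK1 hU hUu
    subset_union_right hK1d).1 x x' hxM (hxx ▸ hxM)
  have a2 := (hSepEq X Y N f p G H m η hWC hB hC K (K ∪ p '' M) hKc hU hUu
    subset_union_left hKη).1 x x' hx (hxx ▸ hx)
  exact a2.2 (a1.1 hsep1)

theorem eq_iff (hDense : Stmt_Dense) (hSepEq : Stmt_SepEq) (hWC : WC p) (hB : Bad f p G H)
    (hC : Counted f p G H m η) (hI : ¬ Decomposable Y) {K : Set Y} (hKc : IsSubcontinuum K)
    (hK : K ≠ univ) (hKη : Dns η K) {x x' : X} (hx : f x ∈ K) (hxx : f x = f x') :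
    Eq' f p G x x' ↔ ¬ Sep p G H K x x' := by
  constructor
  · exact not_sep_of_eq hB hK
  · intro h
    by_contra hE
    exact h (sep_of_not_eq hDense hSepEq hWC hB hC hI hKc hK hKη hx hxx hE)

/-- closedness of the complement -/
theorem closed' (hB : Bad f p G H) : IsClosed {q : X × X | f q.1 = f q.2 ∧ ¬ Eq' f p G q.1 q.2} := by
  have : {q : X × X | f q.1 = f q.2 ∧ ¬ Eq' f p G q.1 q.2} = Prod.fst ''
      {r : (X × X) × N | ((r.1.1, r.2) ∈ G ∧ (r.1.2, r.2) ∈ H) ∨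
        ((r.1.1, r.2) ∈ H ∧ (r.1.2, r.2) ∈ G)} := by
    ext ⟨x, x'⟩
    simp only [mem_ofPred_eq, mem_image, Prod.exists, exists_and_right, exists_eq_right]
    constructor
    · rintro ⟨hf, hE⟩
      have : ∃ n, p n = f x ∧ ¬ ((x, n) ∈ G ↔ (x', n) ∈ G) := by
        by_contra hcon
        push Not at hcon
        exact hE ⟨hf, fun n hn => hcon n hn⟩
      obtain ⟨n, hn, hcol⟩ := this
      refine ⟨n, ?_⟩
      by_cases h1 : (x, n) ∈ G
      · have h2 : (x', n) ∉ G := fun h => hcol ⟨fun _ => h, fun _ => h1⟩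
        exact Or.inl ⟨h1, memH hB (by rw [← hf, hn]) h2⟩
      · have h2 : (x', n) ∈ G := by
          by_contra h
          exact hcol ⟨fun h' => absurd h' h1, fun h' => absurd h' h⟩
        exact Or.inr ⟨memH hB hn.symm h1, h2⟩
    · rintro ⟨n, ⟨h1, h2⟩ | ⟨h1, h2⟩⟩
      · have e1 := (memGH hB).1 (Or.inl h1)
        have e2 := (memGH hB).1 (Or.inr h2)
        exact ⟨e1.trans e2.symm, fun hE => notG hB h2 ((hE.2 n e1.symm).1 h1)⟩
      · have e1 := (memGH hB).1 (Or.inr h1)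
        have e2 := (memGH hB).1 (Or.inl h2)
        exact ⟨e1.trans e2.symm, fun hE => notG hB h1 ((hE.2 n e1.symm).2 h2)⟩
  rw [this]
  refine isClosedMap_fst_of_compactSpace _ ?_
  have c1 : Continuous fun r : (X × X) × N => (r.1.1, r.2) := by fun_prop
  have c2 : Continuous fun r : (X × X) × N => (r.1.2, r.2) := by fun_prop
  exact ((hB.closedG.preimage c1).inter (hB.closedH.preimage c2)).union
    ((hB.closedH.preimage c1).inter (hB.closedG.preimage c2))


section full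

variable (hDense : Stmt_Dense) (hSepB : Stmt_SepB) (hSepEq : Stmt_SepEq) (hWC : WC p)
  (hB : Bad f p G H) (hC : Counted f p G H m η) (hI : ¬ Decomposable Y)

include hDense hC in
/-- large proper subcontinua -/
theorem big (S : Set Y) (hS : IsSubcontinuum S) (hSu : S ≠ univ) :
    ∃ K : Set Y, IsSubcontinuum K ∧ S ⊆ K ∧ K ≠ univ ∧ Dns η K := hDense Y S η hS hSu hC.2.1

include hDense hSepEq hWC hB hC hI in
theorem classes_all {y : Y} {v : Fin m → X} (hv : ∀ i, f (v i) = y)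
    (hvv : ∀ i j, i ≠ j → ¬ Eq' f p G (v i) (v j)) {x : X} (hx : f x = y) :
    ∃ i, Eq' f p G x (v i) := by
  obtain ⟨K, hK, hyK, hKu, hKη⟩ := big hDense hC {y} (singleton_cont y) (singleton_ne y)
  have hy : y ∈ K := hyK rfl
  have hvK : ∀ i, f (v i) ∈ K := fun i => hv i ▸ hy
  obtain ⟨i, hi⟩ := (hSepEq X Y N f p G H m η hWC hB hC K K hK hK hKu subset_rfl hKη).2 v hvK
    (fun i j hij => sep_of_not_eq hDense hSepEq hWC hB hC hI hK hKu hKη (hvK i)
      ((hv i).trans (hv j).symm) (hvv i j hij)) x (hx ▸ hy)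
  exact ⟨i, (eq_iff hDense hSepEq hWC hB hC hI hK hKu hKη (hx ▸ hy) (hx.trans (hv i).symm)).2 hi⟩

include hDense hSepEq hWC hB hC hI in
theorem classes (y : Y) : ∃ v : Fin m → X, (∀ i, f (v i) = y) ∧
    (∀ i j, i ≠ j → ¬ Eq' f p G (v i) (v j)) ∧ ∀ x, f x = y → ∃ i, Eq' f p G x (v i) := by
  obtain ⟨K, hK, hyK, hKu, hKη⟩ := big hDense hC {y} (singleton_cont y) (singleton_ne y)
  have hy : y ∈ K := hyK rfl
  obtain ⟨v, hv, hvv⟩ := hC.2.2.1 K hK hKu y hy
  have hvv' : ∀ i j, i ≠ j → ¬ Eq' f p G (v i) (v j) := fun i j hij hE =>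
    not_sep_of_eq hB hKu hE (hvv i j hij)
  exact ⟨v, hv, hvv', fun x hx => classes_all hDense hSepEq hWC hB hC hI hv hvv' hx⟩

theorem Eq'.symm {x x' : X} (h : Eq' f p G x x') : Eq' f p G x' x :=
  ⟨h.1.symm, fun n hn => (h.2 n (h.1 ▸ hn)).symm⟩

theorem Eq'.trans {x x' x'' : X} (h : Eq' f p G x x') (h' : Eq' f p G x' x'') :
    Eq' f p G x x'' :=
  ⟨h.1.trans h'.1, fun n hn => (h.2 n hn).trans (h'.2 n (h.1 ▸ hn))⟩

include hDense hSepEq hWC hB hC hI in
theorem closedE : IsClosed {q : X × X | Eq' f p G q.1 q.2} := by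
  have hf : Continuous f := hB.conf.continuous
  let R : Set (X × X) := {q | f q.1 = f q.2 ∧ ¬ Eq' f p G q.1 q.2}
  have hR : IsClosed R := closed' hB
  have hset : {q : X × X | Eq' f p G q.1 q.2} = ⋃ i : Fin m, Prod.fst ''
      {r : (X × X) × (Fin m → X) | f r.1.1 = f r.1.2 ∧ (∀ k, f (r.2 k) = f r.1.1) ∧
        (∀ a b, a ≠ b → (r.2 a, r.2 b) ∈ R) ∧ (∀ a, a ≠ i → (r.1.1, r.2 a) ∈ R) ∧
        ∀ a, a ≠ i → (r.1.2, r.2 a) ∈ R} := by
    ext ⟨x, x'⟩
    simp only [mem_ofPred_eq, mem_iUnion, mem_image, Prod.exists, exists_and_right,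
      exists_eq_right, R]
    constructor
    · intro hE
      obtain ⟨v, hv, hvv, hcl⟩ := classes hDense hSepEq hWC hB hC hI (f x)
      obtain ⟨i, hi⟩ := hcl x rfl
      refine ⟨i, v, hE.1, hv, fun a b hab => ⟨(hv a).trans (hv b).symm, hvv a b hab⟩,
        fun a ha => ⟨(hv a).symm, fun h => hvv i a (Ne.symm ha) (hi.symm.trans h)⟩,
        fun a ha => ⟨hE.1.symm.trans (hv a).symm, fun h => hvv i a (Ne.symm ha) ?_⟩⟩
      exact hi.symm.trans (hE.trans h)
    · rintro ⟨i, v, hxx, hv, hvv, hx, hx'⟩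
      have hvv' : ∀ a b, a ≠ b → ¬ Eq' f p G (v a) (v b) := fun a b hab => (hvv a b hab).2
      obtain ⟨a, ha⟩ := classes_all hDense hSepEq hWC hB hC hI hv hvv' (x := x) rfl
      obtain ⟨b, hb⟩ := classes_all hDense hSepEq hWC hB hC hI hv hvv' (x := x') hxx.symm
      have hai : a = i := by
        by_contra h
        exact (hx a h).2 ha
      have hbi : b = i := by
        by_contra h
        exact (hx' b h).2 hb
      subst hai
      subst hbi
      exact ha.trans hb.symm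
  rw [hset]
  refine isClosed_iUnion_of_finite fun i => isClosedMap_fst_of_compactSpace _ ?_
  have h0 : IsClosed {r : (X × X) × (Fin m → X) | f r.1.1 = f r.1.2} :=
    isClosed_eq (by fun_prop) (by fun_prop)
  have h1 : IsClosed {r : (X × X) × (Fin m → X) | ∀ k, f (r.2 k) = f r.1.1} := by
    have : {r : (X × X) × (Fin m → X) | ∀ k, f (r.2 k) = f r.1.1} =
        ⋂ k, {r : (X × X) × (Fin m → X) | f (r.2 k) = f r.1.1} := by
      ext r; simp
    rw [this]
    exact isClosed_iInter fun k => isClosed_eq (by fun_prop) (by fun_prop)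
  have h2 : IsClosed {r : (X × X) × (Fin m → X) | ∀ a b, a ≠ b → (r.2 a, r.2 b) ∈ R} := by
    have : {r : (X × X) × (Fin m → X) | ∀ a b, a ≠ b → (r.2 a, r.2 b) ∈ R} =
        ⋂ a, ⋂ b, ⋂ (_ : a ≠ b), (fun r : (X × X) × (Fin m → X) => (r.2 a, r.2 b)) ⁻¹' R := by
      ext r; simp
    rw [this]
    exact isClosed_iInter fun a => isClosed_iInter fun b => isClosed_iInter fun _ =>
      hR.preimage (by fun_prop)
  have h3 : IsClosed {r : (X × X) × (Fin m → X) | ∀ a, a ≠ i → (r.1.1, r.2 a) ∈ R} := by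
    have : {r : (X × X) × (Fin m → X) | ∀ a, a ≠ i → (r.1.1, r.2 a) ∈ R} =
        ⋂ a, ⋂ (_ : a ≠ i), (fun r : (X × X) × (Fin m → X) => (r.1.1, r.2 a)) ⁻¹' R := by
      ext r; simp
    rw [this]
    exact isClosed_iInter fun a => isClosed_iInter fun _ => hR.preimage (by fun_prop)
  have h4 : IsClosed {r : (X × X) × (Fin m → X) | ∀ a, a ≠ i → (r.1.2, r.2 a) ∈ R} := by
    have : {r : (X × X) × (Fin m → X) | ∀ a, a ≠ i → (r.1.2, r.2 a) ∈ R} =
        ⋂ a, ⋂ (_ : a ≠ i), (fun r : (X × X) × (Fin m → X) => (r.1.2, r.2 a)) ⁻¹' R := by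
      ext r; simp
    rw [this]
    exact isClosed_iInter fun a => isClosed_iInter fun _ => hR.preimage (by fun_prop)
  exact h0.inter (h1.inter (h2.inter (h3.inter h4)))

include hDense hSepB hSepEq hWC hB hC hI in
theorem triv (S : Set Y) (hS : IsSubcontinuum S) (hSu : S ≠ univ) : ∃ lab : X → Fin m,
    ContinuousOn lab (f ⁻¹' S) ∧
    ∀ x x', f x ∈ S → f x = f x' → (lab x = lab x' ↔ Eq' f p G x x') := by
  obtain ⟨K, hK, hSK, hKu, hKη⟩ := big hDense hC S hS hSu
  obtain ⟨k, hk⟩ := hK.2.nonempty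
  obtain ⟨v, hv, hvv⟩ := hC.2.2.1 K hK hKu k hk
  obtain ⟨-, hsymm, htrans, -, hclosed, -⟩ := hSepB X Y N f p G H hB K hK hKu
  have hvK : ∀ i, f (v i) ∈ K := fun i => hv i ▸ hk
  have hex : ∀ x, f x ∈ K → ∃ i, ¬ Sep p G H K x (v i) :=
    (hSepEq X Y N f p G H m η hWC hB hC K K hK hK hKu subset_rfl hKη).2 v hvK hvv
  have hsymm' : ∀ x x', ¬ Sep p G H K x x' → ¬ Sep p G H K x' x := fun x x' h h' =>
    h (hsymm x' x h')
  have huniq : ∀ x, f x ∈ K → ∀ i j, ¬ Sep p G H K x (v i) → ¬ Sep p G H K x (v j) → i = j := by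
    intro x hx i j hi hj
    by_contra hij
    exact htrans (v i) x (v j) (hvK i) hx (hvK j) (hsymm' _ _ hi) hj (hvv i j hij)
  have hm : 0 < m := by have := hC.1; omega
  classical
  let lab : X → Fin m := fun x => if h : f x ∈ K then (hex x h).choose else ⟨0, hm⟩
  have hlab : ∀ x, f x ∈ K → ¬ Sep p G H K x (v (lab x)) := by
    intro x hx
    simp only [lab, dif_pos hx]
    exact (hex x hx).choose_spec
  have hlab_iff : ∀ x, f x ∈ K → ∀ i, lab x = i ↔ ¬ Sep p G H K x (v i) := by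
    intro x hx i
    constructor
    · rintro rfl
      exact hlab x hx
    · intro h
      exact huniq x hx _ _ (hlab x hx) h
  refine ⟨lab, ?_, ?_⟩
  · rw [continuousOn_iff_isClosed]
    intro t _
    refine ⟨⋃ i ∈ t, {x | f x ∈ K ∧ ¬ Sep p G H K x (v i)},
      Set.Finite.isClosed_biUnion (Set.toFinite t) fun i _ => hclosed (v i) (hvK i), ?_⟩
    ext x
    simp only [mem_inter_iff, mem_preimage, mem_iUnion, mem_ofPred_eq, exists_prop]
    constructor
    · rintro ⟨h1, h2⟩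
      exact ⟨⟨lab x, h1, hSK h2, hlab x (hSK h2)⟩, h2⟩
    · rintro ⟨⟨i, hi, hx, hs⟩, h2⟩
      rw [(hlab_iff x hx i).2 hs]
      exact ⟨hi, h2⟩
  · intro x x' hx hxx
    have hx' : f x' ∈ S := hxx ▸ hx
    rw [eq_iff hDense hSepEq hWC hB hC hI hK hKu hKη (hSK hx) hxx]
    rw [hlab_iff x (hSK hx)]
    constructor
    · intro h
      exact htrans x (v (lab x')) x' (hSK hx) (hvK _) (hSK hx') h (hsymm' _ _ (hlab x' (hSK hx')))
    · intro h
      exact htrans x x' (v (lab x')) (hSK hx) (hSK hx') (hvK _) h (hlab x' (hSK hx'))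

end full

end

end Ind

theorem ind_proof (hDense : Stmt_Dense) (hSepB : Stmt_SepB) (hSepEq : Stmt_SepEq) :
    Stmt_Ind := by
  intro X Y N _ _ _ _ _ _ _ _ _ _ f p G H m η hWC hB hC hI
  refine ⟨Ind.Eq' f p G, ?_⟩
  exact
    { sub := fun x x' h => h.1
      refl := fun x => ⟨rfl, fun n _ => Iff.rfl⟩
      symm := fun x x' h => h.symm
      trans := fun x x' x'' h h' => h.trans h'
      closed := Ind.closedE hDense hSepEq hWC hB hC hI
      closed' := Ind.closed' hB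
      classes := Ind.classes hDense hSepEq hWC hB hC hI
      triv := Ind.triv hDense hSepB hSepEq hWC hB hC hI }

end Pool.Agent.ACL

end
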