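import Pool.Agent.ACL.Stmts

/-!
# Labels of coverings dominated by an arc-like space (module LAB)
-/

set_option autoImplicit false
set_option linter.unusedSectionVars false

noncomputable section

namespace Pool.Agent.ACL

open Set Filter Topology LibConfluent

namespace Lab

variable {X Y : Type} [MetricSpace X] [CompactSpace X] [MetricSpace Y] [CompactSpace Y]
  {f : X → Y} {E : X → X → Prop} {m : ℕ}

/-- close pairs have the same status. -/
theorem close (h : Cov f E m) : ∃ δ : ℝ, 0 < δ ∧ ∀ x x' u u' : X, f x = f x' → f u = f u' →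
    dist x u < δ → dist x' u' < δ → (E x x' ↔ E u u') := by
  have hd : Disjoint {q : X × X | E q.1 q.2} {q : X × X | f q.1 = f q.2 ∧ ¬ E q.1 q.2} := by
    rw [Set.disjoint_left]
    rintro q h1 ⟨_, h2⟩
    exact h2 h1
  obtain ⟨r, hr, hr'⟩ := Metric.exists_pos_forall_lt_edist h.closed.isCompact h.closed' hd
  have key : ∀ x x' u u' : X, f u = f u' → dist x u < r → dist x' u' < r → E x x' → E u u' := by
    intro x x' u u' hu h1 h2 hE
    by_contra hn
    have h3 := hr' (x, x') hE (u, u') ⟨hu, hn⟩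
    rw [Prod.edist_eq] at h3
    have e1 : edist x u < (r : ENNReal) := by
      rw [edist_nndist]
      exact_mod_cast (show nndist x u < r from by exact_mod_cast h1)
    have e2 : edist x' u' < (r : ENNReal) := by
      rw [edist_nndist]
      exact_mod_cast (show nndist x' u' < r from by exact_mod_cast h2)
    exact absurd h3 (not_lt.2 (max_le e1.le e2.le))
  refine ⟨r, by exact_mod_cast hr, fun x x' u u' hx hu h1 h2 => ⟨key x x' u u' hu h1 h2, ?_⟩⟩
  exact key u u' x x' hx (by rw [dist_comm]; exact h1) (by rw [dist_comm]; exact h2)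

/-- local labels. -/
structure Loc (f : X → Y) (E : X → X → Prop) (m : ℕ) (δ : ℝ) (V : Set Y) (lam : X → Fin m) :
    Prop where
  closedV : IsClosed V
  unif : ∀ x x', f x ∈ V → f x' ∈ V → dist x x' < δ → lam x = lam x'
  iff : ∀ x x', f x ∈ V → f x = f x' → (lam x = lam x' ↔ E x x')
  surj : ∀ y ∈ V, ∀ i, ∃ x, f x = y ∧ lam x = i

theorem loc (hf : Continuous f) (h : Cov f E m) : ∃ δ : ℝ, 0 < δ ∧ ∀ y : Y, ∃ V ∈ 𝓝 y,
    ∃ lam : X → Fin m, Loc f E m δ V lam := by
  obtain ⟨δ, hδ, hc⟩ := close h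
  refine ⟨δ / 3, by positivity, fun y => ?_⟩
  obtain ⟨v, hv1, hv2, hv3⟩ := h.classes y
  set O : Set X := {x | ∃ u, f u = y ∧ dist x u < δ / 3} with hO
  have hOo : IsOpen O := by
    have : O = ⋃ u ∈ {u | f u = y}, Metric.ball u (δ / 3) := by
      ext x
      simp only [hO, Set.mem_ofPred_eq, Set.mem_iUnion, Metric.mem_ball, exists_prop]
    rw [this]
    exact isOpen_biUnion fun u _ => Metric.isOpen_ball
  have hcl : IsClosed (f '' Oᶜ) := (hOo.isClosed_compl.isCompact.image hf).isClosed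
  have hy : (f '' Oᶜ)ᶜ ∈ 𝓝 y := by
    apply hcl.isOpen_compl.mem_nhds
    rintro ⟨x, hx, hxy⟩
    exact hx ⟨x, hxy, by rw [dist_self]; positivity⟩
  obtain ⟨ρ, hρ, hρV⟩ := Metric.nhds_basis_closedBall.mem_iff.1 hy
  have hU : ∀ x, f x ∈ Metric.closedBall y ρ → ∃ u, f u = y ∧ dist x u < δ / 3 := by
    intro x hx
    by_contra hn
    exact hρV hx ⟨x, hn, rfl⟩
  have key : ∀ x, ∃ i : Fin m, f x ∈ Metric.closedBall y ρ →
      ∃ u, f u = y ∧ dist x u < δ / 3 ∧ E u (v i) := by
    intro x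
    by_cases hx : f x ∈ Metric.closedBall y ρ
    · obtain ⟨u, hu, hxu⟩ := hU x hx
      obtain ⟨i, hi⟩ := hv3 u hu
      exact ⟨i, fun _ => ⟨u, hu, hxu, hi⟩⟩
    · obtain ⟨v', _, _, hv'⟩ := h.classes (f x)
      obtain ⟨i, _⟩ := hv' x rfl
      exact ⟨i, fun hc => absurd hc hx⟩
  choose lam hlam using key
  have hlamE : ∀ u u' i j, f u = y → f u' = y → E u (v i) → E u' (v j) → (i = j ↔ E u u') := by
    intro u u' i j hu hu' hi hj
    constructor
    · rintro rfl
      exact h.trans _ _ _ hi (h.symm _ _ hj)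
    · intro huu
      by_contra hij
      exact hv2 i j hij (h.trans _ _ _ (h.symm _ _ hi) (h.trans _ _ _ huu hj))
  have hiff : ∀ x x', f x ∈ Metric.closedBall y ρ → f x = f x' → (lam x = lam x' ↔ E x x') := by
    intro x x' hx hxx
    obtain ⟨u, hu, hxu, hi⟩ := hlam x hx
    obtain ⟨u', hu', hxu', hi'⟩ := hlam x' (hxx ▸ hx)
    rw [hlamE u u' _ _ hu hu' hi hi']
    exact (hc x x' u u' hxx (hu.trans hu'.symm) (by linarith) (by linarith)).symm
  refine ⟨Metric.closedBall y ρ, Metric.closedBall_mem_nhds y hρ, lam, Metric.isClosed_closedBall,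
    ?_, hiff, ?_⟩
  · intro x x' hx hx' hd
    obtain ⟨u, hu, hxu, hi⟩ := hlam x hx
    obtain ⟨u', hu', hxu', hi'⟩ := hlam x' hx'
    rw [hlamE u u' _ _ hu hu' hi hi']
    refine (hc u u u u' rfl (hu.trans hu'.symm) (by rw [dist_self]; exact hδ) ?_).1 (h.refl u)
    have h1 := dist_triangle u x u'
    have h2 := dist_triangle x x' u'
    rw [dist_comm u x] at h1
    linarith
  · intro y' hy' i
    obtain ⟨v', hv1', hv2', hv3'⟩ := h.classes y'
    have hinj : Function.Injective (fun i => lam (v' i)) := by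
      intro i j hij
      by_contra hne
      exact hv2' i j hne ((hiff _ _ (by rw [hv1']; exact hy') (by rw [hv1', hv1'])).1 hij)
    obtain ⟨j, hj⟩ := (Finite.injective_iff_surjective.1 hinj) i
    exact ⟨v' j, hv1' j, hj⟩

/-- transitions are locally constant. -/
theorem trans_const (hf : Continuous f) {δ : ℝ} (hδ : 0 < δ) {V V' : Set Y} {lam lam' : X → Fin m}
    (h1 : Loc f E m δ V lam) (h2 : Loc f E m δ V' lam') : ∃ ε : ℝ, 0 < ε ∧ ∀ x x', f x ∈ V →
    f x ∈ V' → f x' ∈ V → f x' ∈ V' → dist (f x) (f x') < ε → lam x = lam x' →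
    lam' x = lam' x' := by
  set K : Set (X × X) := {q | (f q.1 ∈ V ∧ f q.1 ∈ V' ∧ f q.2 ∈ V ∧ f q.2 ∈ V') ∧
    lam q.1 = lam q.2 ∧ lam' q.1 ≠ lam' q.2} with hK
  have hKc : IsClosed K := by
    apply IsSeqClosed.isClosed
    intro q a hq ha
    have hW : IsClosed {q : X × X | f q.1 ∈ V ∧ f q.1 ∈ V' ∧ f q.2 ∈ V ∧ f q.2 ∈ V'} :=
      (h1.closedV.preimage (hf.comp continuous_fst)).inter
        ((h2.closedV.preimage (hf.comp continuous_fst)).inter
          ((h1.closedV.preimage (hf.comp continuous_snd)).inter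
            (h2.closedV.preimage (hf.comp continuous_snd))))
    have haW := hW.mem_of_tendsto ha (Filter.Eventually.of_forall fun n => (hq n).1)
    obtain ⟨n, hn⟩ := ((Metric.tendsto_nhds.1 ha) δ hδ).exists
    rw [Prod.dist_eq, max_lt_iff] at hn
    obtain ⟨⟨w1, w2, w3, w4⟩, w5, w6⟩ := hq n
    obtain ⟨z1, z2, z3, z4⟩ := haW
    refine ⟨⟨z1, z2, z3, z4⟩, ?_, ?_⟩
    · rw [← h1.unif _ _ w1 z1 hn.1, ← h1.unif _ _ w3 z3 hn.2]; exact w5
    · rw [← h2.unif _ _ w2 z2 hn.1, ← h2.unif _ _ w4 z4 hn.2]; exact w6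
  rcases K.eq_empty_or_nonempty with hE | hne
  · refine ⟨1, one_pos, fun x x' a b c d _ hl => ?_⟩
    by_contra hn
    have : (x, x') ∈ K := ⟨⟨a, b, c, d⟩, hl, hn⟩
    rw [hE] at this
    exact this
  · obtain ⟨q, hq, hmin⟩ := hKc.isCompact.exists_isMinOn hne
      (f := fun q : X × X => dist (f q.1) (f q.2))
      ((hf.comp continuous_fst).dist (hf.comp continuous_snd)).continuousOn
    refine ⟨dist (f q.1) (f q.2), ?_, fun x x' a b c d hd hl => ?_⟩
    · rw [dist_pos]
      intro he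
      obtain ⟨⟨w1, w2, w3, w4⟩, w5, w6⟩ := hq
      exact w6 ((h2.iff _ _ w2 he).2 ((h1.iff _ _ w1 he).1 w5))
    · by_contra hn
      have h3 : (x, x') ∈ K := ⟨⟨a, b, c, d⟩, hl, hn⟩
      have h4 : dist (f q.1) (f q.2) ≤ dist (f x) (f x') := hmin h3
      linarith

theorem pos_lower {ι : Type} (s : Finset ι) (e : ι → ℝ) (he : ∀ i, 0 < e i) :
    ∃ ε : ℝ, 0 < ε ∧ ∀ i ∈ s, ε ≤ e i := by
  classical
  induction s using Finset.induction_on with
  | empty => exact ⟨1, one_pos, fun i hi => absurd hi (Finset.notMem_empty i)⟩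
  | insert a s _ ih =>
    obtain ⟨ε, hε, h⟩ := ih
    refine ⟨min ε (e a), lt_min hε (he a), fun i hi => ?_⟩
    rcases Finset.mem_insert.1 hi with rfl | hi
    · exact min_le_right _ _
    · exact (min_le_left _ _).trans (h i hi)

end Lab

open Lab

theorem lab_proof : Stmt_Lab := by
  intro X Y _ _ _ _ f E m hX hf h
  rcases isEmpty_or_nonempty X with hXe | hXn
  · exact ⟨fun x => isEmptyElim x, fun x => isEmptyElim x, fun x => isEmptyElim x, fun i => by
      have : {q : X × X | f q.1 = f q.2 ∧ (fun x : X => (isEmptyElim x : X → Fin m)) q.1 q.2 = i} = ∅ := by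
        ext q
        exact isEmptyElim q.1
      rw [this]
      exact isClosed_empty⟩
  obtain ⟨δ, hδ, hloc⟩ := loc hf h
  choose V hV lam hlam using hloc
  obtain ⟨t, ht⟩ := CompactSpace.elim_nhds_subcover (fun y => interior (V y))
    (fun y => interior_mem_nhds.2 (hV y))
  obtain ⟨εL, hεL, hL⟩ := lebesgue_number_lemma_of_metric (s := (univ : Set Y)) isCompact_univ
    (c := fun a : {y // y ∈ t} => interior (V a.1)) (fun a => isOpen_interior) (by
      intro y _
      have : y ∈ ⋃ x ∈ t, interior (V x) := by rw [ht]; trivial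
      simp only [Set.mem_iUnion] at this ⊢
      obtain ⟨a, ha, hy⟩ := this
      exact ⟨⟨a, ha⟩, hy⟩)
  have htr : ∀ p : Y × Y, ∃ ε : ℝ, 0 < ε ∧ ∀ x x', f x ∈ V p.1 → f x ∈ V p.2 → f x' ∈ V p.1 →
      f x' ∈ V p.2 → dist (f x) (f x') < ε → lam p.1 x = lam p.1 x' → lam p.2 x = lam p.2 x' :=
    fun p => trans_const hf hδ (hlam p.1) (hlam p.2)
  choose e he0 he using htr
  obtain ⟨ε₁, hε₁, hmin⟩ := pos_lower (t ×ˢ t) e he0
  set ρ := min εL ε₁ with hρ
  have hρ0 : 0 < ρ := lt_min hεL hε₁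
  obtain ⟨ε', hε', hfu⟩ := Metric.uniformContinuous_iff.1
    (CompactSpace.uniformContinuous_of_continuous hf) ρ hρ0
  obtain ⟨g, hg, δc, hδc, hgd⟩ := hX ε' hε'
  obtain ⟨c, hc⟩ := (isCompact_range hg).bddBelow
  have hc' : ∀ x, c ≤ g x := fun x => hc (Set.mem_range_self x)
  set η := δc / 3 with hη
  have hη0 : 0 < η := by positivity
  set k : X → ℕ := fun x => ⌊(g x - c) / η⌋₊ with hk
  have hk1 : ∀ x, (k x : ℝ) * η ≤ g x - c := fun x => by
    have h0 : 0 ≤ (g x - c) / η := div_nonneg (sub_nonneg.2 (hc' x)) hη0.le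
    have := Nat.floor_le h0
    exact (le_div_iff₀ hη0).1 this
  have hk2 : ∀ x, g x - c < ((k x : ℝ) + 1) * η := fun x => by
    have := Nat.lt_floor_add_one ((g x - c) / η)
    exact (div_lt_iff₀ hη0).1 this
  have hclose : ∀ x u, k x ≤ k u + 2 → k u ≤ k x + 2 → dist (f x) (f u) < ρ := by
    intro x u h1 h2
    apply hfu
    apply hgd
    have a1 := hk1 x
    have a2 := hk2 x
    have a3 := hk1 u
    have a4 := hk2 u
    have h1' : (k x : ℝ) ≤ k u + 2 := by exact_mod_cast h1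
    have h2' : (k u : ℝ) ≤ k x + 2 := by exact_mod_cast h2
    rw [abs_lt]
    constructor <;> nlinarith
  have ha : ∀ j : ℕ, ∃ a ∈ t, ∀ x, k x ≤ j + 1 → j ≤ k x + 1 → f x ∈ V a := by
    intro j
    by_cases hj : ∃ x, k x ≤ j + 1 ∧ j ≤ k x + 1
    · obtain ⟨x₀, h1, h2⟩ := hj
      obtain ⟨a, haV⟩ := hL (f x₀) (Set.mem_univ _)
      refine ⟨a.1, a.2, fun x h3 h4 => interior_subset (haV ?_)⟩
      rw [Metric.mem_ball]
      exact (hclose x x₀ (by omega) (by omega)).trans_le (min_le_left _ _)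
    · obtain ⟨a, haV⟩ := hL (f hXn.some) (Set.mem_univ _)
      exact ⟨a.1, a.2, fun x h3 h4 => absurd ⟨x, h3, h4⟩ hj⟩
  choose a hat haV using ha
  have hτ : ∀ j : ℕ, ∃ τ : Equiv.Perm (Fin m), ∀ x x', j ≤ k x → k x ≤ j + 1 → f x = f x' →
      lam (a (j + 1)) x' = τ (lam (a j) x') := by
    intro j
    by_cases hj : ∃ x, j ≤ k x ∧ k x ≤ j + 1
    · obtain ⟨x₀, h1, h2⟩ := hj
      have hx0 : f x₀ ∈ V (a j) := haV j x₀ h2 (by omega)
      have hx1 : f x₀ ∈ V (a (j + 1)) := haV (j + 1) x₀ (by omega) (by omega)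
      choose w hw1 hw2 using (hlam (a j)).surj (f x₀) hx0
      have hinj : Function.Injective (fun i => lam (a (j + 1)) (w i)) := by
        intro i i' hii
        have h3 := ((hlam (a (j + 1))).iff (w i) (w i') (by rw [hw1]; exact hx1)
          (by rw [hw1, hw1])).1 hii
        have h4 := ((hlam (a j)).iff (w i) (w i') (by rw [hw1]; exact hx0) (by rw [hw1, hw1])).2 h3
        rw [hw2, hw2] at h4
        exact h4
      refine ⟨Equiv.ofBijective _ (Finite.injective_iff_bijective.1 hinj), ?_⟩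
      intro x x' h3 h4 h5
      rw [Equiv.ofBijective_apply]
      have hd : dist (f x') (f (w (lam (a j) x'))) < e (a j, a (j + 1)) := by
        rw [hw1, ← h5]
        exact (hclose x x₀ (by omega) (by omega)).trans_le ((min_le_right _ _).trans
          (hmin _ (Finset.mk_mem_product (hat j) (hat (j + 1)))))
      apply he (a j, a (j + 1)) x' (w (lam (a j) x')) _ _ _ _ hd
      · exact (hw2 _).symm
      · rw [← h5]; exact haV j x h4 (by omega)
      · rw [← h5]; exact haV (j + 1) x (by omega) (by omega)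
      · rw [hw1]; exact hx0
      · rw [hw1]; exact hx1
    · exact ⟨1, fun x x' h3 h4 _ => absurd ⟨x, h3, h4⟩ hj⟩
  choose τ hτ using hτ
  let π : ℕ → Equiv.Perm (Fin m) := fun j => Nat.rec 1 (fun j p => p * (τ j)⁻¹) j
  have hπ : ∀ j, π (j + 1) = π j * (τ j)⁻¹ := fun j => rfl
  have key : ∀ j x x', j ≤ k x → k x ≤ j + 1 → f x = f x' →
      π j (lam (a j) x') = π (j + 1) (lam (a (j + 1)) x') := by
    intro j x x' h1 h2 h3
    rw [hτ j x x' h1 h2 h3, hπ, Equiv.Perm.mul_apply]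
    exact congrArg (π j) ((τ j).symm_apply_apply _).symm
  refine ⟨fun x x' => π (k x) (lam (a (k x)) x'), ?_, ?_, ?_⟩
  · intro x x' x'' h1 h2
    rw [(π (k x)).injective.eq_iff]
    have hx := haV (k x) x (by omega) (by omega)
    exact (hlam _).iff x' x'' (by rw [← h1]; exact hx) (by rw [← h1, ← h2])
  · intro x i
    have hx := haV (k x) x (by omega) (by omega)
    obtain ⟨x', h1, h2⟩ := (hlam (a (k x))).surj (f x) hx ((π (k x))⁻¹ i)
    refine ⟨x', h1.symm, ?_⟩
    change π (k x) (lam (a (k x)) x') = i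
    rw [h2]
    exact (π (k x)).apply_symm_apply i
  · intro i
    apply IsSeqClosed.isClosed
    intro q b hq hb
    have hfb : f b.1 = f b.2 :=
      (isClosed_eq (hf.comp continuous_fst) (hf.comp continuous_snd)).mem_of_tendsto hb
        (Filter.Eventually.of_forall fun n => (hq n).1)
    have hb1 : Tendsto (fun n => (q n).1) atTop (𝓝 b.1) := (continuous_fst.tendsto b).comp hb
    have e1 := (Metric.tendsto_nhds.1 hb) δ hδ
    have e2 := (Metric.tendsto_nhds.1 ((hg.tendsto b.1).comp hb1)) η hη0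
    obtain ⟨n, hn1, hn2⟩ := (e1.and e2).exists
    obtain ⟨hq1, hq2⟩ := hq n
    rw [Prod.dist_eq, max_lt_iff] at hn1
    simp only [Function.comp_apply, Real.dist_eq, abs_lt] at hn2
    refine ⟨hfb, ?_⟩
    change π (k b.1) (lam (a (k b.1)) b.2) = i
    change π (k (q n).1) (lam (a (k (q n).1)) (q n).2) = i at hq2
    rw [← hq2]
    have a1 := hk1 b.1
    have a2 := hk2 b.1
    have a3 := hk1 (q n).1
    have a4 := hk2 (q n).1
    have h1 : k b.1 ≤ k (q n).1 + 1 := by
      by_contra hcon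
      have : (k (q n).1 : ℝ) + 2 ≤ k b.1 := by exact_mod_cast (by omega : k (q n).1 + 2 ≤ k b.1)
      nlinarith
    have h2 : k (q n).1 ≤ k b.1 + 1 := by
      by_contra hcon
      have : (k b.1 : ℝ) + 2 ≤ k (q n).1 := by exact_mod_cast (by omega : k b.1 + 2 ≤ k (q n).1)
      nlinarith
    have hun : ∀ j, k b.1 ≤ j + 1 → j ≤ k b.1 + 1 → k (q n).1 ≤ j + 1 → j ≤ k (q n).1 + 1 →
        lam (a j) b.2 = lam (a j) (q n).2 := by
      intro j c1 c2 c3 c4
      apply (hlam (a j)).unif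
      · rw [← hfb]; exact haV j _ c1 c2
      · rw [← hq1]; exact haV j _ c3 c4
      · rw [dist_comm]; exact hn1.2
    rcases (by omega : k b.1 = k (q n).1 ∨ k b.1 = k (q n).1 + 1 ∨ k (q n).1 = k b.1 + 1) with
      h3 | h3 | h3
    · rw [h3, hun _ (by omega) (by omega) (by omega) (by omega)]
    · rw [h3, ← key (k (q n).1) b.1 b.2 (by omega) (by omega) hfb,
        hun _ (by omega) (by omega) (by omega) (by omega)]
    · rw [h3, ← key (k b.1) (q n).1 (q n).2 (by omega) (by omega) hq1,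
        hun _ (by omega) (by omega) (by omega) (by omega)]

end Pool.Agent.ACL

end
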