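import Pool.Agent.ACL.Min

/-!
# Confluent images inherit the lifting property
-/

set_option autoImplicit false

noncomputable section

namespace Pool.Agent.ACL.LiftY

open Set Filter Topology LibConfluent

/-- the standard section of `ℝ → T` -/
def sec (t : T) : ℝ := (AddCircle.equivIco (1 : ℝ) (-1 / 2) t : ℝ)

theorem coe_sec (t : T) : ((sec t : ℝ) : T) = t := AddCircle.coe_equivIco

theorem continuousAt_sec {t : T} (h : t ≠ ((-1 / 2 : ℝ) : T)) : ContinuousAt sec t :=
  continuous_subtype_val.continuousAt.comp (AddCircle.continuousAt_equivIco (1 : ℝ) (-1 / 2) h)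

theorem zero_ne : (0 : T) ≠ ((-1 / 2 : ℝ) : T) := by
  intro h
  have h1 := AddCircle.coe_eq_zero_iff (1 : ℝ) |>.mp h.symm
  obtain ⟨n, hn⟩ := h1
  have h2 : (n : ℝ) = -1 / 2 := by simpa using hn
  have h3 : (2 * n : ℝ) = -1 := by linarith
  have h4 : 2 * n = -1 := by exact_mod_cast h3
  omega

theorem coe_sub_int {a b : ℝ} (h : (a : T) = (b : T)) : ∃ k : ℤ, a - b = k := by
  have h0 : ((a - b : ℝ) : T) = 0 := by
    rw [AddCircle.coe_sub, h, sub_self]
  obtain ⟨n, hn⟩ := (AddCircle.coe_eq_zero_iff (1 : ℝ)).mp h0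
  exact ⟨n, by rw [← hn]; simp⟩

theorem coe_eq_of_int {a b : ℝ} (h : ∃ k : ℤ, a - b = k) : (a : T) = (b : T) := by
  obtain ⟨k, hk⟩ := h
  have h0 : ((a - b : ℝ) : T) = 0 := by
    rw [AddCircle.coe_eq_zero_iff]
    exact ⟨k, by rw [hk]; simp⟩
  rw [AddCircle.coe_sub] at h0
  exact sub_eq_zero.mp h0

/-- integer valued continuous functions on connected sets are constant -/
theorem const_of_int {X : Type} [TopologicalSpace X] {D : Set X} (hD : IsPreconnected D) (F : X → ℝ)
    (hF : ContinuousOn F D) (hint : ∀ x ∈ D, ∃ k : ℤ, F x = k) {x y : X} (hx : x ∈ D) (hy : y ∈ D) :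
    F x = F y := by
  have him : IsPreconnected (F '' D) := hD.image F hF
  by_contra hne
  rcases lt_or_gt_of_ne hne with hlt | hlt
  · obtain ⟨a, ha⟩ := hint x hx
    obtain ⟨b, hb⟩ := hint y hy
    have hab : a < b := by
      rw [ha, hb] at hlt
      exact_mod_cast hlt
    have hmem : (a : ℝ) + 1 / 2 ∈ F '' D := by
      apply him.ordConnected.out ⟨x, hx, rfl⟩ ⟨y, hy, rfl⟩
      have : (a : ℝ) + 1 ≤ b := by exact_mod_cast hab
      rw [ha, hb]
      constructor <;> linarith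
    obtain ⟨z, hz, he⟩ := hmem
    obtain ⟨k, hk⟩ := hint z hz
    rw [hk] at he
    have h2 : (2 * k : ℝ) = 2 * a + 1 := by linarith
    have h3 : 2 * k = 2 * a + 1 := by exact_mod_cast h2
    omega
  · obtain ⟨a, ha⟩ := hint y hy
    obtain ⟨b, hb⟩ := hint x hx
    have hab : a < b := by
      rw [ha, hb] at hlt
      exact_mod_cast hlt
    have hmem : (a : ℝ) + 1 / 2 ∈ F '' D := by
      apply him.ordConnected.out ⟨y, hy, rfl⟩ ⟨x, hx, rfl⟩
      have : (a : ℝ) + 1 ≤ b := by exact_mod_cast hab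
      rw [ha, hb]
      constructor <;> linarith
    obtain ⟨z, hz, he⟩ := hmem
    obtain ⟨k, hk⟩ := hint z hz
    rw [hk] at he
    have h2 : (2 * k : ℝ) = 2 * a + 1 := by linarith
    have h3 : 2 * k = 2 * a + 1 := by exact_mod_cast h2
    omega

/-- a lift on the intersection of a chain gives a lift on a member -/
theorem chain_lift {Y : Type} [MetricSpace Y] [CompactSpace Y] (g : Y → T) (c : Set (Set Y))
    (hc : IsChain (· ⊆ ·) c) (hne : c.Nonempty) (hK : ∀ K ∈ c, IsSubcontinuum K ∧ ContinuousOn g K)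
    (hl : LiftsOn g (⋂₀ c)) : ∃ K ∈ c, LiftsOn g K := by
  obtain ⟨h, hh, hhg⟩ := hl
  have hcl : IsClosed (⋂₀ c) := isClosed_sInter fun K hKc => (hK K hKc).1.1.isClosed
  obtain ⟨h', hh'⟩ := ContinuousMap.exists_restrict_eq hcl
    (⟨(⋂₀ c).domRestrict h, hh.domRestrict⟩ : C((⋂₀ c : Set Y), ℝ))
  have hh'eq : ∀ y ∈ ⋂₀ c, h' y = h y := fun y hy => by
    have := congrArg (fun (F : C((⋂₀ c : Set Y), ℝ)) => F ⟨y, hy⟩) hh'
    exact this
  set φ : Y → T := fun y => g y - ((h' y : ℝ) : T) with hφ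
  have hcoe : Continuous (fun y : Y => ((h' y : ℝ) : T)) :=
    (AddCircle.continuous_mk' (1 : ℝ)).comp h'.continuous
  have hφc : ∀ K ∈ c, ContinuousOn φ K := fun K hKc => (hK K hKc).2.sub hcoe.continuousOn
  by_contra hcon
  push Not at hcon
  -- every member contains a point with `φ = -1/2`
  have hpt : ∀ K ∈ c, (K ∩ φ ⁻¹' {((-1 / 2 : ℝ) : T)}).Nonempty := by
    intro K hKc
    by_contra hemp
    apply hcon K hKc
    refine ⟨fun y => h' y + sec (φ y), ?_, ?_⟩
    · apply h'.continuous.continuousOn.add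
      intro y hy
      have hne : φ y ≠ ((-1 / 2 : ℝ) : T) := fun he => hemp ⟨y, hy, he⟩
      exact (continuousAt_sec hne).comp_continuousWithinAt (hφc K hKc y hy)
    · intro y _
      rw [AddCircle.coe_add, coe_sec, hφ]
      simp only
      abel
  have hclK : ∀ K ∈ c, IsClosed (K ∩ φ ⁻¹' {((-1 / 2 : ℝ) : T)}) := fun K hKc =>
    (hφc K hKc).preimage_isClosed_of_isClosed (hK K hKc).1.1.isClosed isClosed_singleton
  set S : Set (Set Y) := (fun K => K ∩ φ ⁻¹' {((-1 / 2 : ℝ) : T)}) '' c with hS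
  have : Nonempty S := (hne.image _).to_subtype
  obtain ⟨y, hy⟩ := IsCompact.nonempty_sInter_of_directed_nonempty_isCompact_isClosed (S := S)
    (by
      rintro _ ⟨M, hM, rfl⟩ _ ⟨M', hM', rfl⟩
      rcases hc.total hM hM' with h | h
      · exact ⟨_, ⟨M, hM, rfl⟩, subset_rfl, inter_subset_inter_left _ h⟩
      · exact ⟨_, ⟨M', hM', rfl⟩, inter_subset_inter_left _ h, subset_rfl⟩)
    (by
      rintro _ ⟨M, hM, rfl⟩
      exact hpt M hM)
    (by
      rintro _ ⟨M, hM, rfl⟩
      exact (hclK M hM).isCompact)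
    (by
      rintro _ ⟨M, hM, rfl⟩
      exact hclK M hM)
  rw [mem_sInter] at hy
  have hyc : y ∈ ⋂₀ c := mem_sInter.mpr fun K hKc => (hy _ ⟨K, hKc, rfl⟩).1
  obtain ⟨K₀, hK₀⟩ := hne
  have h1 : φ y = ((-1 / 2 : ℝ) : T) := (hy _ ⟨K₀, hK₀, rfl⟩).2
  have h2 : φ y = 0 := by
    rw [hφ]
    simp only
    rw [hh'eq y hyc, hhg y hyc, sub_self]
  exact zero_ne (h2.symm.trans h1)

end Pool.Agent.ACL.LiftY

namespace Pool.Agent.ACL

open Set Filter Topology LibConfluent Pool.Agent.ACL.Min Pool.Agent.ACL.LiftY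

theorem liftY_proof (hChain : Stmt_Chain) (hSat : Stmt_Sat) (hHT : Stmt_HT) : Stmt_LiftY := by
  intro X Y _ _ _ _ f hf hLX K₀ g hK₀ hg
  by_contra hno
  have hfc := hf.continuous
  -- a minimal subcontinuum without lift
  set 𝓚 : Set (Set Y) := {K | K ⊆ K₀ ∧ IsSubcontinuum K ∧ ¬ LiftsOn g K} with h𝓚
  obtain ⟨K, -, hmin⟩ := zorn_superset_nonempty 𝓚 (by
    intro c hc hchain hcne
    have hsub : ⋂₀ c ⊆ K₀ := by
      obtain ⟨K, hK⟩ := hcne
      exact (sInter_subset_of_mem hK).trans (hc hK).1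
    refine ⟨⋂₀ c, ⟨hsub, hChain Y c hcne hchain (fun K hK => (hc hK).2.1), ?_⟩,
      fun s hs => sInter_subset_of_mem hs⟩
    intro hl
    obtain ⟨K, hK, hKl⟩ := chain_lift g c hchain hcne
      (fun K hK => ⟨(hc hK).2.1, hg.mono (hc hK).1⟩) hl
    exact (hc hK).2.2 hKl) K₀ ⟨subset_rfl, hK₀, hno⟩
  obtain ⟨hKK₀, hK, hKno⟩ := hmin.prop
  have hgK : ContinuousOn g K := hg.mono hKK₀
  have hlift : ∀ S : Set Y, IsSubcontinuum S → S ⊆ K → S ≠ K → LiftsOn g S := by
    intro S hS hSK hne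
    by_contra hcon
    exact hne (subset_antisymm hSK (hmin.le_of_le ⟨hSK.trans hKK₀, hS, hcon⟩ hSK))
  apply hKno
  -- a component over `K`
  obtain ⟨y₀, hy₀⟩ := hK.2.nonempty
  obtain ⟨x₀, rfl⟩ := hf.surjective y₀
  have hFcl : IsClosed (f ⁻¹' K) := hK.1.isClosed.preimage hfc
  set B : Set X := connectedComponentIn (f ⁻¹' K) x₀ with hB
  have hBs : IsSubcontinuum B := comp_subcont hFcl hy₀
  have hBK : ∀ x ∈ B, f x ∈ K := fun x hx => connectedComponentIn_subset (f ⁻¹' K) x₀ hx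
  have hfB : f '' B = K := hf.image_component K hK B ⟨x₀, hy₀, rfl⟩
  obtain ⟨H, hH, hHg⟩ := hLX B (g ∘ f) hBs (hgK.comp hfc.continuousOn hBK)
  have hHg' : ∀ x ∈ B, ((H x : ℝ) : T) = g (f x) := hHg
  -- components over smaller subcontinua
  have hDB : ∀ S : Set Y, S ⊆ K → ∀ u ∈ B, f u ∈ S → connectedComponentIn (f ⁻¹' S) u ⊆ B := by
    intro S hSK u hu _
    rw [hB, connectedComponentIn_eq hu]
    exact connectedComponentIn_mono u (preimage_mono hSK)
  have hDmap : ∀ S : Set Y, IsSubcontinuum S → ∀ u, f u ∈ S → ∀ s ∈ S,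
      ∃ z ∈ connectedComponentIn (f ⁻¹' S) u, f z = s := by
    intro S hS u hu s hs
    have him := hf.image_component S hS _ ⟨u, hu, rfl⟩
    rw [← him] at hs
    exact hs
  obtain ⟨t, ht, htE, htH⟩ := hHT X B (fun x x' => f x = f x')
    (fun x x' => ∃ S, IsSubcontinuum S ∧ S ⊆ K ∧ S ≠ K ∧ f x ∈ S ∧
      x' ∈ connectedComponentIn (f ⁻¹' S) x) H hBs.1 hBs.2.nonempty
    (fun x _ => rfl) (fun x _ y _ h => h.symm) (fun x _ y _ z _ h h' => h.trans h')
    (by
      have hc : IsClosed {q : X × X | f q.1 = f q.2} :=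
        isClosed_eq (hfc.comp continuous_fst) (hfc.comp continuous_snd)
      exact (hBs.1.isClosed.preimage continuous_fst).inter
        ((hBs.1.isClosed.preimage continuous_snd).inter hc))
    hH
    (by
      intro x hx y hy hxy
      apply coe_sub_int
      rw [hHg' x hx, hHg' y hy, hxy])
    (by
      rintro x hx x' hx' ⟨S, hS, hSK, hSne, hxS, hx'S⟩ u hu v hv hxu hxv
      have hx'S' : f x' ∈ S := connectedComponentIn_subset (f ⁻¹' S) x hx'S
      have huS : f u ∈ S := hxu ▸ hxS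
      have hvS : f v ∈ S := hxv ▸ hxS
      obtain ⟨u', hu', hfu'⟩ := hDmap S hS u huS (f x') hx'S'
      obtain ⟨v', hv', hfv'⟩ := hDmap S hS v hvS (f x') hx'S'
      obtain ⟨η, hη, hηg⟩ := hlift S hS hSK hSne
      have key : ∀ w ∈ B, f w ∈ S → ∀ w' ∈ connectedComponentIn (f ⁻¹' S) w,
          H w' - η (f w') = H w - η (f w) := by
        intro w hw hwS w' hw'
        have hsub := hDB S hSK w hw hwS
        refine const_of_int (F := fun z => H z - η (f z)) isPreconnected_connectedComponentIn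
          ?_ ?_ hw' (mem_connectedComponentIn hwS)
        · apply (hH.mono hsub).sub
          apply hη.comp hfc.continuousOn
          intro z hz
          exact connectedComponentIn_subset (f ⁻¹' S) w hz
        · intro z hz
          apply coe_sub_int
          rw [hHg' z (hsub hz), hηg (f z) (connectedComponentIn_subset (f ⁻¹' S) w hz)]
      have k1 := key u hu huS u' hu'
      have k2 := key v hv hvS v' hv'
      refine ⟨u', hDB S hSK u hu huS hu', v', hDB S hSK v hv hvS hv', hfu'.symm, hfv'.symm, ?_⟩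
      have e1 : η (f u) = η (f v) := by rw [← hxu, ← hxv]
      have e2 : η (f u') = η (f v') := by rw [hfu', hfv']
      linarith)
    (by
      intro M hMB hM hMne hME hMv
      have hfM : f '' M = K := by
        apply hSat Y K (f '' M) hK (hM.isCompact.image hfc).isClosed (hMne.image f)
        · rintro _ ⟨x, hx, rfl⟩
          exact hBK x (hMB hx)
        · rintro S hS hSK hSne ⟨_, hyS, x, hx, rfl⟩ s hs
          obtain ⟨z, hz, hzs⟩ := hDmap S hS x hyS s hs
          refine ⟨z, ?_, hzs⟩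
          exact hMv x hx z (hDB S hSK x (hMB hx) hyS hz) ⟨S, hS, hSK, hSne, hyS, hz⟩
      apply subset_antisymm hMB
      intro x hx
      have h1 : f x ∈ f '' M := by
        rw [hfM]
        exact hBK x hx
      obtain ⟨m, hm, he⟩ := h1
      exact hME m hm x hx he)
  -- descend to `K`
  have hex : ∀ y : Y, ∃ r : ℝ, ∀ x ∈ B, f x = y → t x = r := by
    intro y
    by_cases h : ∃ x ∈ B, f x = y
    · obtain ⟨x, hx, rfl⟩ := h
      exact ⟨t x, fun z hz he => htE z hz x hx he⟩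
    · push Not at h
      exact ⟨0, fun x hx he => absurd he (h x hx)⟩
  choose h hh using hex
  refine ⟨h, ?_, ?_⟩
  · rw [continuousOn_iff_isClosed]
    intro C hC
    refine ⟨f '' (B ∩ t ⁻¹' C), ?_, ?_⟩
    · have h1 : IsClosed (B ∩ t ⁻¹' C) := ht.preimage_isClosed_of_isClosed hBs.1.isClosed hC
      exact (h1.isCompact.image hfc).isClosed
    · ext y
      constructor
      · rintro ⟨h1, h2⟩
        have h3 := h2
        rw [← hfB] at h3
        obtain ⟨x, hx, rfl⟩ := h3
        refine ⟨⟨x, ⟨hx, ?_⟩, rfl⟩, h2⟩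
        show t x ∈ C
        rw [hh (f x) x hx rfl]
        exact h1
      · rintro ⟨⟨x, ⟨hx, hxC⟩, rfl⟩, h2⟩
        refine ⟨?_, h2⟩
        show h (f x) ∈ C
        rw [← hh (f x) x hx rfl]
        exact hxC
  · intro y hy
    rw [← hfB] at hy
    obtain ⟨x, hx, rfl⟩ := hy
    rw [← hh (f x) x hx rfl, ← hHg' x hx]
    exact coe_eq_of_int (htH x hx)

end Pool.Agent.ACL

end
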