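import Pool.Agent.ACL.Basic

/-!
# Local trivialisations of a cocycle
-/

set_option autoImplicit false

noncomputable section

namespace Pool.Agent.ACL

open Set Filter Topology LibConfluent

namespace Loc

/-- Close pairs have the same value of the cocycle. -/
theorem exists_delta {X Y G : Type} [MetricSpace X] [CompactSpace X] [MetricSpace Y]
    [CompactSpace Y] [Group G] [Finite G] (f : X → Y) (σ : X → X → G) (hσ : Coc f σ) :
    ∃ δ : ℝ, 0 < δ ∧ ∀ x x' u u', f x = f x' → f u = f u' → dist x u < δ → dist x' u' < δ →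
      σ x x' = σ u u' := by
  classical
  set R : G → Set (X × X) := fun τ => {q : X × X | f q.1 = f q.2 ∧ σ q.1 q.2 = τ} with hR
  set P : Set ((X × X) × (X × X)) := ⋃ a : {a : G × G // a.1 ≠ a.2}, R a.1.1 ×ˢ R a.1.2 with hP
  have hPc : IsCompact P := by
    refine IsClosed.isCompact ?_
    refine isClosed_iUnion_of_finite fun a => ?_
    exact (hσ.closed _).prod (hσ.closed _)
  have hcont : Continuous fun q : (X × X) × (X × X) => dist q.1 q.2 :=
    continuous_fst.dist continuous_snd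
  by_cases hne : P.Nonempty
  · obtain ⟨q, hq, hmin⟩ := hPc.exists_isMinOn hne hcont.continuousOn
    have hpos : 0 < dist q.1 q.2 := by
      rw [dist_pos]
      intro heq
      simp only [hP, mem_iUnion] at hq
      obtain ⟨a, ha⟩ := hq
      obtain ⟨h1, h2⟩ := ha
      have e1 := h1.2
      have e2 := h2.2
      rw [heq] at e1
      exact a.2 (e1.symm.trans e2)
    refine ⟨dist q.1 q.2, hpos, ?_⟩
    intro x x' u u' hx hu h1 h2
    by_contra hcon
    have hmem : ((x, x'), (u, u')) ∈ P := by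
      simp only [hP, mem_iUnion]
      exact ⟨⟨(σ x x', σ u u'), hcon⟩, ⟨hx, rfl⟩, ⟨hu, rfl⟩⟩
    have := hmin hmem
    simp only [mem_ofPred_eq] at this
    have h3 : dist ((x, x') : X × X) (u, u') < dist q.1 q.2 := by
      rw [Prod.dist_eq]
      exact max_lt h1 h2
    linarith
  · refine ⟨1, one_pos, ?_⟩
    intro x x' u u' hx hu h1 h2
    by_contra hcon
    refine hne ⟨((x, x'), (u, u')), ?_⟩
    simp only [hP, mem_iUnion]
    exact ⟨⟨(σ x x', σ u u'), hcon⟩, ⟨hx, rfl⟩, ⟨hu, rfl⟩⟩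

/-- The preimages of small neighbourhoods are close to the fibre. -/
theorem exists_nhd {X Y : Type} [MetricSpace X] [CompactSpace X] [MetricSpace Y]
    (f : X → Y) (hf : Continuous f) (y : Y) (δ : ℝ) (hδ : 0 < δ) :
    ∃ V : Set Y, V ∈ 𝓝 y ∧ IsClosed V ∧ ∀ x, f x ∈ V → ∃ u, f u = y ∧ dist x u < δ := by
  set O : Set X := ⋃ u ∈ f ⁻¹' {y}, Metric.ball u δ with hO
  have hOo : IsOpen O := isOpen_biUnion fun u _ => Metric.isOpen_ball
  have hcl : IsClosed (f '' Oᶜ) := (hOo.isClosed_compl.isCompact.image hf).isClosed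
  have hy : y ∈ (f '' Oᶜ)ᶜ := by
    rintro ⟨x, hx, rfl⟩
    apply hx
    simp only [hO, mem_iUnion]
    exact ⟨x, rfl, Metric.mem_ball_self hδ⟩
  have hnhd : (f '' Oᶜ)ᶜ ∈ 𝓝 y := hcl.isOpen_compl.mem_nhds hy
  obtain ⟨r, hr, hsub⟩ := Metric.nhds_basis_closedBall.mem_iff.1 hnhd
  refine ⟨Metric.closedBall y r, Metric.closedBall_mem_nhds y hr, Metric.isClosed_closedBall, ?_⟩
  intro x hx
  have h1 := hsub hx
  have h2 : x ∈ O := by
    by_contra hc
    exact h1 ⟨x, hc, rfl⟩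
  simp only [hO, mem_iUnion] at h2
  obtain ⟨u, hu, hxu⟩ := h2
  exact ⟨u, hu, hxu⟩

end Loc

theorem loc_proof : Stmt_Loc := by
  classical
  intro X Y G _ _ _ _ _ _ f σ hf hs hσ y
  obtain ⟨δ, hδ, hclose⟩ := Loc.exists_delta f σ hσ
  obtain ⟨V, hV, hVc, hVu⟩ := Loc.exists_nhd f hf y (δ / 2) (by linarith)
  obtain ⟨x₀, hx₀⟩ := hs y
  choose! w hw1 hw2 using hVu
  refine ⟨V, fun x => σ x₀ (w x), hV, hVc, ?_, ?_⟩
  · intro τ
    refine isClosed_of_closure_subset ?_
    intro x hx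
    have hxV : f x ∈ V := by
      have : closure {x | f x ∈ V ∧ σ x₀ (w x) = τ} ⊆ f ⁻¹' V :=
        closure_minimal (fun z hz => hz.1) (hVc.preimage hf)
      exact this hx
    have hpos : 0 < δ / 2 - dist x (w x) := by linarith [hw2 x hxV]
    obtain ⟨z, ⟨hzV, hzτ⟩, hxz⟩ := Metric.mem_closure_iff.1 hx _ hpos
    refine ⟨hxV, ?_⟩
    rw [← hzτ]
    have hd : dist (w x) (w z) < δ := by
      have h1 := hw2 z hzV
      have h2 : dist (w x) (w z) ≤ dist (w x) x + dist x z + dist z (w z) :=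
        dist_triangle4 _ _ _ _
      rw [dist_comm (w x) x] at h2
      linarith
    exact hclose x₀ (w x) x₀ (w z) (by rw [hx₀, hw1 x hxV]) (by rw [hx₀, hw1 z hzV])
      (by rw [dist_self]; exact hδ) hd
  · intro x x' hxx hxV
    have hxV' : f x' ∈ V := hxx ▸ hxV
    have e1 : σ x x' = σ (w x) (w x') :=
      hclose x x' (w x) (w x') hxx (by rw [hw1 x hxV, hw1 x' hxV'])
        (by linarith [hw2 x hxV]) (by linarith [hw2 x' hxV'])
    have e2 := hσ.mul x₀ (w x) (w x') (by rw [hx₀, hw1 x hxV]) (by rw [hw1 x hxV, hw1 x' hxV'])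
    show σ x x' * σ x₀ (w x) = σ x₀ (w x')
    rw [e1, e2]

end Pool.Agent.ACL

end
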