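import Pool.Agent.ACL.Stmts

/-!
# Minimal bad situations
-/

set_option autoImplicit false

noncomputable section

namespace Pool.Agent.ACL.Min

open Set Filter Topology LibConfluent

theorem isClosed_compRel {X : Type} [TopologicalSpace X] [CompactSpace X] [T2Space X] (F : Set X)
    (hF : IsClosed F) : IsClosed {q : X × X | q.1 ∈ F ∧ q.2 ∈ connectedComponentIn F q.1} := by
  have : CompactSpace F := isCompact_iff_compactSpace.mp hF.isCompact
  set S : Set (F × F) :=
    {q | (ConnectedComponents.mk q.1 : ConnectedComponents F) = ConnectedComponents.mk q.2} with hS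
  have hSc : IsClosed S :=
    isClosed_eq (ConnectedComponents.continuous_coe.comp continuous_fst)
      (ConnectedComponents.continuous_coe.comp continuous_snd)
  have hcont : Continuous (fun q : F × F => ((q.1 : X), (q.2 : X))) :=
    (continuous_subtype_val.comp continuous_fst).prodMk (continuous_subtype_val.comp continuous_snd)
  have himg : {q : X × X | q.1 ∈ F ∧ q.2 ∈ connectedComponentIn F q.1} =
      (fun q : F × F => ((q.1 : X), (q.2 : X))) '' S := by
    ext ⟨x, x'⟩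
    constructor
    · rintro ⟨h1, h2⟩
      simp only at h1 h2
      rw [connectedComponentIn_eq_image h1] at h2
      obtain ⟨b, hb, rfl⟩ := h2
      refine ⟨(⟨x, h1⟩, b), ?_, rfl⟩
      show (ConnectedComponents.mk (⟨x, h1⟩ : F) : ConnectedComponents F) = ConnectedComponents.mk b
      exact (ConnectedComponents.coe_eq_coe'.mpr hb).symm
    · rintro ⟨⟨a, b⟩, hab, he⟩
      simp only [Prod.mk.injEq] at he
      obtain ⟨rfl, rfl⟩ := he
      refine ⟨a.2, ?_⟩
      show (b : X) ∈ connectedComponentIn F a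
      rw [connectedComponentIn_eq_image a.2]
      refine ⟨b, ?_, rfl⟩
      have hab' : (ConnectedComponents.mk b : ConnectedComponents F) = ConnectedComponents.mk a :=
        (hab : (ConnectedComponents.mk a : ConnectedComponents F) = ConnectedComponents.mk b).symm
      exact ConnectedComponents.coe_eq_coe'.mp hab'
  rw [himg]
  exact (hSc.isCompact.image hcont).isClosed

theorem comp_subcont {X : Type} [TopologicalSpace X] [CompactSpace X] [T2Space X] {F : Set X}
    (hF : IsClosed F) {x : X} (hx : x ∈ F) : IsSubcontinuum (connectedComponentIn F x) := by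
  refine ⟨?_, ⟨⟨x, mem_connectedComponentIn hx⟩, isPreconnected_connectedComponentIn⟩⟩
  apply IsClosed.isCompact
  have h := (isClosed_compRel F hF).preimage (Continuous.prodMk_right x)
  have e : (fun y => (x, y)) ⁻¹' {q : X × X | q.1 ∈ F ∧ q.2 ∈ connectedComponentIn F q.1} =
      connectedComponentIn F x := by
    ext y
    exact ⟨fun h => h.2, fun h => ⟨hx, h⟩⟩
  rwa [e] at h

theorem comp_sub {X : Type} [TopologicalSpace X] {F : Set X} {x : X} :
    connectedComponentIn F x ⊆ F := connectedComponentIn_subset F x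

/-- images of intersections of chains of compact sets -/
theorem image_sInter {N Y : Type} [MetricSpace N] [MetricSpace Y] (p : N → Y)
    (hp : Continuous p) (c : Set (Set N)) (hc : IsChain (· ⊆ ·) c) (hne : c.Nonempty)
    (hK : ∀ M ∈ c, IsCompact M) (y : Y) (hy : ∀ M ∈ c, y ∈ p '' M) : y ∈ p '' (⋂₀ c) := by
  set S : Set (Set N) := (fun M => M ∩ p ⁻¹' {y}) '' c with hS
  have : Nonempty S := (hne.image _).to_subtype
  have hcl : IsClosed (p ⁻¹' {y}) := isClosed_singleton.preimage hp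
  obtain ⟨n, hn⟩ := IsCompact.nonempty_sInter_of_directed_nonempty_isCompact_isClosed (S := S)
    (by
      rintro _ ⟨M, hM, rfl⟩ _ ⟨M', hM', rfl⟩
      rcases hc.total hM hM' with h | h
      · exact ⟨_, ⟨M, hM, rfl⟩, subset_rfl, inter_subset_inter_left _ h⟩
      · exact ⟨_, ⟨M', hM', rfl⟩, inter_subset_inter_left _ h, subset_rfl⟩)
    (by
      rintro _ ⟨M, hM, rfl⟩
      obtain ⟨n, hn, he⟩ := hy M hM
      exact ⟨n, hn, he⟩)
    (by
      rintro _ ⟨M, hM, rfl⟩
      exact (hK M hM).inter_right hcl)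
    (by
      rintro _ ⟨M, hM, rfl⟩
      exact (hK M hM).isClosed.inter hcl)
  rw [mem_sInter] at hn
  obtain ⟨M₀, hM₀⟩ := hne
  refine ⟨n, ?_, (hn _ ⟨M₀, hM₀, rfl⟩).2⟩
  rw [mem_sInter]
  intro M hM
  exact (hn _ ⟨M, hM, rfl⟩).1

/-- bichromatic continua -/
def Bi {X Y N : Type} [MetricSpace X] [MetricSpace Y] [MetricSpace N] (f : X → Y) (p : N → Y)
    (G H : Set (X × N)) (M : Set N) (x : X) (n : N) (x' : X) (n' : N) : Prop :=
  n ∈ M ∧ n' ∈ M ∧ f x = p n ∧ f x' = p n' ∧ x' ∈ connectedComponentIn (f ⁻¹' (p '' M)) x ∧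
    (x, n) ∈ G ∧ (x', n') ∈ H

theorem chain_step (hChain : Stmt_Chain) {X Y N : Type} [MetricSpace X] [CompactSpace X]
    [MetricSpace Y] [MetricSpace N] [CompactSpace N] (f : X → Y) (p : N → Y)
    (hf : Continuous f) (hp : Continuous p) (G H : Set (X × N)) (hG : IsClosed G) (hH : IsClosed H)
    (c : Set (Set N)) (hc : IsChain (· ⊆ ·) c) (hne : c.Nonempty)
    (hM : ∀ M ∈ c, IsSubcontinuum M ∧ ∃ x n x' n', Bi f p G H M x n x' n') :
    IsSubcontinuum (⋂₀ c) ∧ ∃ x n x' n', Bi f p G H (⋂₀ c) x n x' n' := by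
  have hsub : IsSubcontinuum (⋂₀ c) := hChain N c hne hc (fun M h => (hM M h).1)
  refine ⟨hsub, ?_⟩
  -- the sets of bichromatic quadruples
  let B : Set N → Set ((X × N) × (X × N)) := fun M =>
    {q | Bi f p G H M q.1.1 q.1.2 q.2.1 q.2.2}
  have hBcl : ∀ M ∈ c, IsClosed (B M) := by
    intro M hMc
    have hMcl : IsClosed M := (hM M hMc).1.1.isClosed
    have hpM : IsClosed (p '' M) := ((hM M hMc).1.1.image hp).isClosed
    have hF : IsClosed (f ⁻¹' (p '' M)) := hpM.preimage hf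
    have e : B M = ((fun q : (X × N) × (X × N) => q.1.2) ⁻¹' M) ∩
        (((fun q : (X × N) × (X × N) => q.2.2) ⁻¹' M) ∩
        ({q : (X × N) × (X × N) | f q.1.1 = p q.1.2} ∩
        ({q : (X × N) × (X × N) | f q.2.1 = p q.2.2} ∩
        (((fun q : (X × N) × (X × N) => (q.1.1, q.2.1)) ⁻¹'
          {q : X × X | q.1 ∈ f ⁻¹' (p '' M) ∧ q.2 ∈ connectedComponentIn (f ⁻¹' (p '' M)) q.1}) ∩
        ((fun q : (X × N) × (X × N) => q.1) ⁻¹' G ∩ (fun q : (X × N) × (X × N) => q.2) ⁻¹' H))))) := by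
      ext ⟨⟨x, n⟩, x', n'⟩
      constructor
      · rintro ⟨h1, h2, h3, h4, h5, h6, h7⟩
        exact ⟨h1, h2, h3, h4, ⟨⟨n, h1, h3.symm⟩, h5⟩, h6, h7⟩
      · rintro ⟨h1, h2, h3, h4, ⟨-, h5⟩, h6, h7⟩
        exact ⟨h1, h2, h3, h4, h5, h6, h7⟩
    rw [e]
    have c1 : Continuous (fun q : (X × N) × (X × N) => q.1.2) := by fun_prop
    have c2 : Continuous (fun q : (X × N) × (X × N) => q.2.2) := by fun_prop
    have c3 : Continuous (fun q : (X × N) × (X × N) => q.1.1) := by fun_prop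
    have c4 : Continuous (fun q : (X × N) × (X × N) => q.2.1) := by fun_prop
    refine (hMcl.preimage c1).inter ((hMcl.preimage c2).inter ((isClosed_eq (hf.comp c3)
      (hp.comp c1)).inter ((isClosed_eq (hf.comp c4) (hp.comp c2)).inter
      (((isClosed_compRel _ hF).preimage (c3.prodMk c4)).inter
      ((hG.preimage continuous_fst).inter (hH.preimage continuous_snd))))))
  have hBmono : ∀ M M' : Set N, M ⊆ M' → B M ⊆ B M' := by
    rintro M M' h ⟨⟨x, n⟩, x', n'⟩ ⟨h1, h2, h3, h4, h5, h6, h7⟩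
    exact ⟨h h1, h h2, h3, h4, connectedComponentIn_mono x (preimage_mono (image_mono h)) h5, h6, h7⟩
  have : Nonempty (B '' c) := (hne.image _).to_subtype
  obtain ⟨q, hq⟩ := IsCompact.nonempty_sInter_of_directed_nonempty_isCompact_isClosed (S := B '' c)
    (by
      rintro _ ⟨M, hM, rfl⟩ _ ⟨M', hM', rfl⟩
      rcases hc.total hM hM' with h | h
      · exact ⟨_, ⟨M, hM, rfl⟩, subset_rfl, hBmono _ _ h⟩
      · exact ⟨_, ⟨M', hM', rfl⟩, hBmono _ _ h, subset_rfl⟩)
    (by
      rintro _ ⟨M, hMc, rfl⟩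
      obtain ⟨-, x, n, x', n', h⟩ := hM M hMc
      exact ⟨((x, n), (x', n')), h⟩)
    (by
      rintro _ ⟨M, hM, rfl⟩
      exact (hBcl M hM).isCompact)
    (by
      rintro _ ⟨M, hM, rfl⟩
      exact hBcl M hM)
  obtain ⟨⟨x, n⟩, x', n'⟩ := q
  rw [mem_sInter] at hq
  have hq' : ∀ M ∈ c, Bi f p G H M x n x' n' := fun M hMc => hq _ ⟨M, hMc, rfl⟩
  obtain ⟨M₀, hM₀⟩ := hne
  obtain ⟨-, -, h3, h4, -, h6, h7⟩ := hq' M₀ hM₀
  have hn : n ∈ ⋂₀ c := mem_sInter.mpr fun M hMc => (hq' M hMc).1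
  have hn' : n' ∈ ⋂₀ c := mem_sInter.mpr fun M hMc => (hq' M hMc).2.1
  refine ⟨x, n, x', n', hn, hn', h3, h4, ?_, h6, h7⟩
  -- the intersection of the components
  have hK : IsSubcontinuum (⋂₀ ((fun M => connectedComponentIn (f ⁻¹' (p '' M)) x) '' c)) := by
    have hcne : c.Nonempty := ⟨M₀, hM₀⟩
    apply hChain X _ (hcne.image _)
    · rintro _ ⟨M, hM, rfl⟩ _ ⟨M', hM', rfl⟩ _
      rcases hc.total hM hM' with h | h
      · exact Or.inl (connectedComponentIn_mono x (preimage_mono (image_mono h)))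
      · exact Or.inr (connectedComponentIn_mono x (preimage_mono (image_mono h)))
    · rintro _ ⟨M, hMc, rfl⟩
      apply comp_subcont ((((hM M hMc).1.1.image hp).isClosed).preimage hf)
      exact ⟨n, (hq' M hMc).1, h3.symm⟩
  have hxK : x ∈ ⋂₀ ((fun M => connectedComponentIn (f ⁻¹' (p '' M)) x) '' c) := by
    rw [mem_sInter]
    rintro _ ⟨M, hMc, rfl⟩
    exact mem_connectedComponentIn ⟨n, (hq' M hMc).1, h3.symm⟩
  have hx'K : x' ∈ ⋂₀ ((fun M => connectedComponentIn (f ⁻¹' (p '' M)) x) '' c) := by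
    rw [mem_sInter]
    rintro _ ⟨M, hMc, rfl⟩
    exact (hq' M hMc).2.2.2.2.1
  refine hK.2.isPreconnected.subset_connectedComponentIn hxK ?_ hx'K
  intro z hz
  rw [mem_sInter] at hz
  show f z ∈ p '' (⋂₀ c)
  apply image_sInter p hp c hc ⟨M₀, hM₀⟩ (fun M h => (hM M h).1.1)
  intro M hMc
  exact connectedComponentIn_subset (f ⁻¹' (p '' M)) x (hz _ ⟨M, hMc, rfl⟩)

/-- surjectivity of the projection of a colour class -/
theorem surj_of (hBump : Stmt_Bump) {X Y N : Type} [MetricSpace X] [CompactSpace X]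
    [MetricSpace Y] [MetricSpace N] [CompactSpace N] [ConnectedSpace N]
    (f : X → Y) (p : N → Y) (hf : Confluent f) (hp : Continuous p) (S : Set (X × N))
    (hS : IsClosed S) (hne : S.Nonempty) (hSE : ∀ q ∈ S, f q.1 = p q.2)
    (hm : ∀ M : Set N, IsSubcontinuum M → M ≠ univ → ∀ x x' : X, ∀ n ∈ M, ∀ n' ∈ M,
      f x = p n → f x' = p n' → x' ∈ connectedComponentIn (f ⁻¹' (p '' M)) x →
      (x, n) ∈ S → (x', n') ∈ S) : ∀ n, ∃ x, (x, n) ∈ S := by
  by_contra hcon
  push Not at hcon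
  obtain ⟨z, hz⟩ := hcon
  set F : Set N := Prod.snd '' S with hF
  have hFc : IsClosed F := (hS.isCompact.image continuous_snd).isClosed
  have hzF : z ∉ F := by
    rintro ⟨⟨x, n⟩, hq, rfl⟩
    exact hz x hq
  obtain ⟨⟨x₁, n₁⟩, hq₁⟩ := hne
  have hn₁ : n₁ ∈ F := ⟨_, hq₁, rfl⟩
  have hFne : F.Nonempty := ⟨n₁, hn₁⟩
  have hpos : 0 < Metric.infDist z F := (hFc.notMem_iff_infDist_pos hFne).mp hzF
  set ε := Metric.infDist z F with hε
  set F' : Set N := {n | Metric.infDist n F ≤ ε / 2} with hF'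
  have hF'c : IsClosed F' := isClosed_le (Metric.continuous_infDist_pt F) continuous_const
  have hzF' : z ∉ F' := by
    intro h
    have h' : Metric.infDist z F ≤ ε / 2 := h
    linarith
  have hF'ne : F' ≠ univ := fun h => hzF' (h ▸ mem_univ z)
  have hn₁' : n₁ ∈ F' := by
    show Metric.infDist n₁ F ≤ ε / 2
    rw [Metric.infDist_zero_of_mem hn₁]
    linarith
  obtain ⟨n₂, hn₂, hn₂'⟩ := hBump N F' n₁ hF'c hF'ne hn₁'
  have hn₂F : n₂ ∉ F := by
    intro h
    have h1 : closure F'ᶜ ⊆ {n | ε / 2 ≤ Metric.infDist n F} := by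
      apply closure_minimal
      · intro n hn
        have hn' : ¬ Metric.infDist n F ≤ ε / 2 := hn
        push Not at hn'
        exact hn'.le
      · exact isClosed_le continuous_const (Metric.continuous_infDist_pt F)
    have h2 : ε / 2 ≤ Metric.infDist n₂ F := h1 hn₂'
    rw [Metric.infDist_zero_of_mem h] at h2
    linarith
  set Q := connectedComponentIn F' n₁ with hQ
  have hQs : IsSubcontinuum Q := comp_subcont hF'c hn₁'
  have hQne : Q ≠ univ := fun h => hzF' (comp_sub (h ▸ mem_univ z : z ∈ Q))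
  have hn₁Q : n₁ ∈ Q := mem_connectedComponentIn hn₁'
  have hx₁ : f x₁ = p n₁ := hSE _ hq₁
  have hx₁mem : x₁ ∈ f ⁻¹' (p '' Q) := ⟨n₁, hn₁Q, hx₁.symm⟩
  have hpQ : IsSubcontinuum (p '' Q) := ⟨hQs.1.image hp, hQs.2.image _ hp.continuousOn⟩
  have him := hf.image_component (p '' Q) hpQ _ ⟨x₁, hx₁mem, rfl⟩
  have h3 : p n₂ ∈ f '' (connectedComponentIn (f ⁻¹' (p '' Q)) x₁) := by
    rw [him]
    exact ⟨n₂, hn₂, rfl⟩
  obtain ⟨x₂, hx₂, he⟩ := h3
  exact hn₂F ⟨_, hm Q hQs hQne x₁ x₂ n₁ hn₁Q n₂ hn₂ hx₁ he hx₂ hq₁, rfl⟩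

end Pool.Agent.ACL.Min

namespace Pool.Agent.ACL

open Set Filter Topology LibConfluent Pool.Agent.ACL.Min

theorem chn_sub {X : Type} [MetricSpace X] (hX : Chn X) (D : Set X) : Chn D := by
  intro ε hε
  obtain ⟨g, hg, δ, hδ, h⟩ := hX ε hε
  exact ⟨fun x => g x, hg.comp continuous_subtype_val, δ, hδ, fun x y hxy => h x y hxy⟩

theorem min_proof (hChain : Stmt_Chain) (hRestrict : Stmt_Restrict) (hBump : Stmt_Bump) :
    Stmt_Min := by
  intro hNo X Y N _ _ _ _ _ _ _ _ _ f p hX hf hp hps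
  have hfc := hf.continuous
  have hEcl : IsClosed {q : X × N | f q.1 = p q.2} :=
    isClosed_eq (hfc.comp continuous_fst) (hp.comp continuous_snd)
  constructor
  · obtain ⟨n⟩ := (inferInstance : Nonempty N)
    obtain ⟨x, hx⟩ := hf.surjective (p n)
    exact ⟨(x, n), hx⟩
  rw [isPreconnected_closed_iff]
  intro t t' ht ht' hcov hne hne'
  by_contra hcon
  rw [not_nonempty_iff_eq_empty] at hcon
  -- the two colours
  set G : Set (X × N) := {q : X × N | f q.1 = p q.2} ∩ t with hGdef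
  set H : Set (X × N) := {q : X × N | f q.1 = p q.2} ∩ t' with hHdef
  have hG : IsClosed G := hEcl.inter ht
  have hH : IsClosed H := hEcl.inter ht'
  have hGH : ∀ q, q ∈ G → q ∈ H → False := by
    intro q h1 h2
    have : q ∈ {q : X × N | f q.1 = p q.2} ∩ (t ∩ t') := ⟨h1.1, h1.2, h2.2⟩
    rw [hcon] at this
    exact this
  have hun : ∀ q : X × N, f q.1 = p q.2 → q ∈ G ∨ q ∈ H := by
    intro q hq
    rcases hcov hq with h | h
    · exact Or.inl ⟨hq, h⟩
    · exact Or.inr ⟨hq, h⟩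
  -- the family
  set 𝓜 : Set (Set N) := {M | IsSubcontinuum M ∧ ∃ x n x' n', Bi f p G H M x n x' n'} with h𝓜
  have huniv : (univ : Set N) ∈ 𝓜 := by
    refine ⟨⟨isCompact_univ, isConnected_univ⟩, ?_⟩
    obtain ⟨⟨x, n⟩, hq⟩ := hne
    obtain ⟨⟨x', n'⟩, hq'⟩ := hne'
    refine ⟨x, n, x', n', mem_univ _, mem_univ _, hq.1, hq'.1, ?_, hq, hq'⟩
    have e : f ⁻¹' (p '' (univ : Set N)) = univ := by
      rw [image_univ, hps.range_eq, preimage_univ]
    rw [e, connectedComponentIn_univ, PreconnectedSpace.connectedComponent_eq_univ]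
    exact mem_univ _
  obtain ⟨M₀, -, hmin⟩ := zorn_superset_nonempty 𝓜 (by
    intro c hc hchain hcne
    have h := chain_step hChain f p hfc hp G H hG hH c hchain hcne (fun M hM => hc hM)
    exact ⟨⋂₀ c, h, fun s hs => sInter_subset_of_mem hs⟩) univ huniv
  obtain ⟨hM₀s, x₀, n₀, x₀', n₀', h1, h2, h3, h4, h5, h6, h7⟩ := hmin.prop
  -- the restricted situation
  set K : Set Y := p '' M₀ with hK
  have hKs : IsSubcontinuum K := ⟨hM₀s.1.image hp, hM₀s.2.image _ hp.continuousOn⟩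
  have hx₀K : f x₀ ∈ K := ⟨n₀, h1, h3.symm⟩
  have hFcl : IsClosed (f ⁻¹' K) := hKs.1.isClosed.preimage hfc
  set D : Set X := connectedComponentIn (f ⁻¹' K) x₀ with hD
  have hDs : IsSubcontinuum D := comp_subcont hFcl hx₀K
  have : CompactSpace D := isCompact_iff_compactSpace.mp hDs.1
  have : ConnectedSpace D := isConnected_iff_connectedSpace.mp hDs.2
  have : CompactSpace K := isCompact_iff_compactSpace.mp hKs.1
  have : ConnectedSpace K := isConnected_iff_connectedSpace.mp hKs.2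
  have : CompactSpace M₀ := isCompact_iff_compactSpace.mp hM₀s.1
  have : ConnectedSpace M₀ := isConnected_iff_connectedSpace.mp hM₀s.2
  have hDK : ∀ x : D, f x ∈ K := fun x => connectedComponentIn_subset (f ⁻¹' K) x₀ x.2
  set f' : D → K := fun x => ⟨f x, hDK x⟩ with hf'
  set p' : M₀ → K := fun n => ⟨p n, ⟨n, n.2, rfl⟩⟩ with hp'
  have hf'c : Confluent f' := hRestrict X Y f K x₀ hx₀K hf hKs hDK
  have hp'c : Continuous p' := (hp.comp continuous_subtype_val).subtype_mk _
  have hp's : Function.Surjective p' := by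
    rintro ⟨y, n, hn, rfl⟩
    exact ⟨⟨n, hn⟩, rfl⟩
  have hv : Continuous (fun q : D × M₀ => ((q.1 : X), (q.2 : N))) :=
    (continuous_subtype_val.comp continuous_fst).prodMk (continuous_subtype_val.comp continuous_snd)
  set G' : Set (D × M₀) := (fun q : D × M₀ => ((q.1 : X), (q.2 : N))) ⁻¹' G with hG'
  set H' : Set (D × M₀) := (fun q : D × M₀ => ((q.1 : X), (q.2 : N))) ⁻¹' H with hH'
  have hG'c : IsClosed G' := hG.preimage hv
  have hH'c : IsClosed H' := hH.preimage hv
  have hG'E : ∀ q ∈ G', f' q.1 = p' q.2 := fun q hq => Subtype.ext (hq : _ ∈ G).1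
  have hH'E : ∀ q ∈ H', f' q.1 = p' q.2 := fun q hq => Subtype.ext (hq : _ ∈ H).1
  -- no bichromatic components over proper subcontinua
  have hprop : ∀ M : Set M₀, IsSubcontinuum M → M ≠ univ → ∀ x x' : D, ∀ n ∈ M, ∀ n' ∈ M,
      f' x = p' n → f' x' = p' n' → x' ∈ connectedComponentIn (f' ⁻¹' (p' '' M)) x →
      (x, n) ∈ G' → (x', n') ∈ H' → False := by
    intro M hM hMne x x' n hn n' hn' hxn hxn' hcomp hxG hxH
    set M₁ : Set N := Subtype.val '' M with hM₁
    have hM₁s : IsSubcontinuum M₁ :=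
      ⟨hM.1.image continuous_subtype_val, hM.2.image _ continuous_subtype_val.continuousOn⟩
    have hM₁le : M₁ ⊆ M₀ := by
      rintro _ ⟨m, -, rfl⟩
      exact m.2
    have hmem : M₁ ∈ 𝓜 := by
      refine ⟨hM₁s, x, n, x', n', ⟨n, hn, rfl⟩, ⟨n', hn', rfl⟩, congrArg Subtype.val hxn,
        congrArg Subtype.val hxn', ?_, hxG, hxH⟩
      have hxmem : x ∈ f' ⁻¹' (p' '' M) := ⟨n, hn, hxn.symm⟩
      have hpre : IsPreconnected ((Subtype.val : D → X) ''
          (connectedComponentIn (f' ⁻¹' (p' '' M)) x)) :=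
        isPreconnected_connectedComponentIn.image _ continuous_subtype_val.continuousOn
      refine hpre.subset_connectedComponentIn ⟨x, mem_connectedComponentIn hxmem, rfl⟩ ?_
        ⟨x', hcomp, rfl⟩
      rintro _ ⟨z, hz, rfl⟩
      obtain ⟨m, hm, he⟩ := connectedComponentIn_subset (f' ⁻¹' (p' '' M)) x hz
      exact ⟨m, ⟨m, hm, rfl⟩, congrArg Subtype.val he⟩
    have hle := hmin.le_of_le hmem hM₁le
    apply hMne
    rw [eq_univ_iff_forall]
    intro m
    obtain ⟨m', hm', he⟩ := hle m.2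
    rwa [Subtype.ext he] at hm'
  have hcompsymm : ∀ (F : Set D) (x x' : D), x ∈ F → x' ∈ connectedComponentIn F x →
      x ∈ connectedComponentIn F x' := by
    intro F x x' hx h
    rw [← connectedComponentIn_eq h]
    exact mem_connectedComponentIn hx
  have hun' : ∀ (x : D) (n : M₀), f' x = p' n → (x, n) ∈ G' ∨ (x, n) ∈ H' := by
    intro x n h
    exact hun ((x : X), (n : N)) (congrArg Subtype.val h)
  have hGH' : ∀ q : D × M₀, q ∈ G' → q ∈ H' → False := fun q h1 h2 => hGH _ h1 h2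
  have hmG : ∀ M : Set M₀, IsSubcontinuum M → M ≠ univ → ∀ x x' : D, ∀ n ∈ M, ∀ n' ∈ M,
      f' x = p' n → f' x' = p' n' → x' ∈ connectedComponentIn (f' ⁻¹' (p' '' M)) x →
      (x, n) ∈ G' → (x', n') ∈ G' := by
    intro M hM hMne x x' n hn n' hn' hxn hxn' hcomp hxG
    rcases hun' x' n' hxn' with h | h
    · exact h
    · exact (hprop M hM hMne x x' n hn n' hn' hxn hxn' hcomp hxG h).elim
  have hmH : ∀ M : Set M₀, IsSubcontinuum M → M ≠ univ → ∀ x x' : D, ∀ n ∈ M, ∀ n' ∈ M,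
      f' x = p' n → f' x' = p' n' → x' ∈ connectedComponentIn (f' ⁻¹' (p' '' M)) x →
      (x, n) ∈ H' → (x', n') ∈ H' := by
    intro M hM hMne x x' n hn n' hn' hxn hxn' hcomp hxH
    rcases hun' x' n' hxn' with h | h
    · exact (hprop M hM hMne x' x n' hn' n hn hxn' hxn
        (hcompsymm _ _ _ ⟨n, hn, hxn.symm⟩ hcomp) h hxH).elim
    · exact h
  have hG'ne : G'.Nonempty := ⟨(⟨x₀, mem_connectedComponentIn hx₀K⟩, ⟨n₀, h1⟩), h6⟩
  have hH'ne : H'.Nonempty := ⟨(⟨x₀', h5⟩, ⟨n₀', h2⟩), h7⟩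
  have hBad : Bad f' p' G' H' :=
    { conf := hf'c
      pcont := hp'c
      psurj := hp's
      closedG := hG'c
      closedH := hH'c
      disj := by
        rw [disjoint_left]
        exact fun q h1 h2 => hGH' q h1 h2
      union := by
        ext q
        constructor
        · rintro (h | h)
          · exact hG'E q h
          · exact hH'E q h
        · intro h
          exact hun' q.1 q.2 h
      mono := by
        intro M hM hMne x x' n hn n' hn' hxn hxn' hcomp
        constructor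
        · exact hmG M hM hMne x x' n hn n' hn' hxn hxn' hcomp
        · exact hmG M hM hMne x' x n' hn' n hn hxn' hxn
            (hcompsymm _ _ _ ⟨n, hn, hxn.symm⟩ hcomp)
      surjG := surj_of hBump f' p' hf'c hp'c G' hG'c hG'ne hG'E hmG
      surjH := surj_of hBump f' p' hf'c hp'c H' hH'c hH'ne hH'E hmH }
  rcases subsingleton_or_nontrivial K with hsing | hnon
  · -- one point: the pullback is the whole product
    have hcov' : (univ : Set (D × M₀)) ⊆ G' ∪ H' := fun q _ => hun' q.1 q.2 (Subsingleton.elim _ _)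
    have hconn : IsPreconnected (univ : Set (D × M₀)) := isPreconnected_univ
    rw [isPreconnected_closed_iff] at hconn
    obtain ⟨q, -, hq1, hq2⟩ := hconn G' H' hG'c hH'c hcov'
      (by rw [univ_inter]; exact hG'ne) (by rw [univ_inter]; exact hH'ne)
    exact hGH' q hq1 hq2
  · exact hNo D K M₀ f' p' G' H' (chn_sub hX D) hBad

end Pool.Agent.ACL

end
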