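import Pool.Agent.ACL.Count
import Pool.Agent.ACL.Basic

/-!
# Separation over large proper subcontinua
-/

set_option autoImplicit false

noncomputable section

namespace Pool.Agent.ACL

open Set Filter Topology LibConfluent Pool.Agent.ACL.Count

theorem sepEq_proof (hSepB : Stmt_SepB) : Stmt_SepEq := by
  intro X Y N _ _ _ _ _ _ _ _ f p G H m η hWp hB hC K K' hK hK' hK'u hKK hd
  -- second statement in general
  have main : ∀ L : Set Y, IsSubcontinuum L → L ≠ univ → Dns η L →
      ∀ v : Fin m → X, (∀ i, f (v i) ∈ L) → (∀ i j, i ≠ j → Sep p G H L (v i) (v j)) →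
      ∀ x, f x ∈ L → ∃ i, ¬ Sep p G H L x (v i) := by
    intro L hL hLu hLd v hv hs x hx
    obtain ⟨h1, h2, h3, h4, -, -⟩ := hSepB X Y N f p G H hB L hL hLu
    by_contra hcon
    push Not at hcon
    -- all points
    have hw : ∀ a : Fin (m + 1), f ((Fin.cons x v : Fin (m + 1) → X) a) ∈ L := by
      intro a
      refine Fin.cases ?_ (fun i => ?_) a
      · simpa using hx
      · simpa using hv i
    have hws : ∀ a b : Fin (m + 1), a ≠ b →
        Sep p G H L ((Fin.cons x v : Fin (m + 1) → X) a) ((Fin.cons x v : Fin (m + 1) → X) b) := by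
      intro a b
      refine Fin.cases ?_ (fun i => ?_) a <;> refine Fin.cases ?_ (fun j => ?_) b
      · intro h; exact (h rfl).elim
      · intro _
        simpa using hcon j
      · intro _
        simpa using h2 _ _ (hcon i)
      · intro hij
        simpa using hs i j (fun h => hij (by rw [h]))
    -- move to the fibre over f x
    have hmove : ∀ a : Fin (m + 1), ∃ u, f u = f x ∧
        ¬ Sep p G H L ((Fin.cons x v : Fin (m + 1) → X) a) u := by
      intro a
      obtain ⟨u, hu, hux⟩ := exists_comp hB.conf hL (hw a) hx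
      exact ⟨u, hux, h4 _ _ (hw a) hu⟩
    choose u hu hn using hmove
    refine hC.2.2.2 L hL hLu hLd (f x) hx ⟨u, hu, fun a b hab => ?_⟩
    by_contra hno
    have e1 := h3 _ _ _ (hw a) (by rw [hu]; exact hx) (by rw [hu]; exact hx) (hn a) hno
    have hnb : ¬ Sep p G H L (u b) ((Fin.cons x v : Fin (m + 1) → X) b) := fun h => hn b (h2 _ _ h)
    have e2 := h3 _ _ _ (hw a) (by rw [hu]; exact hx) (hw b) e1 hnb
    exact e2 (hws a b hab)
  have hKu : K ≠ univ := by
    rintro rfl
    exact hK'u (univ_subset_iff.1 hKK)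
  have hd' : Dns η K' := fun x => by
    obtain ⟨a, ha, h⟩ := hd x
    exact ⟨a, hKK ha, h⟩
  refine ⟨fun x x' hx hx' => ⟨fun hs => ?_, fun hs => ?_⟩, main K hK hKu hd⟩
  · by_contra hno
    obtain ⟨h1, h2, h3, h4, -, -⟩ := hSepB X Y N f p G H hB K hK hKu
    obtain ⟨h1', h2', h3', h4', -, -⟩ := hSepB X Y N f p G H hB K' hK' hK'u
    obtain ⟨v, hv, hvs⟩ := hC.2.2.1 K' hK' hK'u (f x) (hKK hx)
    have hvK : ∀ i, f (v i) ∈ K := fun i => by rw [hv]; exact hx
    have hvK' : ∀ i, f (v i) ∈ K' := fun i => hKK (hvK i)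
    have hvs' : ∀ i j, i ≠ j → Sep p G H K (v i) (v j) := fun i j hij =>
      sep_restrict hB hWp hK'u hK hKK (hvK i) (hvK j) (hvs i j hij)
    obtain ⟨i, hi⟩ := main K' hK' hK'u hd' v hvK' hvs x (hKK hx)
    have hi' : ¬ Sep p G H K' x' (v i) :=
      h3' _ _ _ (hKK hx') (hKK hx) (hvK' i) (fun h => hno (h2' _ _ h)) hi
    -- one of the points is separated from `v i` over `K`
    obtain ⟨y, hy, hyi, hyK⟩ : ∃ y, f y ∈ K ∧ ¬ Sep p G H K' y (v i) ∧ Sep p G H K y (v i) := by
      by_cases h : Sep p G H K x (v i)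
      · exact ⟨x, hx, hi, h⟩
      · refine ⟨x', hx', hi', ?_⟩
        by_contra h'
        exact h3 _ _ _ hx (hvK i) hx' h (fun h'' => h' (h2 _ _ h'')) hs
    obtain ⟨j, hj⟩ := main K hK hKu hd v hvK hvs' y hy
    by_cases hij : j = i
    · exact hj (hij ▸ hyK)
    · apply hj
      refine sep_restrict hB hWp hK'u hK hKK hy (hvK j) ?_
      by_contra hyj
      exact h3' _ _ _ (hvK' j) (hKK hy) (hvK' i) (fun h => hyj (h2' _ _ h)) hyi (hvs j i hij)
  · exact sep_restrict hB hWp hK'u hK hKK hx hx' hs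

end Pool.Agent.ACL

end
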