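import Pool.Agent.ACL.Stmts

/-! TOP1: intersections of chains of subcontinua, limits of sequences of subcontinua. -/

set_option autoImplicit false

namespace Pool.Agent.ACL

open Set Filter Topology LibConfluent

theorem chain_proof : Stmt_Chain := by
  intro X _ c hne hc hK
  have : Nonempty c := hne.to_subtype
  have hdir : Directed (· ⊇ ·) (fun s : c => (s : Set X)) := by
    intro s t
    rcases eq_or_ne (s : Set X) t with h | h
    · exact ⟨s, Subset.rfl, h.le⟩
    · rcases hc s.2 t.2 h with h' | h'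
      · exact ⟨s, Subset.rfl, h'⟩
      · exact ⟨t, h', Subset.rfl⟩
  have hcpt : ∀ s : c, IsCompact (s : Set X) := fun s => (hK s s.2).1
  have hcl : ∀ s : c, IsClosed (s : Set X) := fun s => (hcpt s).isClosed
  rw [sInter_eq_iInter]
  obtain ⟨s₀⟩ := ‹Nonempty c›
  have : Nonempty c := ⟨s₀⟩
  have hKI : IsCompact (⋂ s : c, (s : Set X)) :=
    (hcpt s₀).of_isClosed_subset (isClosed_iInter hcl) (iInter_subset _ s₀)
  refine ⟨hKI, IsCompact.nonempty_iInter_of_directed_nonempty_isCompact_isClosed _ hdir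
    (fun s => (hK s s.2).2.nonempty) hcpt hcl, ?_⟩
  rw [isPreconnected_closed_iff]
  intro t t' ht ht' hsub hn hn'
  by_contra hcon
  rw [not_nonempty_iff_eq_empty] at hcon
  have hd : Disjoint ((⋂ s : c, (s : Set X)) ∩ t) ((⋂ s : c, (s : Set X)) ∩ t') := by
    rw [disjoint_iff_inter_eq_empty, ← inter_inter_distrib_left]
    exact hcon
  obtain ⟨U, V, hU, hV, hUt, hVt, hUV⟩ := SeparatedNhds.of_isCompact_isCompact
    (hKI.inter_right ht) (hKI.inter_right ht') hd
  obtain ⟨n, hAn⟩ := exists_subset_nhds_of_isCompact' (V := fun s : c => (s : Set X)) hdir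
    hcpt hcl (U := U ∪ V) (by
      intro x hx
      apply (hU.union hV).mem_nhds
      rcases hsub hx with h | h
      · exact Or.inl (hUt ⟨hx, h⟩)
      · exact Or.inr (hVt ⟨hx, h⟩))
  obtain ⟨x, hx, hxt⟩ := hn
  obtain ⟨y, hy, hyt⟩ := hn'
  obtain ⟨z, -, hzU, hzV⟩ := (hK n n.2).2.isPreconnected U V hU hV hAn
    ⟨x, iInter_subset _ n hx, hUt ⟨hx, hxt⟩⟩ ⟨y, iInter_subset _ n hy, hVt ⟨hy, hyt⟩⟩
  exact (disjoint_left.mp hUV hzU) hzV

theorem lim_proof : Stmt_Lim := by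
  intro X _ _ K hK
  let C : ℕ → TopologicalSpace.NonemptyCompacts X := fun j =>
    ⟨⟨K j, (hK j).1⟩, (hK j).2.nonempty⟩
  obtain ⟨L, -, φ, hφ, hlim⟩ := isCompact_univ.tendsto_subseq (x := C) (fun _ => mem_univ _)
  have hnear : ∀ ε : ℝ, 0 < ε → ∀ᶠ j in atTop, Near ε (K (φ j)) (L : Set X) := by
    intro ε hε
    have h1 := (Metric.tendsto_nhds.mp hlim) ε hε
    filter_upwards [h1] with j hj
    rw [Metric.NonemptyCompacts.dist_eq] at hj
    have hfin : Metric.hausdorffEDist ((C ∘ φ) j : Set X) (L : Set X) ≠ ⊤ :=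
      Metric.hausdorffEDist_ne_top_of_nonempty_of_bounded ((C ∘ φ) j).nonempty L.nonempty
        ((C ∘ φ) j).isCompact.isBounded L.isCompact.isBounded
    constructor
    · intro a ha
      obtain ⟨b, hb, hab⟩ := Metric.exists_dist_lt_of_hausdorffDist_lt (x := a)
        (s := ((C ∘ φ) j : Set X)) ha hj hfin
      exact ⟨b, hb, hab⟩
    · intro b hb
      obtain ⟨a, ha, hab⟩ := Metric.exists_dist_lt_of_hausdorffDist_lt' (y := b)
        (s := ((C ∘ φ) j : Set X)) (t := (L : Set X)) hb hj hfin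
      exact ⟨a, ha, hab⟩
  refine ⟨(L : Set X), φ, ⟨L.isCompact, L.nonempty, ?_⟩, hφ, hnear⟩
  rw [isPreconnected_closed_iff]
  intro t t' ht ht' hsub hn hn'
  by_contra hcon
  rw [not_nonempty_iff_eq_empty] at hcon
  have hd : Disjoint ((L : Set X) ∩ t) ((L : Set X) ∩ t') := by
    rw [disjoint_iff_inter_eq_empty, ← inter_inter_distrib_left]
    exact hcon
  obtain ⟨δ, hδ, hdis⟩ := hd.exists_thickenings (L.isCompact.inter_right ht)
    (L.isCompact.inter_right ht').isClosed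
  obtain ⟨j, hj⟩ := (hnear δ hδ).exists
  have hsub' : K (φ j) ⊆ Metric.thickening δ ((L : Set X) ∩ t) ∪
      Metric.thickening δ ((L : Set X) ∩ t') := by
    intro x hx
    obtain ⟨b, hb, hxb⟩ := hj.1 x hx
    rcases hsub hb with h | h
    · exact Or.inl (Metric.mem_thickening_iff.mpr ⟨b, ⟨hb, h⟩, hxb⟩)
    · exact Or.inr (Metric.mem_thickening_iff.mpr ⟨b, ⟨hb, h⟩, hxb⟩)
  have hmeet : ∀ s : Set X, ((L : Set X) ∩ s).Nonempty →
      (K (φ j) ∩ Metric.thickening δ ((L : Set X) ∩ s)).Nonempty := by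
    rintro s ⟨b, hbL, hbs⟩
    obtain ⟨a, ha, hab⟩ := hj.2 b hbL
    exact ⟨a, ha, Metric.mem_thickening_iff.mpr ⟨b, ⟨hbL, hbs⟩, hab⟩⟩
  obtain ⟨z, -, hz1, hz2⟩ := (hK (φ j)).2.isPreconnected _ _ Metric.isOpen_thickening
    Metric.isOpen_thickening hsub' (hmeet t hn) (hmeet t' hn')
  exact (disjoint_left.mp hdis hz1) hz2

end Pool.Agent.ACL
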