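import Pool.Agent.ACL.Basic

/-!
# Module TOP2: separation of components, boundary bumping, small enlargements
-/

set_option autoImplicit false

noncomputable section

namespace Pool.Agent.ACL

open Set Filter Topology LibConfluent

namespace TOP2

theorem point_sep {K : Type} [TopologicalSpace K] [CompactSpace K] [T2Space K] (B : Set K)
    (hB : IsClosed B) (x : K) (h : Disjoint (connectedComponent x) B) :
    ∃ Z : Set K, IsClopen Z ∧ x ∈ Z ∧ Disjoint Z B := by
  rw [connectedComponent_eq_iInter_isClopen] at h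
  haveI : Nonempty {s : Set K // IsClopen s ∧ x ∈ s} := ⟨⟨univ, isClopen_univ, mem_univ x⟩⟩
  have h1 : B ∩ ⋂ i : {s : Set K // IsClopen s ∧ x ∈ s}, (i : Set K) = ∅ := by
    rw [inter_comm]
    exact h.inter_eq
  obtain ⟨i, hi⟩ := hB.isCompact.elim_directed_family_closed
    (fun i : {s : Set K // IsClopen s ∧ x ∈ s} => (i : Set K)) (fun i => i.2.1.1) h1 (by
      intro i j
      exact ⟨⟨i.1 ∩ j.1, i.2.1.inter j.2.1, i.2.2, j.2.2⟩, inter_subset_left, inter_subset_right⟩)
  exact ⟨i, i.2.1, i.2.2, by rw [disjoint_iff_inter_eq_empty, inter_comm]; exact hi⟩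

theorem clopen_sep {K : Type} [TopologicalSpace K] [CompactSpace K] [T2Space K] (A B : Set K)
    (hA : IsClosed A) (hB : IsClosed B) (h : ∀ x ∈ A, Disjoint (connectedComponent x) B) :
    ∃ Z : Set K, IsClopen Z ∧ A ⊆ Z ∧ Disjoint Z B := by
  refine hA.isCompact.induction_on (p := fun S => ∃ Z : Set K, IsClopen Z ∧ S ⊆ Z ∧ Disjoint Z B)
    ⟨∅, isClopen_empty, empty_subset _, empty_disjoint _⟩ ?_ ?_ ?_
  · rintro s t hst ⟨Z, hZ, htZ, hd⟩
    exact ⟨Z, hZ, hst.trans htZ, hd⟩
  · rintro s t ⟨Z, hZ, hsZ, hd⟩ ⟨Z', hZ', htZ', hd'⟩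
    exact ⟨Z ∪ Z', hZ.union hZ', union_subset_union hsZ htZ', disjoint_union_left.2 ⟨hd, hd'⟩⟩
  · intro x hx
    obtain ⟨Z, hZ, hxZ, hd⟩ := point_sep B hB x (h x hx)
    exact ⟨Z, mem_nhdsWithin_of_mem_nhds (hZ.2.mem_nhds hxZ), Z, hZ, Subset.rfl, hd⟩

end TOP2

open TOP2

theorem compSep_proof : Stmt_CompSep := by
  intro X _ _ F A B hF hA hB hAF hBF h
  haveI : CompactSpace F := isCompact_iff_compactSpace.1 hF.isCompact
  obtain ⟨Z, hZ, hAZ, hZB⟩ := clopen_sep (K := F) ((↑) ⁻¹' A) ((↑) ⁻¹' B)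
    (hA.preimage continuous_subtype_val) (hB.preimage continuous_subtype_val) (by
      rintro ⟨x, hxF⟩ hxA
      rw [disjoint_left]
      rintro ⟨y, hyF⟩ hy hyB
      have h1 := h x hxA
      rw [connectedComponentIn_eq_image hxF, disjoint_left] at h1
      exact h1 ⟨_, hy, rfl⟩ hyB)
  refine ⟨(↑) '' Z, (↑) '' Zᶜ, hF.isClosedEmbedding_subtypeVal.isClosedMap _ hZ.1,
    hF.isClosedEmbedding_subtypeVal.isClosedMap _ hZ.compl.1, ?_, ?_, ?_, ?_⟩
  · exact (disjoint_image_iff Subtype.val_injective).2 disjoint_compl_right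
  · rw [← image_union, union_compl_self, image_univ, Subtype.range_coe]
  · intro a ha
    exact ⟨⟨a, hAF ha⟩, hAZ ha, rfl⟩
  · intro b hb
    exact ⟨⟨b, hBF hb⟩, fun hbZ => disjoint_left.1 hZB hbZ hb, rfl⟩

theorem bump_proof : Stmt_Bump := by
  intro X _ _ _ F x hF hne hx
  by_contra hcon
  rw [not_nonempty_iff_eq_empty] at hcon
  obtain ⟨F₁, F₂, h1, h2, hd, hu, hA, hB⟩ := compSep_proof X F {x} (F ∩ closure Fᶜ) hF
    isClosed_singleton (hF.inter isClosed_closure) (singleton_subset_iff.2 hx) inter_subset_left (by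
      intro y hy
      rw [mem_singleton_iff.1 hy, disjoint_left]
      intro z hz hz'
      have : z ∈ connectedComponentIn F x ∩ closure Fᶜ := ⟨hz, hz'.2⟩
      rw [hcon] at this
      exact this)
  have hx1 : x ∈ F₁ := hA rfl
  have hop : IsOpen F₁ := by
    have : F₁ᶜ = F₂ ∪ closure Fᶜ := by
      ext y
      constructor
      · intro hy
        by_cases hyF : y ∈ F
        · rw [← hu] at hyF
          exact Or.inl (hyF.resolve_left hy)
        · exact Or.inr (subset_closure hyF)
      · rintro (hy | hy) hy1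
        · exact disjoint_left.1 hd hy1 hy
        · exact disjoint_left.1 hd hy1 (hB ⟨hu ▸ Or.inl hy1, hy⟩)
    rw [← isClosed_compl_iff, this]
    exact h2.union isClosed_closure
  have huniv : F₁ = univ := IsClopen.eq_univ ⟨h1, hop⟩ ⟨x, hx1⟩
  apply hne
  rw [← hu, huniv, univ_union]

theorem grow_proof : Stmt_Grow := by
  intro X _ _ _ K ε hK hne hε
  obtain ⟨k₀, hk₀⟩ := hK.2.nonempty
  have hcl : IsClosed {x : X | Metric.infDist x K ≤ ε / 2} :=
    isClosed_le (Metric.continuous_infDist_pt K) continuous_const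
  have hlt : ∀ x, Metric.infDist x K ≤ ε / 2 → ∃ k ∈ K, dist x k < ε := by
    intro x hx
    exact (Metric.infDist_lt_iff ⟨k₀, hk₀⟩).1 (by linarith)
  by_cases hF : {x : X | Metric.infDist x K ≤ ε / 2} = univ
  · refine ⟨univ, subcont_univ, subset_univ _, fun h => hne h.symm, ?_⟩
    intro x _
    apply hlt
    have : x ∈ {x : X | Metric.infDist x K ≤ ε / 2} := by rw [hF]; trivial
    exact this
  · have hKF : K ⊆ {x : X | Metric.infDist x K ≤ ε / 2} := by
      intro k hk
      show Metric.infDist k K ≤ ε / 2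
      rw [Metric.infDist_zero_of_mem hk]
      positivity
    refine ⟨connectedComponentIn {x : X | Metric.infDist x K ≤ ε / 2} k₀,
      subcont_comp hcl (hKF hk₀),
      hK.2.isPreconnected.subset_connectedComponentIn hk₀ hKF, ?_, ?_⟩
    · intro heq
      obtain ⟨z, hz1, hz2⟩ := bump_proof X _ k₀ hcl hF (hKF hk₀)
      rw [heq] at hz1
      have h3 : ε / 2 ≤ Metric.infDist z K := by
        have hcl2 : IsClosed {x : X | ε / 2 ≤ Metric.infDist x K} :=
          isClosed_le continuous_const (Metric.continuous_infDist_pt K)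
        have : closure {x : X | Metric.infDist x K ≤ ε / 2}ᶜ ⊆ {x : X | ε / 2 ≤ Metric.infDist x K} := by
          apply closure_minimal _ hcl2
          intro y hy
          simp only [mem_compl_iff, Set.mem_ofPred_eq, not_le] at hy
          exact hy.le
        exact this hz2
      rw [Metric.infDist_zero_of_mem hz1] at h3
      linarith
    · intro x hx
      exact hlt x (show x ∈ {x : X | Metric.infDist x K ≤ ε / 2} from connectedComponentIn_subset _ _ hx)

end Pool.Agent.ACL

end
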