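import Pool.Agent.ACL.Basic

/-!
# Module TOP3: dense proper subcontinua and saturated sets
-/

set_option autoImplicit false

noncomputable section

namespace Pool.Agent.ACL

open Set Filter Topology LibConfluent

theorem dense_proof (hGrow : Stmt_Grow) : Stmt_Dense := by
  intro X _ _ _ K ε hK hne hε
  by_cases hd : Dns ε K
  · exact ⟨K, hK, Subset.rfl, hne, hd⟩
  let S : Set (Set X) := {K' | IsSubcontinuum K' ∧ K ⊆ K' ∧ {z : X | ∀ k ∈ K', ε ≤ dist z k}.Nonempty}
  have hKS : K ∈ S := by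
    refine ⟨hK, Subset.rfl, ?_⟩
    simp only [Dns, not_forall, not_exists, not_and, not_lt] at hd
    obtain ⟨x, hx⟩ := hd
    exact ⟨x, hx⟩
  obtain ⟨k₀, hk₀⟩ := hK.2.nonempty
  obtain ⟨M, hKM, hM⟩ := zorn_subset_nonempty S (by
    intro c hcS hc hcne
    refine ⟨closure (⋃₀ c), ⟨⟨isClosed_closure.isCompact, ?_⟩, ?_, ?_⟩, ?_⟩
    · apply IsConnected.closure
      obtain ⟨K₁, hK₁⟩ := hcne
      refine ⟨⟨k₀, K₁, hK₁, (hcS hK₁).2.1 hk₀⟩, ?_⟩
      exact isPreconnected_sUnion k₀ c (fun s hs => (hcS hs).2.1 hk₀)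
        (fun s hs => (hcS hs).1.2.isPreconnected)
    · obtain ⟨K₁, hK₁⟩ := hcne
      exact (hcS hK₁).2.1.trans ((subset_sUnion_of_mem hK₁).trans subset_closure)
    · have hcl : ∀ K' : Set X, IsClosed {z : X | ∀ k ∈ K', ε ≤ dist z k} := by
        intro K'
        have : {z : X | ∀ k ∈ K', ε ≤ dist z k} = ⋂ k ∈ K', {z : X | ε ≤ dist z k} := by
          ext z
          simp
        rw [this]
        exact isClosed_biInter fun k _ =>
          isClosed_le continuous_const (continuous_id.dist continuous_const)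
      have hne' : Nonempty c := hcne.to_subtype
      have h1 := IsCompact.nonempty_iInter_of_directed_nonempty_isCompact_isClosed
        (fun K' : c => {z : X | ∀ k ∈ (K' : Set X), ε ≤ dist z k}) (by
          intro a b
          rcases hc.total a.2 b.2 with h | h
          · exact ⟨b, fun z hz k hk => hz k (h hk), Subset.rfl⟩
          · exact ⟨a, Subset.rfl, fun z hz k hk => hz k (h hk)⟩)
        (fun K' => (hcS K'.2).2.2) (fun K' => (hcl K').isCompact) (fun K' => hcl K')
      obtain ⟨z, hz⟩ := h1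
      refine ⟨z, ?_⟩
      intro k hk
      have hcl2 : IsClosed {k : X | ε ≤ dist z k} :=
        isClosed_le continuous_const (continuous_const.dist continuous_id)
      have hsub : ⋃₀ c ⊆ {k : X | ε ≤ dist z k} := by
        rintro k ⟨K', hK', hk⟩
        exact mem_iInter.1 hz ⟨K', hK'⟩ k hk
      exact closure_minimal hsub hcl2 hk
    · intro s hs
      exact (subset_sUnion_of_mem hs).trans subset_closure) K hKS
  obtain ⟨z, hz⟩ := hM.prop.2.2
  have hz' : ∀ k ∈ M, ε ≤ dist z k := hz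
  have hMne : M ≠ univ := by
    intro h
    have := hz' z (by rw [h]; trivial)
    rw [dist_self] at this
    linarith
  obtain ⟨K', hK', hMK', hne', hclose⟩ := hGrow X M ε hM.prop.1 hMne hε
  refine ⟨K', hK', hKM.trans hMK', ?_, ?_⟩
  · intro h
    obtain ⟨k, hk, hlt⟩ := hclose z (by rw [h]; trivial)
    exact absurd hlt (not_lt.2 (hz' k hk))
  · by_contra hcon
    have hK'S : K' ∈ S := by
      refine ⟨hK', hKM.trans hMK', ?_⟩
      simp only [Dns, not_forall, not_exists, not_and, not_lt] at hcon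
      obtain ⟨x, hx⟩ := hcon
      exact ⟨x, hx⟩
    exact hne' (Subset.antisymm (hM.le_of_ge hK'S hMK') hMK')

theorem sat_proof (hDense : Stmt_Dense) : Stmt_Sat := by
  intro X _ _ L M hL hM hMne hML hsat
  obtain ⟨y, hy⟩ := hMne
  have : CompactSpace L := isCompact_iff_compactSpace.1 hL.1
  have : ConnectedSpace L := isConnected_iff_connectedSpace.1 hL.2
  by_cases hone : ({⟨y, hML hy⟩} : Set L) = univ
  · apply Subset.antisymm hML
    intro x hx
    have h1 : (⟨x, hx⟩ : L) ∈ ({⟨y, hML hy⟩} : Set L) := by rw [hone]; trivial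
    have h2 : x = y := congrArg Subtype.val (mem_singleton_iff.1 h1)
    rw [h2]
    exact hy
  apply Subset.antisymm hML
  intro x hx
  rw [← hM.closure_eq, Metric.mem_closure_iff]
  intro ε hε
  obtain ⟨K', hK', hyK', hne', hd⟩ := hDense L {⟨y, hML hy⟩} ε (subcont_singleton _) hone hε
  obtain ⟨a, ha, hlt⟩ := hd ⟨x, hx⟩
  refine ⟨a, ?_, hlt⟩
  have hS : IsSubcontinuum ((↑) '' K' : Set X) := subcont_image hK' continuous_subtype_val
  refine hsat _ hS ?_ ?_ ⟨y, ⟨⟨y, hML hy⟩, hyK' rfl, rfl⟩, hy⟩ ⟨a, ha, rfl⟩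
  · rintro _ ⟨b, _, rfl⟩
    exact b.2
  · intro h
    apply hne'
    rw [eq_univ_iff_forall]
    rintro ⟨b, hb⟩
    have hb' := hb
    rw [← h] at hb'
    obtain ⟨c, hc, hcb⟩ := hb'
    have : c = ⟨b, hb⟩ := Subtype.ext hcb
    rw [← this]
    exact hc

end Pool.Agent.ACL

end
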