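import Pool.Agent.ACL.Stmts

/-!
# TRIV: the cocycle is trivial
-/

set_option autoImplicit false
set_option linter.unusedSectionVars false

namespace Pool.Agent.ACL

open Set Filter Topology LibConfluent

namespace Triv

/-- integer valued continuous functions on preconnected sets are constant -/
theorem int_const {X : Type} [TopologicalSpace X] {S : Set X} (hS : IsPreconnected S)
    {φ : X → ℝ} (hφ : ContinuousOn φ S) (hint : ∀ x ∈ S, ∃ k : ℤ, φ x = k) {x y : X}
    (hx : x ∈ S) (hy : y ∈ S) : φ x = φ y := by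
  have key : ∀ a ∈ S, ∀ b ∈ S, ¬ φ a < φ b := by
    intro a ha b hb hlt
    obtain ⟨k, hk⟩ := hint a ha
    obtain ⟨l, hl⟩ := hint b hb
    have hkl : k + 1 ≤ l := by
      have : (k : ℝ) < l := by rw [← hk, ← hl]; exact hlt
      have : k < l := by exact_mod_cast this
      omega
    have hkl' : (k : ℝ) + 1 ≤ l := by exact_mod_cast hkl
    obtain ⟨z, hz, hz'⟩ := hS.intermediate_value ha hb hφ
      (show (k : ℝ) + 1 / 2 ∈ Icc (φ a) (φ b) by
        rw [hk, hl]; constructor <;> linarith)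
    obtain ⟨j, hj⟩ := hint z hz
    rw [hj] at hz'
    have h1 : (2 * j : ℝ) = 2 * k + 1 := by linarith
    have h2 : 2 * j = 2 * k + 1 := by exact_mod_cast h1
    omega
  exact le_antisymm (not_lt.1 (key y hy x hx)) (not_lt.1 (key x hx y hy))

theorem int_of_eq {a b : ℝ} (h : (a : T) = (b : T)) : ∃ k : ℤ, a - b = k := by
  have h1 : ((a - b : ℝ) : T) = 0 := by
    rw [AddCircle.coe_sub, h, sub_self]
  rw [AddCircle.coe_eq_zero_iff] at h1
  obtain ⟨k, hk⟩ := h1
  exact ⟨k, by rw [← hk]; simp⟩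

theorem closed_comp {X : Type} [TopologicalSpace X] {F : Set X} (hF : IsClosed F) {x : X}
    (hx : x ∈ F) : IsClosed (connectedComponentIn F x) := by
  apply isClosed_of_closure_subset
  apply IsPreconnected.subset_connectedComponentIn
  · exact isPreconnected_connectedComponentIn.closure
  · exact subset_closure (mem_connectedComponentIn hx)
  · exact closure_minimal (connectedComponentIn_subset _ _) hF

section

variable {X Y G : Type} [MetricSpace X] [CompactSpace X] [MetricSpace Y] [CompactSpace Y]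
  [Group G] {f : X → Y} {σ : X → X → G}

theorem coc_self (h : Coc f σ) (x : X) : σ x x = 1 := by
  have := h.mul x x x rfl rfl
  exact left_eq_mul.1 this

theorem coc_symm (h : Coc f σ) {x y : X} (hxy : f x = f y) : σ y x = (σ x y)⁻¹ := by
  have := h.mul x y x hxy hxy.symm
  rw [coc_self h] at this
  exact eq_inv_of_mul_eq_one_left this.symm

/-- transport of differences along components -/
theorem transport (hY : LiftC Y) (hf : Confluent f) (h : Coc f σ) {s : X → T}
    (hs : Continuous s) (hs1 : ∀ x x', f x = f x' → σ x x' = 1 → s x' = s x) {H : X → ℝ}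
    (hH : Continuous H) (hHs : ∀ x, ((H x : ℝ) : T) = s x) {S : Set Y} (hS : IsSubcontinuum S)
    (hSu : S ≠ univ) {u v u' v' : X} (huS : f u ∈ S) (huv : f u = f v) (hσ : σ u v = 1)
    (hu' : u' ∈ connectedComponentIn (f ⁻¹' S) u) (hv' : v' ∈ connectedComponentIn (f ⁻¹' S) v)
    (huv' : f u' = f v') : H u' - H v' = H u - H v := by
  classical
  have hvS : f v ∈ S := huv ▸ huS
  set D := connectedComponentIn (f ⁻¹' S) u with hD
  set D' := connectedComponentIn (f ⁻¹' S) v with hD'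
  have hfc := hf.continuous
  have hcl : IsClosed (f ⁻¹' S) := hS.1.isClosed.preimage hfc
  have hDc : IsClosed D := closed_comp hcl huS
  have hD'c : IsClosed D' := closed_comp hcl hvS
  have hDS : f '' D = S := hf.image_component S hS D ⟨u, huS, rfl⟩
  have hsub : D ⊆ f ⁻¹' S := connectedComponentIn_subset _ _
  have hsub' : D' ⊆ f ⁻¹' S := connectedComponentIn_subset _ _
  have huD : u ∈ D := mem_connectedComponentIn huS
  have hvD : v ∈ D' := mem_connectedComponentIn hvS
  -- `s` is constant on the fibres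
  have c1 : ∀ a ∈ D, ∀ b ∈ D, f a = f b → s b = s a := by
    intro a ha b hb hab
    apply hs1 a b hab
    rw [← h.move S hS hSu u u a b huS rfl hab ha hb, coc_self h]
  have c2 : ∀ a ∈ D, ∀ b ∈ D', f a = f b → s b = s a := by
    intro a ha b hb hab
    apply hs1 a b hab
    rw [← h.move S hS hSu u v a b huS huv hab ha hb, hσ]
  -- the function on `S`
  have hex : ∀ y : Y, ∃ a : X, y ∈ S → a ∈ D ∧ f a = y := by
    intro y
    by_cases hy : y ∈ S
    · rw [← hDS] at hy
      obtain ⟨a, ha, hay⟩ := hy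
      exact ⟨a, fun _ => ⟨ha, hay⟩⟩
    · exact ⟨u, fun h => absurd h hy⟩
  choose r hr using hex
  let g : Y → T := fun y => s (r y)
  have hgD : ∀ a ∈ D, g (f a) = s a := by
    intro a ha
    obtain ⟨h1, h2⟩ := hr (f a) (hsub ha)
    exact c1 a ha _ h1 h2.symm
  have hgD' : ∀ a ∈ D', g (f a) = s a := by
    intro a ha
    obtain ⟨h1, h2⟩ := hr (f a) (hsub' ha)
    exact (c2 _ h1 a ha h2).symm
  have hg : ContinuousOn g S := by
    rw [continuousOn_iff_isClosed]
    intro C hC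
    refine ⟨f '' (D ∩ s ⁻¹' C), ?_, ?_⟩
    · exact ((hDc.inter (hC.preimage hs)).isCompact.image hfc).isClosed
    · ext y
      constructor
      · rintro ⟨hy, hyS⟩
        obtain ⟨h1, h2⟩ := hr y hyS
        exact ⟨⟨r y, ⟨h1, hy⟩, h2⟩, hyS⟩
      · rintro ⟨⟨a, ⟨ha, haC⟩, rfl⟩, hyS⟩
        refine ⟨?_, hyS⟩
        show g (f a) ∈ C
        rw [hgD a ha]
        exact haC
  obtain ⟨η, hη, hηg⟩ := hY S g hS hg
  have d1 : ∀ a ∈ D, ∀ b ∈ D, H a - η (f a) = H b - η (f b) := by
    intro a ha b hb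
    refine int_const (φ := fun x => H x - η (f x)) isPreconnected_connectedComponentIn
      (hH.continuousOn.sub (hη.comp hfc.continuousOn hsub)) ?_ ha hb
    intro x hx
    apply int_of_eq
    rw [hHs, hηg _ (hsub hx), hgD x hx]
  have d2 : ∀ a ∈ D', ∀ b ∈ D', H a - η (f a) = H b - η (f b) := by
    intro a ha b hb
    refine int_const (φ := fun x => H x - η (f x)) isPreconnected_connectedComponentIn
      (hH.continuousOn.sub (hη.comp hfc.continuousOn hsub')) ?_ ha hb
    intro x hx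
    apply int_of_eq
    rw [hHs, hηg _ (hsub' hx), hgD' x hx]
  have e1 := d1 u' hu' u huD
  have e2 := d2 v' hv' v hvD
  rw [huv'] at e1
  rw [huv] at e1
  linarith

end

end Triv

open Triv

theorem triv_proof (hCnt : Stmt_Cnt) (hEq : Stmt_Eq) (hHT : Stmt_HT) : Stmt_Triv := by
  intro X Y G _ _ _ _ _ _ _ _ f σ hX hY hf h
  have hfc := hf.continuous
  obtain ⟨A, hA⟩ := hCnt X Y G f σ univ hf h isClosed_univ univ_nonempty
    (fun _ _ _ _ _ => mem_univ _) (fun _ _ _ _ _ _ => subset_univ _)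
  have hA' : ∀ x, {τ | ∃ x', f x = f x' ∧ σ x x' = τ} = A := by
    intro x
    rw [← hA x]
    ext τ
    simp
  by_contra hcon
  push Not at hcon
  obtain ⟨a0, b0, hab0, hne⟩ := hcon
  set g := σ a0 b0 with hg
  have hgA : g ∈ A := by
    rw [← hA' a0]
    exact ⟨b0, hab0, rfl⟩
  obtain ⟨s, hs, hs2⟩ := hEq X Y G f σ A g hY hfc hf.surjective h hA' hgA
  have hs1 : ∀ x x', f x = f x' → σ x x' = 1 → s x' = s x := fun x x' hx => (hs2 x x' hx).1
  obtain ⟨H0, hH0, hHs0⟩ := hX univ s ⟨isCompact_univ, isConnected_univ⟩ hs.continuousOn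
  have hH : Continuous H0 := continuousOn_univ.1 hH0
  have hHs : ∀ x, ((H0 x : ℝ) : T) = s x := fun x => hHs0 x (mem_univ _)
  -- the height lemma
  obtain ⟨t, ht1, ht2, ht3⟩ := hHT X univ (fun x y => f x = f y ∧ σ x y = 1)
    (fun x x' => ∃ S : Set Y, IsSubcontinuum S ∧ S ≠ univ ∧ f x ∈ S ∧
      x' ∈ connectedComponentIn (f ⁻¹' S) x) H0 isCompact_univ univ_nonempty
    (fun x _ => ⟨rfl, coc_self h x⟩)
    (fun x _ y _ hxy => ⟨hxy.1.symm, by rw [coc_symm h hxy.1, hxy.2, inv_one]⟩)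
    (fun x _ y _ z _ hxy hyz => ⟨hxy.1.trans hyz.1, by
      rw [h.mul x y z hxy.1 hyz.1, hxy.2, hyz.2, one_mul]⟩)
    (by
      have := h.closed 1
      have e : {q : X × X | q.1 ∈ univ ∧ q.2 ∈ univ ∧ f q.1 = f q.2 ∧ σ q.1 q.2 = 1} =
          {q : X × X | f q.1 = f q.2 ∧ σ q.1 q.2 = 1} := by
        ext q; simp
      rw [e]
      exact this)
    hH.continuousOn
    (fun x _ y _ hxy => int_of_eq (by rw [hHs, hHs, hs1 x y hxy.1 hxy.2]))
    (by
      rintro x - x' - ⟨S, hS, hSu, hxS, hx'⟩ u - v - ⟨hxu, hσu⟩ ⟨hxv, hσv⟩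
      have hx'S : x' ∈ f ⁻¹' S := connectedComponentIn_subset _ _ hx'
      have huS : f u ∈ S := hxu ▸ hxS
      have hvS : f v ∈ S := hxv ▸ hxS
      have e1 := hf.image_component S hS _ ⟨u, huS, rfl⟩
      have e2 := hf.image_component S hS _ ⟨v, hvS, rfl⟩
      obtain ⟨u', hu', hu'x⟩ : f x' ∈ f '' connectedComponentIn (f ⁻¹' S) u := by
        rw [e1]; exact hx'S
      obtain ⟨v', hv', hv'x⟩ : f x' ∈ f '' connectedComponentIn (f ⁻¹' S) v := by
        rw [e2]; exact hx'S
      refine ⟨u', mem_univ _, v', mem_univ _, ⟨hu'x.symm, ?_⟩, ⟨hv'x.symm, ?_⟩, ?_⟩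
      · rw [← h.move S hS hSu x u x' u' hxS hxu hu'x.symm hx' hu', hσu]
      · rw [← h.move S hS hSu x v x' v' hxS hxv hv'x.symm hx' hv', hσv]
      · refine transport hY hf h hs hs1 hH hHs hS hSu huS (hxu.symm.trans hxv) ?_ hu' hv'
          (hu'x.trans hv'x.symm)
        rw [h.mul u x v hxu.symm hxv, hσv, coc_symm h hxu, hσu, inv_one, one_mul])
    (by
      intro M _ hMc hMn hME hMv
      obtain ⟨AM, hAM⟩ := hCnt X Y G f σ M hf h hMc hMn
        (fun x hx x' hxx' hσ => hME x hx x' (mem_univ _) ⟨hxx', hσ⟩)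
        (fun S hS hSu x hx hxS x' hx' => hMv x hx x' (mem_univ _) ⟨S, hS, hSu, hxS, hx'⟩)
      obtain ⟨x1, hx1⟩ := hMn
      have h1 : (1 : G) ∈ AM := by
        rw [← hAM x1]
        exact ⟨x1, hx1, rfl, coc_self h x1⟩
      rw [eq_univ_iff_forall]
      intro x
      rw [← hAM x] at h1
      obtain ⟨x', hx', hxx', hσ⟩ := h1
      exact hME x' hx' x (mem_univ _) ⟨hxx'.symm, by rw [coc_symm h hxx', hσ, inv_one]⟩)
  have htc : Continuous t := continuousOn_univ.1 ht1
  have htE : ∀ x y, f x = f y → σ x y = 1 → t x = t y := fun x y hxy hσ =>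
    ht2 x (mem_univ _) y (mem_univ _) ⟨hxy, hσ⟩
  have hts : ∀ x, ((t x : ℝ) : T) = s x := by
    intro x
    obtain ⟨k, hk⟩ := ht3 x (mem_univ _)
    rw [← hHs x]
    have : t x = H0 x + (k : ℝ) := by linarith
    rw [this, AddCircle.coe_add]
    have h0 : (((k : ℤ) : ℝ) : T) = 0 := by
      rw [AddCircle.coe_eq_zero_iff]
      exact ⟨k, by simp⟩
    rw [h0, add_zero]
  -- the step
  have hex : ∀ x, ∃ x', f x = f x' ∧ σ x x' = g := by
    intro x
    have : g ∈ {τ | ∃ x', f x = f x' ∧ σ x x' = τ} := by rw [hA' x]; exact hgA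
    exact this
  choose nx hnx1 hnx2 using hex
  have hind : ∀ x x', f x = f x' → σ x x' = g → t x' = t (nx x) := by
    intro x x' hx hσ
    apply htE x' (nx x) (hx.symm.trans (hnx1 x))
    rw [h.mul x' x (nx x) hx.symm (hnx1 x), hnx2, coc_symm h hx, hσ, mul_inv_cancel]
  have hκc : Continuous (fun x => t (nx x) - t x) := by
    rw [continuous_iff_isClosed]
    intro C hC
    have h1 : IsClosed {q : X × X | (f q.1 = f q.2 ∧ σ q.1 q.2 = g) ∧ t q.2 - t q.1 ∈ C} :=
      (h.closed g).inter (hC.preimage (by fun_prop))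
    have h2 : (fun x => t (nx x) - t x) ⁻¹' C = Prod.fst ''
        {q : X × X | (f q.1 = f q.2 ∧ σ q.1 q.2 = g) ∧ t q.2 - t q.1 ∈ C} := by
      ext x
      constructor
      · intro hx
        exact ⟨(x, nx x), ⟨⟨hnx1 x, hnx2 x⟩, hx⟩, rfl⟩
      · rintro ⟨⟨x1, x2⟩, ⟨⟨h3, h4⟩, h5⟩, rfl⟩
        show t (nx x1) - t x1 ∈ C
        rw [← hind x1 x2 h3 h4]
        exact h5
    rw [h2]
    exact (h1.isCompact.image continuous_fst).isClosed
  have hn : 2 ≤ orderOf g := by
    have h1 : orderOf g ≠ 0 := (orderOf_pos g).ne'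
    have h2 : orderOf g ≠ 1 := fun h => hne (orderOf_eq_one_iff.1 h)
    omega
  set n := orderOf g with hnd
  have hκint : ∀ x, ∃ k : ℤ, t (nx x) - t x - 1 / (n : ℝ) = k := by
    intro x
    have h1 := (hs2 x (nx x) (hnx1 x)).2 (hnx2 x)
    rw [← hts, ← hts, ← AddCircle.coe_add] at h1
    obtain ⟨k, hk⟩ := int_of_eq h1
    exact ⟨k, by rw [← hk]; ring⟩
  have hκ : ∀ x y, t (nx x) - t x = t (nx y) - t y := by
    intro x y
    have := int_const (φ := fun x => t (nx x) - t x - 1 / (n : ℝ)) isPreconnected_univ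
      (hκc.sub continuous_const).continuousOn (fun x _ => hκint x) (mem_univ x) (mem_univ y)
    linarith
  obtain ⟨j, hj⟩ := hκint a0
  have hstep : ∀ x, t (nx x) = t x + (1 / (n : ℝ) + j) := by
    intro x
    have := hκ x a0
    linarith
  have hchain : ∀ k : ℕ, ∃ y, f a0 = f y ∧ σ a0 y = g ^ k ∧ t y = t a0 + k * (1 / (n : ℝ) + j) := by
    intro k
    induction k with
    | zero => exact ⟨a0, rfl, by rw [coc_self h, pow_zero], by simp⟩
    | succ k ih =>
      obtain ⟨y, hy1, hy2, hy3⟩ := ih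
      refine ⟨nx y, hy1.trans (hnx1 y), ?_, ?_⟩
      · rw [h.mul a0 y (nx y) hy1 (hnx1 y), hnx2, hy2, pow_succ']
      · rw [hstep, hy3]
        push_cast
        ring
  obtain ⟨y, hy1, hy2, hy3⟩ := hchain n
  rw [hnd, pow_orderOf_eq_one] at hy2
  have h5 := htE a0 y hy1 hy2
  rw [h5] at hy3
  have hn0 : (n : ℝ) ≠ 0 := by
    have : n ≠ 0 := by omega
    exact_mod_cast this
  have h6 : (n : ℝ) * (1 / (n : ℝ) + j) = 0 := by linarith
  have h7 : (1 : ℝ) + n * j = 0 := by
    rw [mul_add, mul_one_div_cancel hn0] at h6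
    exact h6
  have h8 : (1 : ℤ) + n * j = 0 := by exact_mod_cast h7
  have h9 : (n : ℤ) ∣ 1 := ⟨-j, by linarith⟩
  have h10 : (n : ℤ) ≤ 1 := Int.le_of_dvd one_pos h9
  omega

end Pool.Agent.ACL
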