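import Pool.Agent.ACL.Basic

/-!
# Weak confluence: every continuum over `Y` maps weakly confluently
-/

set_option autoImplicit false

noncomputable section

namespace Pool.Agent.ACL.W

open Set Filter Topology LibConfluent Metric Pool.Agent.ACL

/-- A point that is a limit of images of points of the sets `M j` is in the image of the limit. -/
theorem limit_mem {Y N : Type} [MetricSpace Y] [CompactSpace Y] [MetricSpace N]
    [CompactSpace N] {p : N → Y} (hp : Continuous p) {M : ℕ → Set N} {L : Set N}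
    (hL : IsCompact L) (hN : ∀ ε : ℝ, 0 < ε → ∀ᶠ j in atTop, Near ε (M j) L) {y : Y}
    (h : ∀ ε : ℝ, 0 < ε → ∃ᶠ j in atTop, ∃ m ∈ M j, dist y (p m) < ε) : y ∈ p '' L := by
  have hc : IsClosed (p '' L) := (hL.image hp).isClosed
  rw [← hc.closure_eq, Metric.mem_closure_iff]
  intro ε hε
  have hu := CompactSpace.uniformContinuous_of_continuous hp
  obtain ⟨δ, hδ, h'⟩ := Metric.uniformContinuous_iff.1 hu (ε / 2) (by positivity)
  obtain ⟨j, ⟨m, hm, hd⟩, hj'⟩ := ((h (ε / 2) (by positivity)).and_eventually (hN δ hδ)).exists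
  obtain ⟨l, hl, hl'⟩ := hj'.1 m hm
  refine ⟨p l, mem_image_of_mem p hl, ?_⟩
  calc dist y (p l) ≤ dist y (p m) + dist (p m) (p l) := dist_triangle _ _ _
    _ < ε / 2 + ε / 2 := add_lt_add hd (h' hl')
    _ = ε := by ring

theorem limit_sub {Y N : Type} [MetricSpace Y] [CompactSpace Y] [MetricSpace N]
    [CompactSpace N] {p : N → Y} (hp : Continuous p) {V : Set Y} (hV : IsClosed V)
    {M : ℕ → Set N} {L : Set N} (hMV : ∀ j, ∀ n ∈ M j, p n ∈ V)
    (hN : ∀ ε : ℝ, 0 < ε → ∀ᶠ j in atTop, Near ε (M j) L) : ∀ n ∈ L, p n ∈ V := by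
  intro n hn
  rw [← hV.closure_eq, Metric.mem_closure_iff]
  intro ε hε
  obtain ⟨δ, hδ, h⟩ := Metric.continuous_iff.1 hp n ε hε
  obtain ⟨j, hj⟩ := (hN δ hδ).exists
  obtain ⟨m, hm, hd⟩ := hj.2 n hn
  exact ⟨p m, hMV _ m hm, by rw [dist_comm]; exact h m hd⟩

/-- Adjacency of continua outside of `K`. -/
def Adj {Y : Type} (K J J' : Set Y) : Prop := ((J ∩ J') \ K).Nonempty

theorem Adj.symm {Y : Type} {K J J' : Set Y} (h : Adj K J J') : Adj K J' J := by
  rw [Adj, inter_comm]; exact h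

/-- The situation of the proof: no continuum over `V` maps onto a set containing `K`. -/
structure Sit {Y N : Type} [MetricSpace Y] [MetricSpace N] (p : N → Y) (K V : Set Y) : Prop where
  hp : Continuous p
  hs : Function.Surjective p
  hK : IsSubcontinuum K
  hV : IsClosed V
  hVu : V ≠ univ
  hKV : K ⊆ interior V
  hno : ∀ M : Set N, IsSubcontinuum M → (∀ n ∈ M, p n ∈ V) → ¬ K ⊆ p '' M
  e1 : ∀ J J', Ent K J → Ent K J' → ((J ∩ J') \ K).Nonempty →
    (J ∩ K ⊆ J' ∨ J' ∩ K ⊆ J) ∧ (J \ K ⊆ J' ∨ J' \ K ⊆ J)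
  e2 : ∀ J J' J'', Ent K J → Ent K J' → Ent K J'' → Adj K J J' → Adj K J' J'' → Adj K J J''
  e3 : ∀ J J' J'', Ent K J → Ent K J' → Ent K J'' → Adj K J J' ∨ Adj K J J'' ∨ Adj K J' J''

variable {Y N : Type} [MetricSpace Y] [CompactSpace Y] [MetricSpace N] [CompactSpace N]
  {p : N → Y} {K V : Set Y}

/-- Components of the preimage of `V`. -/
def Mc (p : N → Y) (V : Set Y) (n : N) : Set N := connectedComponentIn (p ⁻¹' V) n

/-- Their images. -/
def Jc (p : N → Y) (V : Set Y) (n : N) : Set Y := p '' Mc p V n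

theorem Sit.closedF (S : Sit p K V) : IsClosed (p ⁻¹' V) := S.hV.preimage S.hp

theorem Sit.KV (S : Sit p K V) {n : N} (hn : p n ∈ K) : n ∈ p ⁻¹' V := by
  have h : p n ∈ V := interior_subset (S.hKV hn)
  exact h

theorem Sit.self_mem (S : Sit p K V) {n : N} (hn : p n ∈ K) : n ∈ Mc p V n :=
  mem_connectedComponentIn (S.KV hn)

theorem Sit.subM (S : Sit p K V) {n : N} (hn : p n ∈ K) : IsSubcontinuum (Mc p V n) :=
  subcont_comp S.closedF (S.KV hn)

theorem Mc_sub (n : N) : ∀ m ∈ Mc p V n, p m ∈ V := fun _ hm =>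
  connectedComponentIn_subset (p ⁻¹' V) n hm

theorem Sit.bump (S : Sit p K V) (hB : Stmt_Bump) [ConnectedSpace N] {n : N} (hn : p n ∈ K) :
    ∃ b ∈ Mc p V n, p b ∉ interior V := by
  have hne : p ⁻¹' V ≠ univ := by
    intro h
    apply S.hVu
    rw [eq_univ_iff_forall]
    intro y
    obtain ⟨m, rfl⟩ := S.hs y
    have : m ∈ p ⁻¹' V := by rw [h]; trivial
    exact this
  obtain ⟨b, hb, hb'⟩ := hB N (p ⁻¹' V) n S.closedF hne (S.KV hn)
  refine ⟨b, hb, ?_⟩
  have h1 : p b ∈ closure Vᶜ := map_mem_closure S.hp hb' (fun m hm => hm)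
  rw [closure_compl] at h1
  exact h1

theorem Sit.ent (S : Sit p K V) (hB : Stmt_Bump) [ConnectedSpace N] {n : N} (hn : p n ∈ K) :
    Ent K (Jc p V n) := by
  refine ⟨subcont_image (S.subM hn) S.hp, ⟨p n, mem_image_of_mem p (S.self_mem hn), hn⟩, ?_,
    S.hno _ (S.subM hn) (Mc_sub n)⟩
  intro h
  obtain ⟨b, hb, hb'⟩ := S.bump hB hn
  exact hb' (S.hKV (h (mem_image_of_mem p hb)))

theorem Sit.adj_self (S : Sit p K V) (hB : Stmt_Bump) [ConnectedSpace N] {n : N}
    (hn : p n ∈ K) : Adj K (Jc p V n) (Jc p V n) := by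
  obtain ⟨y, hy, hy'⟩ := not_subset.1 (S.ent hB hn).2.2.1
  exact ⟨y, ⟨hy, hy⟩, hy'⟩

/-- Limits of points of one class belong to the class. -/
theorem Sit.closed_class (S : Sit p K V) (hB : Stmt_Bump) (hLim : Stmt_Lim) [ConnectedSpace N]
    (n : ℕ → N) (hn : ∀ j, p (n j) ∈ K) (hadj : ∀ j l, Adj K (Jc p V (n j)) (Jc p V (n l)))
    (n₀ : N) (hlim : Tendsto n atTop (𝓝 n₀)) : p n₀ ∈ K ∧
      ∃ j, Adj K (Jc p V n₀) (Jc p V (n j)) := by
  have hn₀ : p n₀ ∈ K := S.hK.1.isClosed.mem_of_tendsto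
    ((S.hp.tendsto n₀).comp hlim) (Eventually.of_forall hn)
  refine ⟨hn₀, ?_⟩
  obtain ⟨L, φ, hL, hφ, hN⟩ := hLim N (fun j => Mc p V (n j)) (fun j => S.subM (hn j))
  have hLV : ∀ m ∈ L, p m ∈ V := limit_sub S.hp S.hV (M := fun j => Mc p V (n (φ j)))
    (fun j => Mc_sub _) hN
  have hn₀L : n₀ ∈ L := by
    rw [← hL.1.isClosed.closure_eq, Metric.mem_closure_iff]
    intro ε hε
    have h1 := (Metric.tendsto_nhds.1 (hlim.comp hφ.tendsto_atTop)) (ε / 2) (by positivity)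
    obtain ⟨j, hj, hj'⟩ := (h1.and (hN (ε / 2) (by positivity))).exists
    obtain ⟨l, hl, hd⟩ := hj'.1 (n (φ j)) (S.self_mem (hn _))
    refine ⟨l, hl, ?_⟩
    calc dist n₀ l ≤ dist n₀ (n (φ j)) + dist (n (φ j)) l := dist_triangle _ _ _
      _ < ε / 2 + ε / 2 := add_lt_add (by rw [dist_comm]; exact hj) hd
      _ = ε := by ring
  have hLM : L ⊆ Mc p V n₀ := hL.2.isPreconnected.subset_connectedComponentIn hn₀L hLV
  have hcomp : ∀ j l, Jc p V (n j) \ K ⊆ Jc p V (n l) ∨ Jc p V (n l) \ K ⊆ Jc p V (n j) :=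
    fun j l => (S.e1 _ _ (S.ent hB (hn j)) (S.ent hB (hn l)) (hadj j l)).2
  choose b hb hb' using fun j => S.bump hB (hn j)
  by_cases hA : ∃ j, ∃ᶠ l in atTop, Jc p V (n j) \ K ⊆ Jc p V (n (φ l))
  · obtain ⟨j, hj⟩ := hA
    refine ⟨j, p (b j), ⟨?_, mem_image_of_mem p (hb j)⟩, fun h => hb' j (S.hKV h)⟩
    have : p (b j) ∈ p '' L := by
      refine limit_mem S.hp hL.1 hN ?_
      intro ε hε
      refine hj.mono ?_
      intro l hl
      have hmem : p (b j) ∈ Jc p V (n (φ l)) :=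
        hl ⟨mem_image_of_mem p (hb j), fun h => hb' j (S.hKV h)⟩
      obtain ⟨m, hm, hm'⟩ := hmem
      exact ⟨m, hm, by rw [hm', dist_self]; exact hε⟩
    exact image_mono hLM this
  · push Not at hA
    have hA0 : ∀ᶠ l in atTop, Jc p V (n (φ l)) \ K ⊆ Jc p V (n 0) := by
      filter_upwards [hA 0] with l hl
      exact (hcomp 0 (φ l)).resolve_left hl
    refine ⟨0, ?_⟩
    have hC : IsCompact (Jc p V (n 0) ∩ (interior V)ᶜ) :=
      ((S.subM (hn 0)).1.image S.hp).inter_right isOpen_interior.isClosed_compl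
    obtain ⟨l₀, hl₀⟩ := eventually_atTop.1 hA0
    have hw : ∀ l, p (b (φ (l + l₀))) ∈ Jc p V (n 0) ∩ (interior V)ᶜ := fun l =>
      ⟨hl₀ _ (Nat.le_add_left _ _) ⟨mem_image_of_mem p (hb _), fun h => hb' _ (S.hKV h)⟩, hb' _⟩
    obtain ⟨w, hwC, ψ, hψ, hψ'⟩ := hC.tendsto_subseq hw
    refine ⟨w, ⟨?_, hwC.1⟩, fun h => hwC.2 (S.hKV h)⟩
    have : w ∈ p '' L := by
      refine limit_mem S.hp hL.1 hN ?_
      intro ε hε
      rw [frequently_atTop]
      intro a
      have h1 := Metric.tendsto_nhds.1 hψ' ε hε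
      obtain ⟨k, hk, hk'⟩ := (h1.and (eventually_ge_atTop a)).exists
      refine ⟨ψ k + l₀, le_trans hk' (le_trans (hψ.id_le k) (Nat.le_add_right _ _)),
        b (φ (ψ k + l₀)), hb _, ?_⟩
      rw [dist_comm]
      exact hk
    exact image_mono hLM this

/-- The two classes. -/
def Cls (p : N → Y) (K V : Set Y) (n₁ : N) (b : Prop) : Set N :=
  {n | p n ∈ K ∧ (Adj K (Jc p V n) (Jc p V n₁) ↔ b)}

theorem Sit.pairwise (S : Sit p K V) (hB : Stmt_Bump) [ConnectedSpace N] {n₁ : N}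
    (hn₁ : p n₁ ∈ K) (b : Prop) {n n' : N} (hn : n ∈ Cls p K V n₁ b)
    (hn' : n' ∈ Cls p K V n₁ b) : Adj K (Jc p V n) (Jc p V n') := by
  by_cases hb : b
  · exact S.e2 _ _ _ (S.ent hB hn.1) (S.ent hB hn₁) (S.ent hB hn'.1) (hn.2.2 hb)
      (hn'.2.2 hb).symm
  · rcases S.e3 _ _ _ (S.ent hB hn.1) (S.ent hB hn'.1) (S.ent hB hn₁) with h | h | h
    · exact h
    · exact absurd (hn.2.1 h) hb
    · exact absurd (hn'.2.1 h) hb

theorem Sit.closed_cls (S : Sit p K V) (hB : Stmt_Bump) (hLim : Stmt_Lim) [ConnectedSpace N]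
    {n₁ : N} (hn₁ : p n₁ ∈ K) (b : Prop) : IsClosed (Cls p K V n₁ b) := by
  apply IsSeqClosed.isClosed
  intro n n₀ hn hlim
  obtain ⟨h1, j, hj⟩ := S.closed_class hB hLim n (fun j => (hn j).1)
    (fun j l => S.pairwise hB hn₁ b (hn j) (hn l)) n₀ hlim
  refine ⟨h1, ?_⟩
  have h2 : Adj K (Jc p V n₀) (Jc p V n₁) ↔ Adj K (Jc p V (n j)) (Jc p V n₁) := by
    constructor
    · intro h
      exact S.e2 _ _ _ (S.ent hB (hn j).1) (S.ent hB h1) (S.ent hB hn₁) hj.symm h
    · intro h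
      exact S.e2 _ _ _ (S.ent hB h1) (S.ent hB (hn j).1) (S.ent hB hn₁) hj h
  rw [h2]
  exact (hn j).2

theorem Cls_comp {n₁ n n' : N} {b : Prop} (hn : n ∈ Cls p K V n₁ b) (hn' : n' ∈ Mc p V n)
    (hK : p n' ∈ K) : n' ∈ Cls p K V n₁ b := by
  have h : Mc p V n' = Mc p V n := (connectedComponentIn_eq hn').symm
  refine ⟨hK, ?_⟩
  rw [Jc, h]
  exact hn.2

/-- A class does not cover `K`. -/
theorem Sit.not_cover (S : Sit p K V) (hB : Stmt_Bump) (hLim : Stmt_Lim) [ConnectedSpace N]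
    {n₁ : N} (hn₁ : p n₁ ∈ K) (b : Prop) : ¬ K ⊆ p '' Cls p K V n₁ b := by
  intro hcov
  have hfin : ∀ s : Set Y, s.Finite → s ⊆ K → ∃ n ∈ Cls p K V n₁ b, s ⊆ Jc p V n := by
    intro s hs
    induction s, hs using Set.Finite.induction_on with
    | empty =>
      intro _
      obtain ⟨y, hy⟩ := S.hK.2.nonempty
      obtain ⟨n, hn, -⟩ := hcov hy
      exact ⟨n, hn, empty_subset _⟩
    | @insert y s _ _ ih =>
      intro hsK
      obtain ⟨n, hn, hsn⟩ := ih (fun z hz => hsK (mem_insert_of_mem _ hz))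
      obtain ⟨n', hn', hy⟩ := hcov (hsK (mem_insert y s))
      have hyJ : y ∈ Jc p V n' := by
        rw [← hy]; exact mem_image_of_mem p (S.self_mem hn'.1)
      rcases (S.e1 _ _ (S.ent hB hn.1) (S.ent hB hn'.1) (S.pairwise hB hn₁ b hn hn')).1 with h | h
      · refine ⟨n', hn', insert_subset hyJ ?_⟩
        intro z hz
        exact h ⟨hsn hz, hsK (mem_insert_of_mem _ hz)⟩
      · exact ⟨n, hn, insert_subset (h ⟨hyJ, hsK (mem_insert y s)⟩) hsn⟩
  have hnet : ∀ j : ℕ, ∃ n ∈ Cls p K V n₁ b, ∀ y ∈ K, ∃ m ∈ Mc p V n,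
      dist y (p m) < 1 / ((j : ℝ) + 1) := by
    intro j
    obtain ⟨s, hsK, hs, hcov'⟩ := S.hK.1.finite_cover_balls
      (show (0 : ℝ) < 1 / ((j : ℝ) + 1) by positivity)
    obtain ⟨n, hn, hsn⟩ := hfin s hs hsK
    refine ⟨n, hn, ?_⟩
    intro y hy
    obtain ⟨z, hz, hd⟩ := mem_iUnion₂.1 (hcov' hy)
    obtain ⟨m, hm, hm'⟩ := hsn hz
    exact ⟨m, hm, by rw [hm']; exact hd⟩
  choose n hn hd using hnet
  obtain ⟨L, φ, hL, hφ, hN⟩ := hLim N (fun j => Mc p V (n j)) (fun j => S.subM (hn j).1)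
  have hLV : ∀ m ∈ L, p m ∈ V := limit_sub S.hp S.hV (M := fun j => Mc p V (n (φ j)))
    (fun j => Mc_sub _) hN
  refine S.hno L hL hLV ?_
  intro y hy
  refine limit_mem S.hp hL.1 hN ?_
  intro ε hε
  apply Eventually.frequently
  have h1 : ∀ᶠ j : ℕ in atTop, 1 / ((j : ℝ) + 1) < ε :=
    (tendsto_order.1 tendsto_one_div_add_atTop_nhds_zero_nat).2 ε hε
  filter_upwards [hφ.tendsto_atTop.eventually h1] with j hj
  obtain ⟨m, hm, hdm⟩ := hd (φ j) y hy
  exact ⟨m, hm, hdm.trans hj⟩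

/-- There is no such situation. -/
theorem Sit.false (S : Sit p K V) (hB : Stmt_Bump) (hLim : Stmt_Lim) (hCS : Stmt_CompSep)
    (hLP : Stmt_LiftP) (hY : LiftC Y) [ConnectedSpace N] : False := by
  obtain ⟨y₁, hy₁⟩ := S.hK.2.nonempty
  obtain ⟨n₁, hpn₁⟩ := S.hs y₁
  have hn₁ : p n₁ ∈ K := by rw [hpn₁]; exact hy₁
  set N1 := Cls p K V n₁ True with hN1
  set N2 := Cls p K V n₁ False with hN2
  have hc1 : IsClosed N1 := S.closed_cls hB hLim hn₁ True
  have hc2 : IsClosed N2 := S.closed_cls hB hLim hn₁ False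
  have hcov : ∀ n, p n ∈ K → n ∈ N1 ∨ n ∈ N2 := by
    intro n hn
    by_cases h : Adj K (Jc p V n) (Jc p V n₁)
    · exact Or.inl ⟨hn, by simpa using h⟩
    · exact Or.inr ⟨hn, by simpa using h⟩
  have hdis : ∀ n, n ∈ N1 → n ∈ N2 → False := by
    intro n h1 h2
    exact h2.2.1 (h1.2.2 trivial)
  have hnc1 : ¬ K ⊆ p '' N1 := S.not_cover hB hLim hn₁ True
  have hnc2 : ¬ K ⊆ p '' N2 := S.not_cover hB hLim hn₁ False
  have hi1 : IsClosed (p '' N1) := (hc1.isCompact.image S.hp).isClosed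
  have hi2 : IsClosed (p '' N2) := (hc2.isCompact.image S.hp).isClosed
  have hKcov : K ⊆ p '' N1 ∪ p '' N2 := by
    intro y hy
    obtain ⟨n, rfl⟩ := S.hs y
    rcases hcov n hy with h | h
    · exact Or.inl (mem_image_of_mem p h)
    · exact Or.inr (mem_image_of_mem p h)
  obtain ⟨y₀, hy₀K, hy₀⟩ : (K ∩ (p '' N1 ∩ p '' N2)).Nonempty := by
    refine isPreconnected_closed_iff.1 S.hK.2.isPreconnected _ _ hi1 hi2 hKcov ?_ ?_
    · obtain ⟨y, hy, hy'⟩ := not_subset.1 hnc2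
      exact ⟨y, hy, (hKcov hy).resolve_right hy'⟩
    · obtain ⟨y, hy, hy'⟩ := not_subset.1 hnc1
      exact ⟨y, hy, (hKcov hy).resolve_left hy'⟩
  have hsub1 : N1 ⊆ p ⁻¹' V := fun n hn => S.KV hn.1
  have hsub2 : N2 ⊆ p ⁻¹' V := fun n hn => S.KV hn.1
  obtain ⟨W1, W2, hW1, hW2, hWd, hWu, hNW1, hNW2⟩ := hCS N (p ⁻¹' V) N1 N2 S.closedF hc1 hc2
    hsub1 hsub2 (by
      intro x hx
      rw [Set.disjoint_left]
      intro n hn hn2
      exact hdis n (Cls_comp hx hn hn2.1) hn2)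
  have hK1 : ∀ n ∈ W1, p n ∈ K → n ∈ N1 := by
    intro n hn hnK
    rcases hcov n hnK with h | h
    · exact h
    · exact absurd (hNW2 h) (Set.disjoint_left.1 hWd hn)
  have hK2 : ∀ n ∈ W2, p n ∈ K → n ∈ N2 := by
    intro n hn hnK
    rcases hcov n hnK with h | h
    · exact absurd hn (Set.disjoint_left.1 hWd (hNW1 h))
    · exact h
  set Sg : Set Y := p '' W1 ∩ p '' W2 with hSg
  have hSgc : IsClosed Sg := (hW1.isCompact.image S.hp).isClosed.inter
    (hW2.isCompact.image S.hp).isClosed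
  have hy₀S : y₀ ∈ Sg := ⟨image_mono hNW1 hy₀.1, image_mono hNW2 hy₀.2⟩
  have hSgK1 : ∀ y ∈ Sg, y ∈ K → y ∈ p '' N1 := by
    rintro y ⟨⟨n, hn, rfl⟩, -⟩ hyK
    exact mem_image_of_mem p (hK1 n hn hyK)
  have hSgK2 : ∀ y ∈ Sg, y ∈ K → y ∈ p '' N2 := by
    rintro y ⟨-, ⟨n, hn, rfl⟩⟩ hyK
    exact mem_image_of_mem p (hK2 n hn hyK)
  have hC : connectedComponentIn Sg y₀ ⊆ K := by
    by_contra hCK
    obtain ⟨c, hc, hcK⟩ := not_subset.1 hCK
    obtain ⟨⟨a, ha, hpa⟩, ⟨a', ha', hpa'⟩⟩ := hy₀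
    have hCs : IsSubcontinuum (connectedComponentIn Sg y₀) := subcont_comp hSgc hy₀S
    have haJ : y₀ ∈ Jc p V a := by rw [← hpa]; exact mem_image_of_mem p (S.self_mem ha.1)
    have haJ' : y₀ ∈ Jc p V a' := by rw [← hpa']; exact mem_image_of_mem p (S.self_mem ha'.1)
    have hE1 := S.ent hB ha.1
    have hE2 := S.ent hB ha'.1
    have hT1 : Ent K (Jc p V a ∪ connectedComponentIn Sg y₀) := by
      refine ⟨subcont_union hE1.1 hCs ⟨y₀, haJ, mem_connectedComponentIn hy₀S⟩,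
        ⟨y₀, Or.inl haJ, hy₀K⟩, fun h => hcK (h (Or.inr hc)), ?_⟩
      intro h
      apply hnc1
      intro y hy
      rcases h hy with h' | h'
      · obtain ⟨m, hm, rfl⟩ := h'
        exact mem_image_of_mem p (Cls_comp ha hm hy)
      · exact hSgK1 y (connectedComponentIn_subset _ _ h') hy
    have hT2 : Ent K (Jc p V a' ∪ connectedComponentIn Sg y₀) := by
      refine ⟨subcont_union hE2.1 hCs ⟨y₀, haJ', mem_connectedComponentIn hy₀S⟩,
        ⟨y₀, Or.inl haJ', hy₀K⟩, fun h => hcK (h (Or.inr hc)), ?_⟩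
      intro h
      apply hnc2
      intro y hy
      rcases h hy with h' | h'
      · obtain ⟨m, hm, rfl⟩ := h'
        exact mem_image_of_mem p (Cls_comp ha' hm hy)
      · exact hSgK2 y (connectedComponentIn_subset _ _ h') hy
    have h12 : Adj K (Jc p V a ∪ connectedComponentIn Sg y₀)
        (Jc p V a' ∪ connectedComponentIn Sg y₀) := ⟨c, ⟨Or.inr hc, Or.inr hc⟩, hcK⟩
    have h1 : Adj K (Jc p V a) (Jc p V a ∪ connectedComponentIn Sg y₀) := by
      obtain ⟨y, hy, hy'⟩ := not_subset.1 hE1.2.2.1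
      exact ⟨y, ⟨hy, Or.inl hy⟩, hy'⟩
    have h2 : Adj K (Jc p V a' ∪ connectedComponentIn Sg y₀) (Jc p V a') := by
      obtain ⟨y, hy, hy'⟩ := not_subset.1 hE2.2.2.1
      exact ⟨y, ⟨Or.inl hy, hy⟩, hy'⟩
    have h3 : Adj K (Jc p V a) (Jc p V a') :=
      S.e2 _ _ _ hE1 hT2 hE2 (S.e2 _ _ _ hE1 hT1 hT2 h1 h12) h2
    have h4 : Adj K (Jc p V a') (Jc p V n₁) :=
      S.e2 _ _ _ hE2 hE1 (S.ent hB hn₁) h3.symm (ha.2.2 trivial)
    exact ha'.2.1 h4
  obtain ⟨G0, G1, hG0, hG1, hGd, hGu, hyG, hBG⟩ := hCS Y Sg {y₀} (Sg ∩ (interior V)ᶜ) hSgc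
    isClosed_singleton (hSgc.inter isOpen_interior.isClosed_compl)
    (by simpa using hy₀S) inter_subset_left (by
      intro x hx
      rw [mem_singleton_iff] at hx
      rw [hx, Set.disjoint_left]
      intro y hy hy'
      exact hy'.2 (S.hKV (hC hy)))
  have hG0S : G0 ⊆ Sg := by rw [← hGu]; exact subset_union_left
  have hG1S : G1 ⊆ Sg := by rw [← hGu]; exact subset_union_right
  have hG0V : G0 ⊆ interior V := by
    intro y hy
    by_contra h
    exact Set.disjoint_left.1 hGd hy (hBG ⟨hG0S hy, h⟩)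
  have hdisj : Disjoint (G1 ∪ (interior V)ᶜ) G0 := by
    rw [Set.disjoint_left]
    rintro y (hy | hy) hy0
    · exact Set.disjoint_left.1 hGd hy0 hy
    · exact hy (hG0V hy0)
  obtain ⟨μ, hμ0, hμ1, -⟩ := exists_continuous_zero_one_of_isClosed
    (hG1.union isOpen_interior.isClosed_compl) hG0 hdisj
  classical
  set θ : N → ℝ := fun n =>
    if n ∈ W1 then 1 / 2 - μ (p n) / 2 else if n ∈ W2 then 1 / 2 + μ (p n) / 2 else 1 / 2
    with hθ
  have hθ1 : ∀ n ∈ W1, θ n = 1 / 2 - μ (p n) / 2 := fun n hn => by simp only [hθ, if_pos hn]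
  have hθ2 : ∀ n ∈ W2, θ n = 1 / 2 + μ (p n) / 2 := fun n hn => by
    simp only [hθ, if_neg (Set.disjoint_right.1 hWd hn), if_pos hn]
  have hθ3 : ∀ n, p n ∉ interior V → θ n = 1 / 2 := by
    intro n hn
    have h0 : μ (p n) = 0 := hμ0 (Or.inr hn)
    simp only [hθ, h0]
    split_ifs <;> norm_num
  have hθc : Continuous θ := by
    have hc1' : ContinuousOn θ W1 :=
      (ContinuousOn.congr (f := fun n => 1 / 2 - μ (p n) / 2)
        ((continuous_const.sub ((μ.continuous.comp S.hp).div_const 2)).continuousOn)) hθ1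
    have hc2' : ContinuousOn θ W2 :=
      (ContinuousOn.congr (f := fun n => 1 / 2 + μ (p n) / 2)
        ((continuous_const.add ((μ.continuous.comp S.hp).div_const 2)).continuousOn)) hθ2
    have hc3' : ContinuousOn θ (p ⁻¹' (interior V)ᶜ) :=
      (ContinuousOn.congr (f := fun _ => 1 / 2) continuousOn_const) (fun n hn => hθ3 n hn)
    have hcl3 : IsClosed (p ⁻¹' (interior V)ᶜ) := isOpen_interior.isClosed_compl.preimage S.hp
    have hu := (hc1'.union_of_isClosed hc2' hW1 hW2).union_of_isClosed hc3' (hW1.union hW2) hcl3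
    rw [← continuousOn_univ]
    refine hu.mono ?_
    intro n _
    by_cases hn : p n ∈ V
    · left
      have : n ∈ W1 ∪ W2 := by rw [hWu]; exact hn
      exact this
    · right
      exact fun h => hn (interior_subset h)
  have key : ∀ n, p n ∉ Sg ∨ (p n ∈ Sg) := fun n => (em _).symm
  have hint : ∀ n n', p n = p n' → ∃ k : ℤ, θ n - θ n' = k := by
    intro n n' hnn
    by_cases hnV : p n ∈ V
    · have hn : n ∈ W1 ∨ n ∈ W2 := by
        have : n ∈ W1 ∪ W2 := by rw [hWu]; exact hnV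
        exact this
      have hn' : n' ∈ W1 ∨ n' ∈ W2 := by
        have : n' ∈ W1 ∪ W2 := by rw [hWu]; show p n' ∈ V; rw [← hnn]; exact hnV
        exact this
      have hμS : p n ∈ Sg → μ (p n) = 0 ∨ μ (p n) = 1 := by
        intro h
        rw [← hGu] at h
        rcases h with h | h
        · exact Or.inr (hμ1 h)
        · exact Or.inl (hμ0 (Or.inl h))
      rcases hn with hn | hn <;> rcases hn' with hn' | hn'
      · refine ⟨0, ?_⟩
        rw [hθ1 n hn, hθ1 n' hn', hnn]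
        simp
      · have hS : p n ∈ Sg := ⟨mem_image_of_mem p hn, by rw [hnn]; exact mem_image_of_mem p hn'⟩
        rcases hμS hS with h | h
        · refine ⟨0, ?_⟩
          rw [hθ1 n hn, hθ2 n' hn', ← hnn, h]
          simp
        · refine ⟨-1, ?_⟩
          rw [hθ1 n hn, hθ2 n' hn', ← hnn, h]
          norm_num
      · have hS : p n ∈ Sg := ⟨by rw [hnn]; exact mem_image_of_mem p hn', mem_image_of_mem p hn⟩
        rcases hμS hS with h | h
        · refine ⟨0, ?_⟩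
          rw [hθ2 n hn, hθ1 n' hn', ← hnn, h]
          simp
        · refine ⟨1, ?_⟩
          rw [hθ2 n hn, hθ1 n' hn', ← hnn, h]
          norm_num
      · refine ⟨0, ?_⟩
        rw [hθ2 n hn, hθ2 n' hn', hnn]
        simp
    · have h1 : p n ∉ interior V := fun h => hnV (interior_subset h)
      have h2 : p n' ∉ interior V := by rw [← hnn]; exact h1
      refine ⟨0, ?_⟩
      rw [hθ3 n h1, hθ3 n' h2]
      simp
  have hconst := hLP Y N p θ hY S.hp S.hs hθc hint
  obtain ⟨a, ha, hpa⟩ := hy₀S.1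
  obtain ⟨a', ha', hpa'⟩ := hy₀S.2
  have h := hconst a a' (hpa.trans hpa'.symm)
  have hμy : μ y₀ = 1 := hμ1 (hyG rfl)
  rw [hθ1 a ha, hθ2 a' ha', hpa, hpa', hμy] at h
  norm_num at h

end W

open Set Filter Topology LibConfluent

/-- Every continuum over `Y` is weakly confluent. -/
theorem w_proof (hHU : Stmt_HU) (hE : Stmt_Ends) (hLP : Stmt_LiftP) (hCS : Stmt_CompSep)
    (hB : Stmt_Bump) (hLim : Stmt_Lim) : Stmt_W := by
  intro Y N _ _ _ _ _ p hY hT hp hs K hK
  by_cases hKu : K = univ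
  · exact ⟨univ, subcont_univ, by rw [image_univ, hs.range_eq, hKu]⟩
  obtain ⟨y₁, hy₁⟩ : ∃ y, y ∉ K := by
    by_contra h
    push Not at h
    exact hKu (eq_univ_of_forall h)
  have hKne : K.Nonempty := hK.2.nonempty
  have hKc : IsClosed K := hK.1.isClosed
  have hpos : 0 < Metric.infDist y₁ K := (hKc.notMem_iff_infDist_pos hKne).1 hy₁
  by_contra hcon
  push Not at hcon
  have hex : ∃ j : ℕ, ∀ M : Set N, IsSubcontinuum M →
      (∀ n ∈ M, Metric.infDist (p n) K ≤ Metric.infDist y₁ K / (2 * ((j : ℝ) + 1))) →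
      ¬ K ⊆ p '' M := by
    by_contra hn
    push Not at hn
    choose M hM hMV hKM using hn
    obtain ⟨L, φ, hL, hφ, hN⟩ := hLim N M hM
    refine hcon L hL (Subset.antisymm ?_ ?_)
    · rintro _ ⟨l, hl, rfl⟩
      rw [← hKc.closure_eq, Metric.mem_closure_iff_infDist_zero hKne]
      by_contra h0
      have hpos' : 0 < Metric.infDist (p l) K :=
        lt_of_le_of_ne Metric.infDist_nonneg (Ne.symm h0)
      have h1 : ∀ᶠ j : ℕ in atTop, 1 / ((j : ℝ) + 1) <
          Metric.infDist (p l) K / Metric.infDist y₁ K :=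
        (tendsto_order.1 tendsto_one_div_add_atTop_nhds_zero_nat).2 _ (by positivity)
      obtain ⟨δ, hδ, h⟩ := Metric.continuous_iff.1 hp l (Metric.infDist (p l) K / 2)
        (by positivity)
      obtain ⟨j, hj, hj'⟩ := ((hφ.tendsto_atTop.eventually h1).and (hN δ hδ)).exists
      obtain ⟨m, hm, hd⟩ := hj'.2 l hl
      have h2 := h m hd
      have h3 := hMV (φ j) m hm
      have h4 : Metric.infDist (p l) K ≤ Metric.infDist (p m) K + dist (p l) (p m) :=
        Metric.infDist_le_infDist_add_dist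
      have h5 : Metric.infDist y₁ K / (2 * ((φ j : ℝ) + 1)) < Metric.infDist (p l) K / 2 := by
        rw [lt_div_iff₀ hpos] at hj
        have : Metric.infDist y₁ K / (2 * ((φ j : ℝ) + 1)) =
          (1 / ((φ j : ℝ) + 1) * Metric.infDist y₁ K) / 2 := by
          field_simp
        rw [this]
        linarith
      rw [dist_comm] at h2
      linarith
    · intro y hy
      refine W.limit_mem hp hL.1 hN ?_
      intro ε hε
      apply Eventually.frequently
      filter_upwards with j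
      obtain ⟨m, hm, hm'⟩ := hKM (φ j) hy
      exact ⟨m, hm, by rw [hm', dist_self]; exact hε⟩
  obtain ⟨j, hj⟩ := hex
  set ε := Metric.infDist y₁ K / (2 * ((j : ℝ) + 1)) with hε
  have hεpos : 0 < ε := by positivity
  have hεlt : ε < Metric.infDist y₁ K := by
    rw [hε, div_lt_iff₀ (by positivity)]
    nlinarith [hpos, (Nat.cast_nonneg j : (0 : ℝ) ≤ (j : ℝ))]
  have hcont : Continuous fun y : Y => Metric.infDist y K := Metric.continuous_infDist_pt K
  obtain ⟨h1, h2, h3⟩ := hE Y (hHU Y hY) hT K hK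
  have S : W.Sit p K {y | Metric.infDist y K ≤ ε} :=
    { hp := hp
      hs := hs
      hK := hK
      hV := isClosed_le hcont continuous_const
      hVu := by
        intro h
        have : y₁ ∈ {y | Metric.infDist y K ≤ ε} := by rw [h]; trivial
        exact absurd this (not_le.2 hεlt)
      hKV := by
        intro y hy
        refine interior_maximal (s := {y | Metric.infDist y K ≤ ε})
          (t := {y | Metric.infDist y K < ε}) (fun z (hz : Metric.infDist z K < ε) => hz.le)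
          (isOpen_lt hcont continuous_const) ?_
        show Metric.infDist y K < ε
        rw [Metric.infDist_zero_of_mem hy]
        exact hεpos
      hno := fun M hM hMV => hj M hM hMV
      e1 := h1
      e2 := h2
      e3 := h3 }
  exact S.false hB hLim hCS hLP hY

end Pool.Agent.ACL

end
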