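import Pool.Agent.ACL.Basic

/-!
# Weak confluence on subcontinua, and restrictions of confluent mappings
-/

set_option autoImplicit false

noncomputable section

namespace Pool.Agent.ACL

open Set Filter Topology LibConfluent

namespace WCM

theorem subcont_val {Y : Type} [TopologicalSpace Y] {L : Set Y} {K : Set L}
    (hK : IsSubcontinuum K) : IsSubcontinuum ((↑) '' K : Set Y) :=
  subcont_image hK continuous_subtype_val

/-- The preimage in a subset of a subcontinuum contained in it. -/
theorem subcont_preim {Y : Type} [TopologicalSpace Y] {L K : Set Y} (hK : IsSubcontinuum K)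
    (h : K ⊆ L) : IsSubcontinuum ((↑) ⁻¹' K : Set L) := by
  have himg : ((↑) '' ((↑) ⁻¹' K : Set L) : Set Y) = K := by
    rw [Subtype.image_preimage_coe]
    exact inter_eq_right.2 h
  constructor
  · rw [Topology.IsInducing.subtypeVal.isCompact_iff, himg]
    exact hK.1
  · constructor
    · obtain ⟨k, hk⟩ := hK.2.1
      exact ⟨⟨k, h hk⟩, hk⟩
    · rw [← Topology.IsInducing.subtypeVal.isPreconnected_image, himg]
      exact hK.2.2

theorem liftC_sub {Y : Type} [TopologicalSpace Y] (hY : LiftC Y) (L : Set Y) : LiftC L := by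
  classical
  intro K g hK hg
  set g₁ : Y → T := fun y => if h : y ∈ L then g ⟨y, h⟩ else 0 with hg₁
  have hval : ∀ z : L, g₁ (z : Y) = g z := fun z => by
    simp only [hg₁, z.2, dite_true]
  have hc : ContinuousOn g₁ ((↑) '' K : Set Y) := by
    rintro _ ⟨z, hz, rfl⟩
    have h1 : Tendsto g (𝓝[K] z) (𝓝 (g z)) := hg z hz
    show Tendsto g₁ (𝓝[((↑) '' K : Set Y)] (z : Y)) (𝓝 (g₁ z))
    rw [hval z]
    have h2 : 𝓝[((↑) '' K : Set Y)] (z : Y) = map (↑) (𝓝[K] z) :=
      (Topology.IsInducing.subtypeVal.map_nhdsWithin_eq K z).symm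
    rw [h2, tendsto_map'_iff]
    refine h1.congr fun w => ?_
    exact (hval w).symm
  obtain ⟨h, hh, hh'⟩ := hY _ g₁ (subcont_val hK) hc
  refine ⟨fun z => h z, ?_, ?_⟩
  · exact hh.comp continuous_subtype_val.continuousOn fun z hz => mem_image_of_mem _ hz
  · intro z hz
    rw [hh' z (mem_image_of_mem _ hz), hval z]

theorem noTriod_sub {Y : Type} [TopologicalSpace Y] (hY : NoTriod Y) (L : Set Y) :
    NoTriod L := by
  intro A B C hA hB hC hne
  have hinj : Function.Injective ((↑) : L → Y) := Subtype.val_injective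
  have key := hY _ _ _ (subcont_val hA) (subcont_val hB) (subcont_val hC) (by
    obtain ⟨z, ⟨hzA, hzB⟩, hzC⟩ := hne
    exact ⟨z, ⟨mem_image_of_mem _ hzA, mem_image_of_mem _ hzB⟩, mem_image_of_mem _ hzC⟩)
  rw [← image_union, ← image_union, ← image_union, image_subset_image_iff hinj,
    image_subset_image_iff hinj, image_subset_image_iff hinj] at key
  exact key

end WCM

theorem wC_proof (hW : Stmt_W) : Stmt_WC := by
  intro Y N _ _ _ _ p hY hT hp M K hM hK hKM
  have : CompactSpace M := isCompact_iff_compactSpace.1 hM.1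
  have : ConnectedSpace M := isConnected_iff_connectedSpace.1 hM.2
  have hL : IsSubcontinuum (p '' M) := subcont_image hM hp
  have : CompactSpace (p '' M) := isCompact_iff_compactSpace.1 hL.1
  set q : M → (p '' M : Set Y) := fun n => ⟨p n, mem_image_of_mem p n.2⟩ with hq
  have hqc : Continuous q := (hp.comp continuous_subtype_val).subtype_mk _
  have hqs : Function.Surjective q := by
    rintro ⟨y, n, hn, rfl⟩
    exact ⟨⟨n, hn⟩, rfl⟩
  obtain ⟨M', hM', hM'K⟩ := hW (p '' M : Set Y) M q (WCM.liftC_sub hY _) (WCM.noTriod_sub hT _)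
    hqc hqs ((↑) ⁻¹' K) (WCM.subcont_preim hK hKM)
  refine ⟨(↑) '' M', ?_, WCM.subcont_val hM', ?_⟩
  · rintro _ ⟨n, -, rfl⟩
    exact n.2
  · have h1 : p '' ((↑) '' M' : Set N) = (↑) '' (q '' M') := by
      rw [image_image, image_image]
    rw [h1, hM'K, Subtype.image_preimage_coe]
    exact inter_eq_right.2 hKM

theorem restrict_proof : Stmt_Restrict := by
  intro X Y _ _ _ _ f K x₀ hx₀ hf hK h
  set B : Set X := connectedComponentIn (f ⁻¹' K) x₀ with hB
  have hKc : IsClosed (f ⁻¹' K) := hK.1.isClosed.preimage hf.continuous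
  set r : B → K := fun x => ⟨f x, h x⟩ with hr
  have hrc : Continuous r := (hf.continuous.comp continuous_subtype_val).subtype_mk _
  refine ⟨hrc, ?_, ?_⟩
  · rintro ⟨k, hk⟩
    obtain ⟨x, hx, hxk⟩ := exists_comp hf hK (x := x₀) hx₀ hk
    exact ⟨⟨x, hx⟩, Subtype.ext hxk⟩
  · rintro S hS C ⟨x, hx, rfl⟩
    have hS' : IsSubcontinuum ((↑) '' S : Set Y) := WCM.subcont_val hS
    have hxS : f x ∈ ((↑) '' S : Set Y) := ⟨r x, hx, rfl⟩
    -- the component of `f ⁻¹' S` in `X` is contained in `B`
    set D : Set X := connectedComponentIn (f ⁻¹' ((↑) '' S : Set Y)) x with hD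
    have hDsub : D ⊆ B := by
      have h1 : connectedComponentIn (f ⁻¹' K) (x : X) = B :=
        (connectedComponentIn_eq x.2).symm
      rw [← h1]
      refine connectedComponentIn_mono (x : X) ?_
      intro z hz
      obtain ⟨s, -, hs⟩ := hz
      show f z ∈ K
      rw [← hs]
      exact s.2
    have hDc : IsPreconnected D := isPreconnected_connectedComponentIn
    have hxD : (x : X) ∈ D := mem_connectedComponentIn hxS
    have hDf : D ⊆ f ⁻¹' ((↑) '' S : Set Y) := connectedComponentIn_subset _ _
    set D' : Set B := (↑) ⁻¹' D with hD'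
    have hD'img : ((↑) '' D' : Set X) = D := by
      rw [hD', Subtype.image_preimage_coe]
      exact inter_eq_right.2 hDsub
    have hD'c : IsPreconnected D' := by
      rw [← Topology.IsInducing.subtypeVal.isPreconnected_image, hD'img]
      exact hDc
    have hD'S : D' ⊆ r ⁻¹' S := by
      intro z hz
      obtain ⟨s, hs, hsz⟩ := hDf hz
      have : r z = s := Subtype.ext hsz.symm
      show r z ∈ S
      rw [this]
      exact hs
    have hD'C : D' ⊆ connectedComponentIn (r ⁻¹' S) x :=
      hD'c.subset_connectedComponentIn hxD hD'S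
    apply Subset.antisymm
    · rintro _ ⟨z, hz, rfl⟩
      exact connectedComponentIn_subset (r ⁻¹' S) x hz
    · intro s hs
      obtain ⟨z, hz, hzs⟩ := exists_comp hf hS' hxS (mem_image_of_mem _ hs)
      refine ⟨⟨z, hDsub hz⟩, hD'C hz, Subtype.ext hzs⟩

end Pool.Agent.ACL

end
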