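import Pool.Agent.ACL.Asm
import Pool.Agent.ACL.Arc1
import Pool.Agent.ACL.ArcLift
import Pool.Agent.ACL.Arc3
import Pool.Agent.ACL.CPY
import Pool.Agent.ACL.Cnt
import Pool.Agent.ACL.Coc
import Pool.Agent.ACL.Count
import Pool.Agent.ACL.Cov
import Pool.Agent.ACL.Dec
import Pool.Agent.ACL.End
import Pool.Agent.ACL.Ends
import Pool.Agent.ACL.Eq
import Pool.Agent.ACL.Ext
import Pool.Agent.ACL.HT
import Pool.Agent.ACL.Hu
import Pool.Agent.ACL.Ind
import Pool.Agent.ACL.Lab
import Pool.Agent.ACL.LiftY
import Pool.Agent.ACL.Loc
import Pool.Agent.ACL.Min
import Pool.Agent.ACL.SepB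
import Pool.Agent.ACL.SepEq
import Pool.Agent.ACL.Top1
import Pool.Agent.ACL.Top2
import Pool.Agent.ACL.Top3
import Pool.Agent.ACL.Triv
import Pool.Agent.ACL.W
import Pool.Agent.ACL.WC

/-!
# The theorem for arc-like continua
-/

set_option autoImplicit false

noncomputable section

namespace Pool.Agent.ACL

open Set Filter Topology LibConfluent

theorem grow_final : Stmt_Grow := grow_proof

theorem dense_final : Stmt_Dense := dense_proof grow_final

theorem sat_final : Stmt_Sat := sat_proof dense_final

theorem ext_final : Stmt_Ext := ext_proof compSep_proof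

theorem liftY_final : Stmt_LiftY := liftY_proof chain_proof sat_final hT_proof

theorem w_final : Stmt_W :=
  w_proof hU_proof ends_proof liftP_proof compSep_proof bump_proof lim_proof

theorem wC_final : Stmt_WC := wC_proof w_final

theorem cPY_final : Stmt_CPY := cPY_proof lim_proof (cPX_proof compSep_proof)

theorem count_final : Stmt_Count := count_proof sepB_proof cPY_final lim_proof

theorem sepEq_final : Stmt_SepEq := sepEq_proof sepB_proof

theorem dec_final : Stmt_Dec := dec_proof sepB_proof sepEq_final dense_final

theorem ind_final : Stmt_Ind := ind_proof dense_final sepB_proof sepEq_final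

theorem eq_final : Stmt_Eq := eq_proof loc_proof ext_final

theorem triv_final : Stmt_Triv := triv_proof (cnt_proof sat_final) eq_final hT_proof

theorem cov_final : Stmt_Cov := cov_proof lab_proof coc_proof triv_final

theorem min_final : Stmt_Min := min_proof chain_proof restrict_proof bump_proof

theorem pull_final : Stmt_Pull :=
  pull_of min_final arcLift_proof liftY_final arcTriod_proof triodY_proof hU_proof wC_final
    count_final dec_final ind_final cov_final

theorem prodId_final : Stmt_ProdId := prodId_proof pull_final restrict_proof

theorem main_final : Stmt_Main := main_proof chn_proof prodId_final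

end Pool.Agent.ACL

end
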