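import Pool.Agent.ACL.Basic

/-!
# Basic properties of separation over a proper subcontinuum
-/

set_option autoImplicit false

noncomputable section

namespace Pool.Agent.ACL

open Set Filter Topology LibConfluent

namespace SepB

set_option linter.unusedSectionVars false

variable {X Y N : Type} [MetricSpace X] [CompactSpace X] [MetricSpace Y] [MetricSpace N]
  [CompactSpace N]
  {f : X → Y} {p : N → Y} {G H : Set (X × N)}

theorem eq_of_G (hB : Bad f p G H) {x : X} {n : N} (h : (x, n) ∈ G) : f x = p n := by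
  have : (x, n) ∈ G ∪ H := Or.inl h
  rw [hB.union] at this
  exact this

theorem eq_of_H (hB : Bad f p G H) {x : X} {n : N} (h : (x, n) ∈ H) : f x = p n := by
  have : (x, n) ∈ G ∪ H := Or.inr h
  rw [hB.union] at this
  exact this

theorem mem_or (hB : Bad f p G H) {x : X} {n : N} (h : f x = p n) :
    (x, n) ∈ G ∨ (x, n) ∈ H := by
  have : (x, n) ∈ G ∪ H := by rw [hB.union]; exact h
  exact this

theorem not_both (hB : Bad f p G H) {q : X × N} (h : q ∈ G) (h' : q ∈ H) : False :=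
  (Set.disjoint_left.1 hB.disj h) h'

theorem ne_univ (hB : Bad f p G H) {K : Set Y} (hK : K ≠ univ) {M : Set N} (hM : p '' M = K) :
    M ≠ univ := by
  rintro rfl
  apply hK
  rw [← hM, image_univ, hB.psurj.range_eq]

/-- On a component over `K` the colour does not change. -/
theorem mono' (hB : Bad f p G H) {K : Set Y} (hK : K ≠ univ) {M : Set N}
    (hMc : IsSubcontinuum M) (hM : p '' M = K) {x x' : X} {n n' : N} (hn : n ∈ M) (hn' : n' ∈ M)
    (h : f x = p n) (h' : f x' = p n') (hx : x' ∈ connectedComponentIn (f ⁻¹' K) x) :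
    (x, n) ∈ G ↔ (x', n') ∈ G := by
  refine hB.mono M hMc (ne_univ hB hK hM) x x' n hn n' hn' h h' ?_
  rw [hM]
  exact hx

theorem self (hB : Bad f p G H) {K : Set Y} (hK : K ≠ univ) {M : Set N}
    (hMc : IsSubcontinuum M) (hM : p '' M = K) {x : X} {n n' : N} (hn : n ∈ M) (hn' : n' ∈ M)
    (h : f x = p n) (h' : f x = p n') : (x, n) ∈ G ↔ (x, n') ∈ G := by
  have hx : f x ∈ K := by rw [h, ← hM]; exact mem_image_of_mem p hn
  exact mono' hB hK hMc hM hn hn' h h' (mem_connectedComponentIn hx)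

theorem symm {K : Set Y} {x x' : X} (h : Sep p G H K x x') : Sep p G H K x' x := by
  obtain ⟨M, hM, hMK, n, hn, n', hn', h | h⟩ := h
  · exact ⟨M, hM, hMK, n', hn', n, hn, Or.inr ⟨h.2, h.1⟩⟩
  · exact ⟨M, hM, hMK, n', hn', n, hn, Or.inl ⟨h.2, h.1⟩⟩

theorem trans (hB : Bad f p G H) {K : Set Y} {x x' x'' : X} (hx' : f x' ∈ K)
    (h : ¬ Sep p G H K x x') (h' : ¬ Sep p G H K x' x'') : ¬ Sep p G H K x x'' := by
  rintro ⟨M, hM, hMK, n, hn, n'', hn'', h0⟩
  rw [← hMK] at hx'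
  obtain ⟨n', hn', hpn'⟩ := hx'
  rcases mem_or hB hpn'.symm with hG | hH
  · rcases h0 with ⟨ha, hb⟩ | ⟨ha, hb⟩
    · exact h' ⟨M, hM, hMK, n', hn', n'', hn'', Or.inl ⟨hG, hb⟩⟩
    · exact h ⟨M, hM, hMK, n, hn, n', hn', Or.inr ⟨ha, hG⟩⟩
  · rcases h0 with ⟨ha, hb⟩ | ⟨ha, hb⟩
    · exact h ⟨M, hM, hMK, n, hn, n', hn', Or.inl ⟨ha, hH⟩⟩
    · exact h' ⟨M, hM, hMK, n', hn', n'', hn'', Or.inr ⟨hH, hb⟩⟩

theorem comp (hB : Bad f p G H) {K : Set Y} (hK : K ≠ univ) {x x' : X}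
    (hx : x' ∈ connectedComponentIn (f ⁻¹' K) x) : ¬ Sep p G H K x x' := by
  rintro ⟨M, hM, hMK, n, hn, n', hn', ⟨ha, hb⟩ | ⟨ha, hb⟩⟩
  · have := (mono' hB hK hM hMK hn hn' (eq_of_G hB ha) (eq_of_H hB hb) hx).1 ha
    exact not_both hB this hb
  · have := (mono' hB hK hM hMK hn hn' (eq_of_H hB ha) (eq_of_G hB hb) hx).2 hb
    exact not_both hB this ha

theorem isClosed_proj {G : Set (X × N)} (hG : IsClosed G) {M : Set N} (hM : IsCompact M) :
    IsClosed {x | ∃ n ∈ M, (x, n) ∈ G} := by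
  have h1 : IsCompact (G ∩ Prod.snd ⁻¹' M) :=
    (hG.inter (hM.isClosed.preimage continuous_snd)).isCompact
  have h2 : {x | ∃ n ∈ M, (x, n) ∈ G} = Prod.fst '' (G ∩ Prod.snd ⁻¹' M) := by
    ext x
    constructor
    · rintro ⟨n, hn, h⟩
      exact ⟨(x, n), ⟨h, hn⟩, rfl⟩
    · rintro ⟨⟨x', n⟩, ⟨h, hn⟩, rfl⟩
      exact ⟨n, hn, h⟩
  rw [h2]
  exact (h1.image continuous_fst).isClosed

theorem closed (hB : Bad f p G H) {K : Set Y} (hKc : IsSubcontinuum K) (hK : K ≠ univ) {v : X}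
    (hv : f v ∈ K) : IsClosed {x | f x ∈ K ∧ ¬ Sep p G H K x v} := by
  have key : {x | f x ∈ K ∧ ¬ Sep p G H K x v} = f ⁻¹' K ∩ ⋂ (M : Set N)
      (_ : IsSubcontinuum M ∧ p '' M = K),
      ({x | (∃ n ∈ M, (x, n) ∈ G)} ∩ {_x | ∃ n ∈ M, (v, n) ∈ G} ∪
        {x | (∃ n ∈ M, (x, n) ∈ H)} ∩ {_x | ∃ n ∈ M, (v, n) ∈ H}) := by
    ext x
    simp only [mem_ofPred_eq, mem_inter_iff, mem_preimage, mem_iInter, mem_union]
    constructor
    · rintro ⟨hx, hs⟩
      refine ⟨hx, ?_⟩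
      rintro M ⟨hM, hMK⟩
      have hx1 : f x ∈ p '' M := by rw [hMK]; exact hx
      have hv1 : f v ∈ p '' M := by rw [hMK]; exact hv
      obtain ⟨n, hn, hpn⟩ := hx1
      obtain ⟨n', hn', hpn'⟩ := hv1
      rcases mem_or hB hpn.symm with h1 | h1 <;> rcases mem_or hB hpn'.symm with h2 | h2
      · exact Or.inl ⟨⟨n, hn, h1⟩, ⟨n', hn', h2⟩⟩
      · exact (hs ⟨M, hM, hMK, n, hn, n', hn', Or.inl ⟨h1, h2⟩⟩).elim
      · exact (hs ⟨M, hM, hMK, n, hn, n', hn', Or.inr ⟨h1, h2⟩⟩).elim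
      · exact Or.inr ⟨⟨n, hn, h1⟩, ⟨n', hn', h2⟩⟩
    · rintro ⟨hx, hs⟩
      refine ⟨hx, ?_⟩
      rintro ⟨M, hM, hMK, n, hn, n', hn', h0⟩
      rcases hs M ⟨hM, hMK⟩ with ⟨⟨a, ha, ha'⟩, ⟨b, hb, hb'⟩⟩ | ⟨⟨a, ha, ha'⟩, ⟨b, hb, hb'⟩⟩
      · rcases h0 with ⟨h1, h2⟩ | ⟨h1, h2⟩
        · have := (self hB hK hM hMK hb hn' (eq_of_G hB hb') (eq_of_H hB h2)).1 hb'
          exact not_both hB this h2
        · have := (self hB hK hM hMK ha hn (eq_of_G hB ha') (eq_of_H hB h1)).1 ha'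
          exact not_both hB this h1
      · rcases h0 with ⟨h1, h2⟩ | ⟨h1, h2⟩
        · have := (self hB hK hM hMK hn ha (eq_of_G hB h1) (eq_of_H hB ha')).1 h1
          exact not_both hB this ha'
        · have := (self hB hK hM hMK hn' hb (eq_of_G hB h2) (eq_of_H hB hb')).1 h2
          exact not_both hB this hb'
  rw [key]
  refine (hKc.1.isClosed.preimage hB.conf.continuous).inter ?_
  refine isClosed_iInter fun M => isClosed_iInter fun hM => ?_
  refine IsClosed.union ?_ ?_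
  · exact (isClosed_proj hB.closedG hM.1.1).inter isClosed_const
  · exact (isClosed_proj hB.closedH hM.1.1).inter isClosed_const

theorem sr (hB : Bad f p G H) {K : Set Y} (hKc : IsSubcontinuum K) (hK : K ≠ univ) (r : ℕ)
    {k k' : Y} (hk : k ∈ K) (hk' : k' ∈ K) (h : SR f p G H r K k) : SR f p G H r K k' := by
  obtain ⟨v, hv, hs⟩ := h
  have h1 : ∀ i, ∃ x' ∈ connectedComponentIn (f ⁻¹' K) (v i), f x' = k' := fun i =>
    exists_comp hB.conf hKc (by rw [hv i]; exact hk) hk'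
  choose w hw hfw using h1
  refine ⟨w, hfw, fun i j hij => ?_⟩
  by_contra hc
  have a1 : ¬ Sep p G H K (v i) (w i) := comp hB hK (hw i)
  have a2 : ¬ Sep p G H K (w j) (v j) := fun h' => comp hB hK (hw j) (symm h')
  have hwi : f (w i) ∈ K := by rw [hfw i]; exact hk'
  have hwj : f (w j) ∈ K := by rw [hfw j]; exact hk'
  exact trans hB hwj (trans hB hwi a1 hc) a2 (hs i j hij)

end SepB

theorem sepB_proof : Stmt_SepB := by
  intro X Y N _ _ _ _ _ _ _ _ f p G H hB K hKc hK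
  refine ⟨fun x hx => SepB.comp hB hK (mem_connectedComponentIn hx), fun x x' h => SepB.symm h,
    fun x x' x'' _ hx' _ h h' => SepB.trans hB hx' h h', fun x x' _ h => SepB.comp hB hK h,
    fun v hv => SepB.closed hB hKc hK hv, fun r k k' hk hk' h => SepB.sr hB hKc hK r hk hk' h⟩

end Pool.Agent.ACL

end
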