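import Pool.Agent.ACL.Defs

/-!
# Statements of the modules

`MP_53fb6e_gt`, arc-like class. Paper proof, one section per module:
`/team-store/MP_53fb6e_ARCLIKE.md`. Every module may take other statements as hypotheses.
-/

set_option autoImplicit false

noncomputable section

namespace Pool.Agent.ACL

open Set Filter Topology LibConfluent

/-! ### TOP: compact spaces -/

/-- Intersections of chains of subcontinua. -/
def Stmt_Chain : Prop := ∀ (X : Type) [MetricSpace X] (c : Set (Set X)), c.Nonempty →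
  IsChain (· ⊆ ·) c → (∀ K ∈ c, IsSubcontinuum K) → IsSubcontinuum (⋂₀ c)

/-- Subsequences of subcontinua converge to subcontinua. -/
def Stmt_Lim : Prop := ∀ (X : Type) [MetricSpace X] [CompactSpace X] (K : ℕ → Set X),
  (∀ j, IsSubcontinuum (K j)) → ∃ (L : Set X) (φ : ℕ → ℕ), IsSubcontinuum L ∧ StrictMono φ ∧
    ∀ ε : ℝ, 0 < ε → ∀ᶠ j in atTop, Near ε (K (φ j)) L

/-- Separation between closed sets of components. -/
def Stmt_CompSep : Prop := ∀ (X : Type) [MetricSpace X] [CompactSpace X] (F A B : Set X),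
  IsClosed F → IsClosed A → IsClosed B → A ⊆ F → B ⊆ F →
  (∀ x ∈ A, Disjoint (connectedComponentIn F x) B) →
  ∃ F₁ F₂ : Set X, IsClosed F₁ ∧ IsClosed F₂ ∧ Disjoint F₁ F₂ ∧ F₁ ∪ F₂ = F ∧ A ⊆ F₁ ∧ B ⊆ F₂

/-- Boundary bumping. -/
def Stmt_Bump : Prop := ∀ (X : Type) [MetricSpace X] [CompactSpace X] [ConnectedSpace X]
  (F : Set X) (x : X), IsClosed F → F ≠ univ → x ∈ F →
  (connectedComponentIn F x ∩ closure Fᶜ).Nonempty

/-- A proper subcontinuum can be enlarged a little. -/
def Stmt_Grow : Prop := ∀ (X : Type) [MetricSpace X] [CompactSpace X] [ConnectedSpace X]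
  (K : Set X) (ε : ℝ), IsSubcontinuum K → K ≠ univ → 0 < ε →
  ∃ K' : Set X, IsSubcontinuum K' ∧ K ⊆ K' ∧ K' ≠ K ∧ ∀ x ∈ K', ∃ k ∈ K, dist x k < ε

/-- A proper subcontinuum is contained in an `ε`-dense proper subcontinuum. -/
def Stmt_Dense : Prop := ∀ (X : Type) [MetricSpace X] [CompactSpace X] [ConnectedSpace X]
  (K : Set X) (ε : ℝ), IsSubcontinuum K → K ≠ univ → 0 < ε →
  ∃ K' : Set X, IsSubcontinuum K' ∧ K ⊆ K' ∧ K' ≠ univ ∧ Dns ε K'

/-- A nonempty closed subset of a continuum `L` that contains every proper subcontinuum of `L`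
meeting it is `L` (density of composants). -/
def Stmt_Sat : Prop := ∀ (X : Type) [MetricSpace X] [CompactSpace X] (L M : Set X),
  IsSubcontinuum L → IsClosed M → M.Nonempty → M ⊆ L →
  (∀ S : Set X, IsSubcontinuum S → S ⊆ L → S ≠ L → (S ∩ M).Nonempty → S ⊆ M) → M = L

/-! ### ARC: arc-like spaces -/

/-- Arc-like compact spaces satisfy the hereditary form. -/
def Stmt_Chn : Prop := ∀ (X : Type) [MetricSpace X] [CompactSpace X], ArcLike X → Chn X

/-- Circle-valued functions on closed subsets lift. -/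
def Stmt_ArcLift : Prop := ∀ (X : Type) [MetricSpace X] [CompactSpace X], Chn X →
  ∀ (K : Set X) (g : X → T), IsClosed K → ContinuousOn g K → LiftsOn g K

/-- There are no weak triods in arc-like spaces. -/
def Stmt_ArcTriod : Prop := ∀ (X : Type) [MetricSpace X] [CompactSpace X], Chn X → NoTriod X

/-- The covering property of arc-like spaces: subcontinua of `B₀` are limits of subcontinua of
`B` when `B` converges to `B₀`. -/
def Stmt_CPX : Prop := ∀ (X : Type) [MetricSpace X] [CompactSpace X], Chn X →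
  ∀ (D₀ B₀ : Set X) (ε : ℝ), IsSubcontinuum D₀ → IsSubcontinuum B₀ → D₀ ⊆ B₀ → 0 < ε →
  ∃ δ : ℝ, 0 < δ ∧ ∀ B : Set X, IsSubcontinuum B → Near δ B B₀ →
    ∃ D ⊆ B, IsSubcontinuum D ∧ Near ε D D₀

/-! ### Heights and lifting -/

/-- The height lemma. `E` is a closed equivalence relation on the compact set `B`, `H` a real
function on `B` whose differences on classes are integers, `Mv` a relation of admissible moves. -/
def Stmt_HT : Prop := ∀ (X : Type) [MetricSpace X] (B : Set X) (E Mv : X → X → Prop)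
  (H : X → ℝ), IsCompact B → B.Nonempty →
  (∀ x ∈ B, E x x) → (∀ x ∈ B, ∀ y ∈ B, E x y → E y x) →
  (∀ x ∈ B, ∀ y ∈ B, ∀ z ∈ B, E x y → E y z → E x z) →
  IsClosed {q : X × X | q.1 ∈ B ∧ q.2 ∈ B ∧ E q.1 q.2} → ContinuousOn H B →
  (∀ x ∈ B, ∀ y ∈ B, E x y → ∃ k : ℤ, H x - H y = k) →
  (∀ x ∈ B, ∀ x' ∈ B, Mv x x' → ∀ u ∈ B, ∀ v ∈ B, E x u → E x v →
    ∃ u' ∈ B, ∃ v' ∈ B, E x' u' ∧ E x' v' ∧ H u' - H v' = H u - H v) →
  (∀ M ⊆ B, IsClosed M → M.Nonempty → (∀ x ∈ M, ∀ y ∈ B, E x y → y ∈ M) →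
    (∀ x ∈ M, ∀ y ∈ B, Mv x y → y ∈ M) → M = B) →
  ∃ t : X → ℝ, ContinuousOn t B ∧ (∀ x ∈ B, ∀ y ∈ B, E x y → t x = t y) ∧
    ∀ x ∈ B, ∃ k : ℤ, t x - H x = k

/-- Confluent images inherit the lifting property. -/
def Stmt_LiftY : Prop := ∀ (X Y : Type) [MetricSpace X] [CompactSpace X] [MetricSpace Y]
  [CompactSpace Y] (f : X → Y), Confluent f → LiftC X → LiftC Y

/-- The lifting property implies hereditary unicoherence. -/
def Stmt_HU : Prop := ∀ (Y : Type) [MetricSpace Y] [CompactSpace Y], LiftC Y → HU Y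

/-- Circle-valued functions on closed subsets lift to real functions on the whole space. -/
def Stmt_Ext : Prop := ∀ (Y : Type) [MetricSpace Y] [CompactSpace Y], LiftC Y →
  ∀ (A : Set Y) (g : Y → T), IsClosed A → ContinuousOn g A →
  ∃ h : Y → ℝ, Continuous h ∧ ∀ y ∈ A, ((h y : ℝ) : T) = g y

/-- The lifting principle for continua over `Y`. -/
def Stmt_LiftP : Prop := ∀ (Y N : Type) [MetricSpace Y] [CompactSpace Y] [MetricSpace N]
  [CompactSpace N] [ConnectedSpace N] (p : N → Y) (θ : N → ℝ), LiftC Y → Continuous p →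
  Function.Surjective p → Continuous θ → (∀ n n', p n = p n' → ∃ k : ℤ, θ n - θ n' = k) →
  ∀ n n', p n = p n' → θ n = θ n'

/-- Confluent images inherit the absence of weak triods. -/
def Stmt_TriodY : Prop := ∀ (X Y : Type) [MetricSpace X] [CompactSpace X] [MetricSpace Y]
  [CompactSpace Y] (f : X → Y), Confluent f → NoTriod X → NoTriod Y

/-! ### Weak confluence over `Y` -/

/-- Continua that enter `K` from outside and do not contain `K`. -/
def Ent {Y : Type} [TopologicalSpace Y] (K J : Set Y) : Prop :=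
  IsSubcontinuum J ∧ (J ∩ K).Nonempty ∧ ¬ J ⊆ K ∧ ¬ K ⊆ J

/-- The two ends of a continuum `K` in a hereditarily unicoherent space without weak triods. -/
def Stmt_Ends : Prop := ∀ (Y : Type) [MetricSpace Y] [CompactSpace Y], HU Y → NoTriod Y →
  ∀ K : Set Y, IsSubcontinuum K →
  (∀ J J', Ent K J → Ent K J' → ((J ∩ J') \ K).Nonempty →
    (J ∩ K ⊆ J' ∨ J' ∩ K ⊆ J) ∧ (J \ K ⊆ J' ∨ J' \ K ⊆ J)) ∧
  (∀ J J' J'', Ent K J → Ent K J' → Ent K J'' → ((J ∩ J') \ K).Nonempty →
    ((J' ∩ J'') \ K).Nonempty → ((J ∩ J'') \ K).Nonempty) ∧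
  (∀ J J' J'', Ent K J → Ent K J' → Ent K J'' → ((J ∩ J') \ K).Nonempty ∨
    ((J ∩ J'') \ K).Nonempty ∨ ((J' ∩ J'') \ K).Nonempty)

/-- Every continuum over `Y` is weakly confluent. -/
def Stmt_W : Prop := ∀ (Y N : Type) [MetricSpace Y] [CompactSpace Y] [MetricSpace N]
  [CompactSpace N] [ConnectedSpace N] (p : N → Y), LiftC Y → NoTriod Y → Continuous p →
  Function.Surjective p → ∀ K : Set Y, IsSubcontinuum K → ∃ M : Set N, IsSubcontinuum M ∧
  p '' M = K

/-- Weak confluence on subcontinua. -/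
def Stmt_WC : Prop := ∀ (Y N : Type) [MetricSpace Y] [CompactSpace Y] [MetricSpace N]
  [CompactSpace N] (p : N → Y), LiftC Y → NoTriod Y → Continuous p → WC p

/-- The covering property of confluent images of arc-like continua. -/
def Stmt_CPY : Prop := ∀ (X Y : Type) [MetricSpace X] [CompactSpace X] [MetricSpace Y]
  [CompactSpace Y] (f : X → Y), Chn X → Confluent f → WC f →
  ∀ (K₀ : Set Y) (ε : ℝ), IsSubcontinuum K₀ → 0 < ε →
  ∃ δ : ℝ, 0 < δ ∧ ∀ K : Set Y, IsSubcontinuum K → Dns δ K →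
    ∃ K' ⊆ K, IsSubcontinuum K' ∧ Near ε K' K₀

/-! ### The minimal bad situation -/

/-- Restriction of a confluent mapping to a component over a subcontinuum. -/
def Stmt_Restrict : Prop := ∀ (X Y : Type) [MetricSpace X] [CompactSpace X] [MetricSpace Y]
  [CompactSpace Y] (f : X → Y) (K : Set Y) (x₀ : X) (_ : f x₀ ∈ K), Confluent f →
  IsSubcontinuum K → ∀ h : ∀ x : connectedComponentIn (f ⁻¹' K) x₀, f x ∈ K,
  Confluent (fun x : connectedComponentIn (f ⁻¹' K) x₀ => (⟨f x, h x⟩ : K))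

/-- Pullbacks are connected if there is no minimal bad situation. -/
def Stmt_Min : Prop :=
  (∀ (X Y N : Type) [MetricSpace X] [CompactSpace X] [ConnectedSpace X] [MetricSpace Y]
    [CompactSpace Y] [ConnectedSpace Y] [Nontrivial Y] [MetricSpace N] [CompactSpace N]
    [ConnectedSpace N] (f : X → Y) (p : N → Y) (G H : Set (X × N)), Chn X →
    ¬ Bad f p G H) →
  ∀ (X Y N : Type) [MetricSpace X] [CompactSpace X] [ConnectedSpace X] [MetricSpace Y]
    [CompactSpace Y] [ConnectedSpace Y] [MetricSpace N] [CompactSpace N] [ConnectedSpace N]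
    (f : X → Y) (p : N → Y), Chn X → Confluent f → Continuous p → Function.Surjective p →
    IsConnected {q : X × N | f q.1 = p q.2}

/-- Basic properties of separation over a proper subcontinuum. -/
def Stmt_SepB : Prop := ∀ (X Y N : Type) [MetricSpace X] [CompactSpace X] [ConnectedSpace X]
  [MetricSpace Y] [CompactSpace Y] [MetricSpace N] [CompactSpace N] [ConnectedSpace N]
  (f : X → Y) (p : N → Y) (G H : Set (X × N)), Bad f p G H →
  ∀ K : Set Y, IsSubcontinuum K → K ≠ univ →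
  (∀ x, f x ∈ K → ¬ Sep p G H K x x) ∧
  (∀ x x', Sep p G H K x x' → Sep p G H K x' x) ∧
  (∀ x x' x'', f x ∈ K → f x' ∈ K → f x'' ∈ K → ¬ Sep p G H K x x' → ¬ Sep p G H K x' x'' →
    ¬ Sep p G H K x x'') ∧
  (∀ x x', f x ∈ K → x' ∈ connectedComponentIn (f ⁻¹' K) x → ¬ Sep p G H K x x') ∧
  (∀ v, f v ∈ K → IsClosed {x | f x ∈ K ∧ ¬ Sep p G H K x v}) ∧
  (∀ r k k', k ∈ K → k' ∈ K → SR f p G H r K k → SR f p G H r K k')

/-- The counting argument. -/
def Stmt_Count : Prop := ∀ (X Y N : Type) [MetricSpace X] [CompactSpace X] [ConnectedSpace X]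
  [MetricSpace Y] [CompactSpace Y] [ConnectedSpace Y] [Nontrivial Y] [MetricSpace N]
  [CompactSpace N] [ConnectedSpace N] (f : X → Y) (p : N → Y) (G H : Set (X × N)), Chn X →
  WC f → WC p → Bad f p G H → ∃ (m : ℕ) (η : ℝ), Counted f p G H m η

/-- Over large proper subcontinua the classes are determined by restriction. -/
def Stmt_SepEq : Prop := ∀ (X Y N : Type) [MetricSpace X] [CompactSpace X] [ConnectedSpace X]
  [MetricSpace Y] [CompactSpace Y] [MetricSpace N] [CompactSpace N] [ConnectedSpace N]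
  (f : X → Y) (p : N → Y) (G H : Set (X × N)) (m : ℕ) (η : ℝ), WC p → Bad f p G H →
  Counted f p G H m η → ∀ K K' : Set Y, IsSubcontinuum K → IsSubcontinuum K' → K' ≠ univ →
  K ⊆ K' → Dns η K →
  (∀ x x', f x ∈ K → f x' ∈ K → (Sep p G H K x x' ↔ Sep p G H K' x x')) ∧
  (∀ v : Fin m → X, (∀ i, f (v i) ∈ K) → (∀ i j, i ≠ j → Sep p G H K (v i) (v j)) →
    ∀ x, f x ∈ K → ∃ i, ¬ Sep p G H K x (v i))

/-- The decomposable case. -/
def Stmt_Dec : Prop := ∀ (X Y N : Type) [MetricSpace X] [CompactSpace X] [ConnectedSpace X]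
  [MetricSpace Y] [CompactSpace Y] [ConnectedSpace Y] [MetricSpace N] [CompactSpace N]
  [ConnectedSpace N] (f : X → Y) (p : N → Y) (G H : Set (X × N)) (m : ℕ) (η : ℝ),
  HU Y → WC p → Bad f p G H → Counted f p G H m η → ¬ Decomposable Y

/-- The indecomposable case: a finite covering. -/
def Stmt_Ind : Prop := ∀ (X Y N : Type) [MetricSpace X] [CompactSpace X] [ConnectedSpace X]
  [MetricSpace Y] [CompactSpace Y] [ConnectedSpace Y] [Nontrivial Y] [MetricSpace N]
  [CompactSpace N] [ConnectedSpace N] (f : X → Y) (p : N → Y) (G H : Set (X × N)) (m : ℕ)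
  (η : ℝ), WC p → Bad f p G H → Counted f p G H m η → ¬ Decomposable Y →
  ∃ E : X → X → Prop, Cov f E m

/-! ### Finite coverings are trivial -/

/-- Coverings dominated by an arc-like space can be labelled. -/
def Stmt_Lab : Prop := ∀ (X Y : Type) [MetricSpace X] [CompactSpace X] [MetricSpace Y]
  [CompactSpace Y] (f : X → Y) (E : X → X → Prop) (m : ℕ), Chn X → Continuous f →
  Cov f E m → ∃ l : X → X → Fin m, Lab f E m l

/-- The cocycle of a labelling. -/
def Stmt_Coc : Prop := ∀ (X Y : Type) [MetricSpace X] [CompactSpace X] [MetricSpace Y]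
  [CompactSpace Y] (f : X → Y) (E : X → X → Prop) (m : ℕ) (l : X → X → Fin m), Continuous f →
  Cov f E m → Lab f E m l → ∃ σ : X → X → Equiv.Perm (Fin m), Coc f σ ∧
    ∀ x x' z, f x = f x' → f x' = f z → l x' z = σ x x' (l x z)

/-- The values of the cocycle towards an invariant closed set do not depend on the point. -/
def Stmt_Cnt : Prop := ∀ (X Y G : Type) [MetricSpace X] [CompactSpace X] [ConnectedSpace X]
  [MetricSpace Y] [CompactSpace Y] [ConnectedSpace Y] [Group G] [Finite G] (f : X → Y)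
  (σ : X → X → G) (M : Set X), Confluent f → Coc f σ → IsClosed M → M.Nonempty →
  (∀ x ∈ M, ∀ x', f x = f x' → σ x x' = 1 → x' ∈ M) →
  (∀ S : Set Y, IsSubcontinuum S → S ≠ univ → ∀ x ∈ M, f x ∈ S →
    connectedComponentIn (f ⁻¹' S) x ⊆ M) →
  ∃ A : Set G, ∀ x, {τ | ∃ x' ∈ M, f x = f x' ∧ σ x x' = τ} = A

/-- Local trivialisations of the cocycle. -/
def Stmt_Loc : Prop := ∀ (X Y G : Type) [MetricSpace X] [CompactSpace X] [MetricSpace Y]
  [CompactSpace Y] [Group G] [Finite G] (f : X → Y) (σ : X → X → G), Continuous f →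
  Function.Surjective f → Coc f σ → ∀ y : Y, ∃ (V : Set Y) (lam : X → G), V ∈ 𝓝 y ∧
    IsClosed V ∧ (∀ τ, IsClosed {x | f x ∈ V ∧ lam x = τ}) ∧
    ∀ x x', f x = f x' → f x ∈ V → σ x x' * lam x = lam x'

/-- An equivariant circle-valued function. -/
def Stmt_Eq : Prop := ∀ (X Y G : Type) [MetricSpace X] [CompactSpace X] [MetricSpace Y]
  [CompactSpace Y] [Group G] [Finite G] (f : X → Y) (σ : X → X → G) (A : Set G) (g : G),
  LiftC Y → Continuous f → Function.Surjective f → Coc f σ →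
  (∀ x, {τ | ∃ x', f x = f x' ∧ σ x x' = τ} = A) → g ∈ A →
  ∃ s : X → T, Continuous s ∧ ∀ x x', f x = f x' →
    (σ x x' = 1 → s x' = s x) ∧ (σ x x' = g → s x' = s x + ((1 / (orderOf g : ℝ) : ℝ) : T))

/-- The cocycle is trivial. -/
def Stmt_Triv : Prop := ∀ (X Y G : Type) [MetricSpace X] [CompactSpace X] [ConnectedSpace X]
  [MetricSpace Y] [CompactSpace Y] [ConnectedSpace Y] [Group G] [Finite G] (f : X → Y)
  (σ : X → X → G), LiftC X → LiftC Y → Confluent f → Coc f σ →
  ∀ x x', f x = f x' → σ x x' = 1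

/-- Coverings dominated by an arc-like continuum have one sheet. -/
def Stmt_Cov : Prop := ∀ (X Y : Type) [MetricSpace X] [CompactSpace X] [ConnectedSpace X]
  [MetricSpace Y] [CompactSpace Y] [ConnectedSpace Y] (f : X → Y) (E : X → X → Prop) (m : ℕ),
  Chn X → LiftC X → LiftC Y → Confluent f → Cov f E m → m ≤ 1

/-! ### The end -/

/-- Pullbacks of confluent mappings of arc-like continua are connected. -/
def Stmt_Pull : Prop :=
  ∀ (X Y N : Type) [MetricSpace X] [CompactSpace X] [ConnectedSpace X] [MetricSpace Y]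
    [CompactSpace Y] [ConnectedSpace Y] [MetricSpace N] [CompactSpace N] [ConnectedSpace N]
    (f : X → Y) (p : N → Y), Chn X → Confluent f → Continuous p → Function.Surjective p →
    IsConnected {q : X × N | f q.1 = p q.2}

/-- Products with the identity of a continuum are confluent. -/
def Stmt_ProdId : Prop := ∀ (X Y Z : Type) [MetricSpace X] [CompactSpace X] [ConnectedSpace X]
  [MetricSpace Y] [CompactSpace Y] [ConnectedSpace Y] [MetricSpace Z] [CompactSpace Z]
  [ConnectedSpace Z] (f : X → Y), Chn X → Confluent f →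
  Confluent (fun q : X × Z => (f q.1, q.2))

/-- The theorem. -/
def Stmt_Main : Prop := ∀ (X Y : Type) [MetricSpace X] [CompactSpace X] [ConnectedSpace X]
  [MetricSpace Y] [CompactSpace Y] [ConnectedSpace Y] (f : X → Y), ArcLike X → Confluent f →
  Confluent (Prod.map f f)

end Pool.Agent.ACL

end
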